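import Pool.Agent.V8H72.RStar4

set_option autoImplicit false
set_option linter.unusedSectionVars false
set_option linter.unnecessarySimpa false

namespace Pool.Agent.V8H72.RStar

open HNNExtension Monoid

/-- The sign of an integer. -/
def sg (m : ℤ) : ℤˣ := if 0 < m then 1 else -1

/-- The word `t^m s`. -/
def blk {A : Type*} [Group A] (m : ℤ) (s : A) : List (ℤˣ × A) :=
  List.replicate (m.natAbs - 1) (sg m, 1) ++ [(sg m, s)]

theorem valB_blk {A : Type*} [Group A] (m : ℤ) (hm : m ≠ 0) (s : A) :
    valB (blk m s) = t ^ m * of s := by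
  have h1 : valB (List.replicate (m.natAbs - 1) (sg m, (1 : A))) =
      (t ^ (sg m : ℤ)) ^ (m.natAbs - 1) := by
    simp [valB]
  have h2 : valB [(sg m, s)] = t ^ (sg m : ℤ) * of s := by simp [valB]
  rw [blk, valB_append, h1, h2, ← mul_assoc, ← pow_succ, ← zpow_natCast, ← zpow_mul]
  congr 2
  have h3 : 0 < m.natAbs := Int.natAbs_pos.2 hm
  have h4 : ((m.natAbs - 1 + 1 : ℕ) : ℤ) = |m| := by
    rw [Nat.sub_add_cancel h3, Int.natCast_natAbs]
  rw [h4, sg]
  split_ifs with h
  · rw [abs_of_pos h]; simp
  · rw [abs_of_nonpos (by omega)]; simp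

theorem blk_ne_nil {A : Type*} [Group A] (m : ℤ) (s : A) : blk m s ≠ [] := by simp [blk]

theorem blk_chain {A : Type*} [Group A] (m : ℤ) (s : A) :
    (blk m s).IsChain (fun x y => x.2 = 1 → x.1 = y.1) := by
  rw [blk, List.isChain_append]
  refine ⟨?_, by simp, ?_⟩
  · apply List.isChain_replicate_of_rel
    simp
  · intro x hx y hy _
    have h1 : x = (sg m, 1) := List.eq_of_mem_replicate (List.mem_of_mem_getLast? hx)
    simp at hy
    rw [h1, ← hy]

variable {ι : Type*} {G : ι → Type*} [∀ i, Group (G i)]

/-- The product of a list of syllables. -/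
def prodL (L : List (Σ i, G i)) : CoprodI G := (L.map (fun x => CoprodI.of x.2)).prod

theorem prodL_append (L L' : List (Σ i, G i)) : prodL (L ++ L') = prodL L * prodL L' := by
  simp [prodL]

/-- Reduced lists of syllables. -/
def Red (L : List (Σ i, G i)) : Prop :=
  (∀ x ∈ L, x.2 ≠ 1) ∧ (L.map Sigma.fst).IsChain (· ≠ ·)

section theta

variable [DecidableEq ι] (n : ι → ℤ)

/-- The homomorphism to the free product of the direct product and an infinite cyclic group, which
maps `x` in `G i` to the conjugate of `x` by `t^(n i)`. -/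
def theta : CoprodI G →* HN (∀ i, G i) :=
  CoprodI.lift (fun i => (MulAut.conj (t ^ n i : HN (∀ i, G i))).toMonoidHom.comp
    (of.comp (MonoidHom.mulSingle G i)))

theorem theta_of (i : ι) (x : G i) :
    theta n (CoprodI.of x) = t ^ n i * of (Pi.mulSingle i x) * (t ^ n i)⁻¹ := by
  rw [theta, CoprodI.lift_of]
  rfl

/-- The cyclic word of `theta`. -/
def build : ℤ → List (Σ i, G i) → List (ℤˣ × (∀ i, G i))
  | _, [] => []
  | p, x :: L => blk (n x.1 - p) (Pi.mulSingle x.1 x.2) ++ build (n x.1) L

/-- The last exponent. -/
def lastn : ℤ → List (Σ i, G i) → ℤ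
  | p, [] => p
  | _, x :: L => lastn (n x.1) L

theorem lastn_append (p : ℤ) (L : List (Σ i, G i)) (x : Σ i, G i) :
    lastn n p (L ++ [x]) = n x.1 := by
  induction L generalizing p with
  | nil => rfl
  | cons y L ih => exact ih _

/-- Consecutive exponents are different. -/
def Good : ℤ → List (Σ i, G i) → Prop
  | _, [] => True
  | p, x :: L => n x.1 ≠ p ∧ Good (n x.1) L

theorem valB_build (p : ℤ) (L : List (Σ i, G i)) (h : Good n p L) :
    valB (build n p L) = (t ^ p)⁻¹ * theta n (prodL L) * t ^ lastn n p L := by
  induction L generalizing p with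
  | nil => simp [build, valB, prodL, lastn]
  | cons x L ih =>
    rw [build, valB_append, valB_blk _ (sub_ne_zero.2 h.1), ih _ h.2]
    have h1 : prodL (x :: L) = CoprodI.of x.2 * prodL L := by simp [prodL]
    rw [h1, map_mul, theta_of, lastn, zpow_sub]
    have h2 : (t ^ n x.1 * (t ^ p)⁻¹ : HN (∀ i, G i)) = (t ^ p)⁻¹ * t ^ n x.1 := by
      rw [← zpow_neg, ← zpow_add, ← zpow_add, add_comm]
    rw [h2]
    group

theorem build_chain (p : ℤ) (L : List (Σ i, G i)) (h1 : ∀ x ∈ L, x.2 ≠ 1) :
    (build n p L).IsChain (fun x y => x.2 = 1 → x.1 = y.1) ∧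
      ∀ h : build n p L ≠ [], ((build n p L).getLast h).2 ≠ 1 := by
  induction L generalizing p with
  | nil => simp [build]
  | cons x L ih =>
    have hx : (Pi.mulSingle x.1 x.2 : ∀ i, G i) ≠ 1 := by
      rw [Ne, Pi.mulSingle_eq_one_iff]
      exact h1 x (by simp)
    have hlast : ∀ h, ((blk (n x.1 - p) (Pi.mulSingle x.1 x.2 : ∀ i, G i)).getLast h).2 ≠ 1 := by
      intro h
      simp only [blk, List.getLast_append_singleton]
      exact hx
    obtain ⟨h2, h3⟩ := ih (n x.1) (fun y hy => h1 y (by simp [hy]))
    constructor
    · rw [build, List.isChain_append]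
      refine ⟨blk_chain _ _, h2, ?_⟩
      intro y hy z _ hy1
      exfalso
      have h4 := List.getLast?_eq_some_getLast (blk_ne_nil (n x.1 - p)
        (Pi.mulSingle x.1 x.2 : ∀ i, G i))
      rw [h4] at hy
      simp only [Option.mem_def, Option.some.injEq] at hy
      rw [← hy] at hy1
      exact hlast _ hy1
    · intro h
      simp only [build] at h ⊢
      by_cases h5 : build n (n x.1) L = []
      · simp only [h5, List.append_nil]
        exact hlast _
      · rw [List.getLast_append_of_ne_nil h h5]
        exact h3 h5

end theta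

theorem NT_cyc [DecidableEq ι] (htf : ∀ i (a : G i) (n : ℕ), 0 < n → a ^ n = 1 → a = 1)
    (L : List (Σ i, G i)) (x : Σ i, G i) (h1 : ∀ y ∈ L ++ [x], y.2 ≠ 1)
    (n : ι → ℤ) (h2 : Good n (n x.1) (L ++ [x])) :
    NT (prodL (L ++ [x])) := by
  apply NT.of_hom (theta n)
  apply NT.of_conj (t ^ n x.1)⁻¹
  have h3 := valB_build n (n x.1) _ h2
  rw [lastn_append] at h3
  rw [inv_inv, ← h3]
  have h4 := build_chain n (n x.1) _ h1
  have hne : build n (n x.1) (L ++ [x]) ≠ [] := by
    cases L with
    | nil => simp [build, blk]
    | cons y L => simp [build, blk]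
  apply NT_valB _ hne _ h4.1 (h4.2 hne)
  intro a m hm ha
  funext i
  apply htf i (a i) m hm
  have := congrFun ha i
  simpa using this

theorem good_of_chain (n : ι → ℤ) (S : List ι) (hinj : ∀ i ∈ S, ∀ j ∈ S, n i = n j → i = j)
    (L : List (Σ i, G i)) (hL : (L.map Sigma.fst).IsChain (· ≠ ·)) (hS : ∀ x ∈ L, x.1 ∈ S)
    (j : ι) (hj : j ∈ S) (hjL : ∀ x ∈ L.head?, x.1 ≠ j) : Good n (n j) L := by
  induction L generalizing j with
  | nil => trivial
  | cons x L ih =>
    refine ⟨?_, ?_⟩
    · intro h
      exact hjL x (by simp) (hinj _ (hS x (by simp)) _ hj h)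
    · apply ih
      · rw [List.map_cons] at hL
        exact hL.tail
      · intro y hy
        exact hS y (by simp [hy])
      · exact hS x (by simp)
      · intro y hy
        cases L with
        | nil => simp at hy
        | cons z L =>
          simp only [List.head?_cons, Option.mem_def, Option.some.injEq] at hy
          subst hy
          rw [List.map_cons, List.map_cons, List.isChain_cons_cons] at hL
          exact hL.1.symm

theorem NT_red (htf : ∀ i (a : G i) (n : ℕ), 0 < n → a ^ n = 1 → a = 1)
    (hNT : ∀ i (a : G i), a ≠ 1 → NT a) (m : ℕ) :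
    ∀ L : List (Σ i, G i), L.length ≤ m → L ≠ [] → Red L → NT (prodL L) := by
  classical
  induction m with
  | zero =>
    intro L h1 h2
    exact absurd (List.eq_nil_of_length_eq_zero (by omega)) h2
  | succ m ih =>
    intro L hlen hne hred
    obtain ⟨M, y, rfl⟩ : ∃ M y, L = M ++ [y] :=
      ⟨L.dropLast, L.getLast hne, (List.dropLast_append_getLast hne).symm⟩
    cases M with
    | nil =>
      have h1 : y.2 ≠ 1 := hred.1 y (by simp)
      apply NT.of_hom (CoprodI.lift (Pi.mulSingle y.1 (MonoidHom.id (G y.1))))
      have h2 : (CoprodI.lift (Pi.mulSingle y.1 (MonoidHom.id (G y.1)))) (prodL ([] ++ [y])) = y.2 := by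
        have := CoprodI.of_leftInverse (M := G) y.1 y.2
        simpa [prodL] using this
      rw [h2]
      exact hNT _ _ h1
    | cons x M =>
      by_cases hxy : x.1 = y.1
      · -- conjugate by the last syllable
        obtain ⟨i, x⟩ := x
        obtain ⟨j, y⟩ := y
        simp only at hxy
        subst hxy
        apply NT.of_conj (CoprodI.of y)
        have h1 : CoprodI.of y * prodL ((⟨i, x⟩ : Σ i, G i) :: M ++ [⟨i, y⟩]) * (CoprodI.of y)⁻¹ =
            CoprodI.of (y * x) * prodL M := by
          simp [prodL, mul_assoc]
        rw [h1]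
        have hM : Red M := by
          refine ⟨fun z hz => hred.1 z (by simp [hz]), ?_⟩
          have h2 := hred.2
          rw [List.cons_append, List.map_cons, List.map_append] at h2
          exact h2.tail.left_of_append
        have hMne : M ≠ [] := by
          rintro rfl
          have h2 := hred.2
          simp at h2
        by_cases hyx : y * x = 1
        · rw [hyx, map_one, one_mul]
          apply ih M _ hMne hM
          simp at hlen
          omega
        · have h3 : CoprodI.of (y * x) * prodL M = prodL ((⟨i, y * x⟩ : Σ i, G i) :: M) := by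
            simp [prodL]
          rw [h3]
          apply ih
          · simp at hlen ⊢
            omega
          · simp
          · refine ⟨?_, ?_⟩
            · intro z hz
              rw [List.mem_cons] at hz
              rcases hz with rfl | hz
              · exact hyx
              · exact hM.1 z hz
            · have h2 := hred.2
              rw [List.map_append] at h2
              exact h2.left_of_append
      · -- cyclically reduced
        let S : List ι := (x :: M ++ [y]).map Sigma.fst
        let n : ι → ℤ := fun i => (S.idxOf i : ℤ)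
        have hinj : ∀ i ∈ S, ∀ j ∈ S, n i = n j → i = j := by
          intro i hi j hj h
          have h' : S.idxOf i = S.idxOf j := Int.ofNat.inj h
          exact (List.idxOf_inj hi).1 h'
        apply NT_cyc htf (x :: M) y hred.1 n
        apply good_of_chain n S hinj _ hred.2
        · intro z hz
          exact List.mem_map_of_mem hz
        · exact List.mem_map_of_mem (by simp)
        · intro z hz
          simp only [List.cons_append, List.head?_cons, Option.mem_def, Option.some.injEq] at hz
          subst hz
          exact hxy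

/-- The statement with lists. -/
theorem NT_main (htf : ∀ i (a : G i) (n : ℕ), 0 < n → a ^ n = 1 → a = 1)
    (hNT : ∀ i (a : G i), a ≠ 1 → NT a) (g : CoprodI G) (hg : g ≠ 1) : NT g := by
  classical
  let w : CoprodI.Word G := CoprodI.Word.equiv g
  have h1 : prodL w.toList = g := CoprodI.Word.equiv.symm_apply_apply g
  rw [← h1]
  apply NT_red htf hNT w.toList.length w.toList le_rfl
  · intro h
    apply hg
    rw [← h1, h]
    rfl
  · refine ⟨fun x hx => w.ne_one x hx, ?_⟩
    have := w.chain_ne
    rw [List.isChain_map]
    exact this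

end Pool.Agent.V8H72.RStar
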