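import Pool.Agent.H914R2.StdDefs

/-!
# Complex cohomology with Hodge theory, the Mumford-Tate condition, Kunneth components
-/

open CategoryTheory AlgebraicGeometry
open scoped ComplexOrder

universe u v

namespace Pool.Agent.V8H72.Exo

open Pool.Agent.H914 VarClass Obj WeilCohomology

section Alg

variable {K : Type*} [Field K] {A : Type*} [Ring A] [Algebra K A] {C : Type*} [Ring C]
  [Algebra K C]

/-- The map `φ` with inverse `ψ` is an automorphism of the graded algebra `A` which is semilinear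
with respect to the automorphism `τ` of `ℂ`, and compatible with the orientation. -/
structure IsSemiAut (ι : K ≃+* ℂ) (gr : ℕ → Submodule K A) (tr : A →ₗ[K] K) (τ : ℂ ≃+* ℂ)
    (φ ψ : A → A) : Prop where
  add : ∀ a b, φ (a + b) = φ a + φ b
  smul : ∀ (c : K) (a : A), φ (c • a) = ι.symm (τ (ι c)) • φ a
  symm : ∀ a, φ (ψ a) = a
  mul : ∀ a b, φ (a * b) = φ a * φ b
  gr_mem : ∀ {i : ℕ} {a : A}, a ∈ gr i → φ a ∈ gr i
  tr_eq : ∀ a, ι (tr (φ a)) = τ (ι (tr a))

/-- The subspaces `h p q` form a Hodge decomposition of the graded algebra `A` with the complex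
conjugation `bar`. -/
structure IsHodgeDec (gr : ℕ → Submodule K A) (bar : A → A) (h : ℕ → ℕ → Submodule K A) :
    Prop where
  isInternal : DirectSum.IsInternal (fun pq : ℕ × ℕ => h pq.1 pq.2)
  le_gr : ∀ {p q : ℕ} {a : A}, a ∈ h p q → a ∈ gr (p + q)
  mul_mem : ∀ {p q p' q' : ℕ} {a b : A}, a ∈ h p q → b ∈ h p' q' → a * b ∈ h (p + p') (q + q')
  bar_mem : ∀ {p q : ℕ} {a : A}, a ∈ h p q → bar a ∈ h q p

/-- The Hodge-Riemann relations for the class `ξ`: for `a ≠ 0` in `h p q` primitive, that is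
`p + q ≤ n` and `ξ ^ (n - p - q + 1) a = 0`, the number
`i ^ (p - q) (-1) ^ ((p + q) (p + q - 1) / 2) tr (ξ ^ (n - p - q) a ā)` is real and positive. -/
def HodgeRiemann (ι : K ≃+* ℂ) (n : ℕ) (tr : A →ₗ[K] K) (bar : A → A)
    (h : ℕ → ℕ → Submodule K A) (ξ : A) : Prop :=
  ∀ p q, p + q ≤ n → ∀ a ∈ h p q, a ≠ 0 → ξ ^ (n - (p + q) + 1) * a = 0 →
    (0 : ℂ) < Complex.I ^ ((p : ℤ) - q) * (-1) ^ ((p + q) * (p + q - 1) / 2) *
      ι (tr (ξ ^ (n - (p + q)) * (a * bar a)))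

/-- The element `x` lies in the Lie algebra generated by the set `S`. -/
inductive LieGen (K : Type*) {A : Type*} [Field K] [Ring A] [Algebra K A] (S : Set A) : A → Prop
  | mem (x : A) : x ∈ S → LieGen K S x
  | zero : LieGen K S 0
  | add (x y : A) : LieGen K S x → LieGen K S y → LieGen K S (x + y)
  | smul (c : K) (x : A) : LieGen K S x → LieGen K S (c • x)
  | comm (x y : A) : LieGen K S x → LieGen K S y → LieGen K S (x * y - y * x)

/-- The operators which are conjugate by an automorphism `τ` of `ℂ` to the Hodge operator, which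
acts on `h p q` as `p - q`: they act on `τ(h p q)` as `p - q`. -/
def conjHodgeOps (act : (ℂ ≃+* ℂ) → A → A) (h : ℕ → ℕ → Submodule K A) :
    Set (Module.End K A) :=
  {T | ∃ τ, ∀ p q, ∀ a ∈ h p q, T (act τ a) = ((p : K) - q) • act τ a}

/-- The Lie algebra generated by the operators in `S` contains, up to the action outside the
subspace `G`, all operators `s` on `G` with `tr (s a · b) + tr (a · s b) = 0`. -/
def ContainsSp (G : Submodule K A) (tr : A →ₗ[K] K) (S : Set (Module.End K A)) : Prop :=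
  ∀ s : Module.End K A, (∀ a ∈ G, s a ∈ G) →
    (∀ a ∈ G, ∀ b ∈ G, tr (s a * b) + tr (a * s b) = 0) → ∃ T, LieGen K S T ∧ ∀ a ∈ G, T a = s a

/-- The Kunneth summand `H^(2n-i) ⊗ H^i` of degree `2n`, where `p` and `q` are the two pull-backs. -/
def kunnethSummand (gr : ℕ → Submodule K A) (n : ℕ) (p q : A →ₐ[K] C) (i : ℕ) : Submodule K C :=
  Submodule.span K {c | ∃ j, j + i = 2 * n ∧ ∃ a ∈ gr j, ∃ b ∈ gr i, c = p a * q b}

/-- The class `c` is the component of `d` in the `i`-th one of the subspaces `G j`: it lies in `G i`,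
and `d - c` lies in the sum of the others. -/
def IsComponent (G : ℕ → Submodule K C) (i : ℕ) (d c : C) : Prop :=
  c ∈ G i ∧ d - c ∈ ⨆ j, ⨆ (_ : j ≠ i), G j

end Alg

variable {k : Type u} [Field k] {𝒱 : VarClass k} {ops : CycleOps 𝒱}

/-- An identification of the coefficient field of `V` with `ℂ`, for each automorphism `τ` of the
field `ℂ` maps `H(X) → H(X)`, and subspaces `H^{p,q}(X)` of `H(X)`. The example is Betti cohomology
with complex coefficients, where `τ` acts on `H(X) = ℂ ⊗ H(X, ℚ)` by `c ⊗ a ↦ τ(c) ⊗ a`. -/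
structure HodgeData (V : WeilCohomology.{u, v} ops) where
  /-- the identification of the coefficient field with the complex numbers -/
  ι : V.K ≃+* ℂ
  /-- the action of the automorphisms of the field `ℂ` on the cohomology -/
  act : (ℂ ≃+* ℂ) → ∀ X : 𝒱.Obj, V.H X → V.H X
  /-- the subspaces `H^{p,q}(X)` -/
  hodge : ∀ X : 𝒱.Obj, ℕ → ℕ → Submodule V.K (V.H X)

/-- The action of `τ` is semilinear, and compatible with all the structure. -/
structure IsAct {V : WeilCohomology.{u, v} ops} (G : HodgeData V) (τ : ℂ ≃+* ℂ) : Prop where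
  isSemiAut : ∀ X, IsSemiAut G.ι (V.gr X) (V.tr X) τ (G.act τ X) (G.act τ.symm X)
  map : ∀ {X Y : 𝒱.Obj} (f : X ⟶ Y) (a : V.H Y), G.act τ X (V.map f a) = V.map f (G.act τ Y a)
  cl : ∀ (X : 𝒱.Obj) (z : X.Cycles), G.act τ X (V.cl X z) = V.cl X z

/-- Complex conjugation on the cohomology: the action of the automorphism `c ↦ c̄` of `ℂ`. -/
def bar {V : WeilCohomology.{u, v} ops} (G : HodgeData V) (X : 𝒱.Obj) : V.H X → V.H X :=
  G.act (starRingAut : RingAut ℂ) X

/-- The Hodge decomposition is compatible with pull-backs and with the classes of cycles. -/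
structure IsHodgeFunctorial {V : WeilCohomology.{u, v} ops} (G : HodgeData V) : Prop where
  map_mem : ∀ {X Y : 𝒱.Obj} (f : X ⟶ Y) (p q : ℕ), ∀ b ∈ G.hodge Y p q, V.map f b ∈ G.hodge X p q
  cl_mem : ∀ (X : 𝒱.Obj) (p : ℕ) (z : X.Cycles), X.IsCyc p z → V.cl X z ∈ G.hodge X p p

/-- There is a divisor on `X` with hard Lefschetz and the Hodge-Riemann relations. -/
def HasPolarization {V : WeilCohomology.{u, v} ops} (G : HodgeData V) (X : 𝒱.Obj) : Prop :=
  ∃ D : X.Cycles, X.IsCyc 1 D ∧ HardLefschetz V X D ∧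
    HodgeRiemann G.ι X.dim (V.tr X) (bar G X) (G.hodge X) (V.cl X D)

/-- Hodge theory for the Weil cohomology theory `V`, the example being Betti cohomology with
complex coefficients of smooth projective complex varieties: the action of the automorphisms of
`ℂ`, the Hodge decomposition, and for each variety of the class a divisor with hard Lefschetz and
the Hodge-Riemann relations. -/
structure HodgeTheory (V : WeilCohomology.{u, v} ops) extends HodgeData V where
  isAct : ∀ τ : ℂ ≃+* ℂ, IsAct toHodgeData τ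
  isHodgeDec : ∀ X, IsHodgeDec (V.gr X) (bar toHodgeData X) (hodge X)
  isFunctorial : IsHodgeFunctorial toHodgeData
  hasPolarization : ∀ X : 𝒱.Obj, HasPolarization toHodgeData X
  one_ne : ∀ X : 𝒱.Obj, (1 : V.H X) ≠ 0

namespace HodgeTheory

variable {V : WeilCohomology.{u, v} ops} (𝓗 : HodgeTheory V)

lemma act_add (τ : ℂ ≃+* ℂ) {X : 𝒱.Obj} (a b : V.H X) :
    𝓗.act τ X (a + b) = 𝓗.act τ X a + 𝓗.act τ X b := ((𝓗.isAct τ).isSemiAut X).add a b

lemma act_smul (τ : ℂ ≃+* ℂ) {X : 𝒱.Obj} (c : V.K) (a : V.H X) :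
    𝓗.act τ X (c • a) = 𝓗.ι.symm (τ (𝓗.ι c)) • 𝓗.act τ X a :=
  ((𝓗.isAct τ).isSemiAut X).smul c a

lemma act_symm (τ : ℂ ≃+* ℂ) {X : 𝒱.Obj} (a : V.H X) : 𝓗.act τ X (𝓗.act τ.symm X a) = a :=
  ((𝓗.isAct τ).isSemiAut X).symm a

lemma act_mul (τ : ℂ ≃+* ℂ) {X : 𝒱.Obj} (a b : V.H X) :
    𝓗.act τ X (a * b) = 𝓗.act τ X a * 𝓗.act τ X b := ((𝓗.isAct τ).isSemiAut X).mul a b

lemma act_gr (τ : ℂ ≃+* ℂ) {X : 𝒱.Obj} {i : ℕ} {a : V.H X} (ha : a ∈ V.gr X i) :
    𝓗.act τ X a ∈ V.gr X i := ((𝓗.isAct τ).isSemiAut X).gr_mem ha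

lemma act_map (τ : ℂ ≃+* ℂ) {X Y : 𝒱.Obj} (f : X ⟶ Y) (a : V.H Y) :
    𝓗.act τ X (V.map f a) = V.map f (𝓗.act τ Y a) := (𝓗.isAct τ).map f a

lemma act_cl (τ : ℂ ≃+* ℂ) {X : 𝒱.Obj} (z : X.Cycles) : 𝓗.act τ X (V.cl X z) = V.cl X z :=
  (𝓗.isAct τ).cl X z

lemma act_tr (τ : ℂ ≃+* ℂ) {X : 𝒱.Obj} (a : V.H X) :
    𝓗.ι (V.tr X (𝓗.act τ X a)) = τ (𝓗.ι (V.tr X a)) := ((𝓗.isAct τ).isSemiAut X).tr_eq a

lemma isInternal (X : 𝒱.Obj) :
    DirectSum.IsInternal (fun pq : ℕ × ℕ => 𝓗.hodge X pq.1 pq.2) := (𝓗.isHodgeDec X).isInternal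

lemma le_gr {X : 𝒱.Obj} {p q : ℕ} {a : V.H X} (ha : a ∈ 𝓗.hodge X p q) :
    a ∈ V.gr X (p + q) := (𝓗.isHodgeDec X).le_gr ha

lemma mul_mem {X : 𝒱.Obj} {p q p' q' : ℕ} {a b : V.H X} (ha : a ∈ 𝓗.hodge X p q)
    (hb : b ∈ 𝓗.hodge X p' q') : a * b ∈ 𝓗.hodge X (p + p') (q + q') :=
  (𝓗.isHodgeDec X).mul_mem ha hb

lemma map_mem {X Y : 𝒱.Obj} (f : X ⟶ Y) {p q : ℕ} {b : V.H Y} (hb : b ∈ 𝓗.hodge Y p q) :
    V.map f b ∈ 𝓗.hodge X p q := 𝓗.isFunctorial.map_mem f p q b hb

lemma bar_mem {X : 𝒱.Obj} {p q : ℕ} {a : V.H X} (ha : a ∈ 𝓗.hodge X p q) :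
    𝓗.act (starRingAut : RingAut ℂ) X a ∈ 𝓗.hodge X q p := (𝓗.isHodgeDec X).bar_mem ha

lemma cl_mem {X : 𝒱.Obj} {p : ℕ} {z : X.Cycles} (hz : X.IsCyc p z) :
    V.cl X z ∈ 𝓗.hodge X p p := 𝓗.isFunctorial.cl_mem X p z hz

lemma polarized (X : 𝒱.Obj) : ∃ D : X.Cycles, X.IsCyc 1 D ∧ HardLefschetz V X D ∧
    ∀ p q, p + q ≤ X.dim → ∀ a ∈ 𝓗.hodge X p q, a ≠ 0 →
      V.cl X D ^ (X.dim - (p + q) + 1) * a = 0 →
      (0 : ℂ) < Complex.I ^ ((p : ℤ) - q) * (-1) ^ ((p + q) * (p + q - 1) / 2) *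
        𝓗.ι (V.tr X (V.cl X D ^ (X.dim - (p + q)) * (a * 𝓗.act (starRingAut : RingAut ℂ) X a))) :=
  𝓗.hasPolarization X

end HodgeTheory

variable {V : WeilCohomology.{u, v} ops}

/-- The operator `T` on `H(X)` is the conjugate by an automorphism `τ` of `ℂ` of the Hodge
operator. -/
def IsConjHodgeOp (𝓗 : HodgeTheory V) (X : 𝒱.Obj) (T : Module.End V.K (V.H X)) : Prop :=
  T ∈ conjHodgeOps (fun τ => 𝓗.act τ X) (𝓗.hodge X)

/-- The Mumford-Tate group of the Hodge structure on the third cohomology of the threefold `X`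
contains the symplectic group: the Lie algebra generated by the conjugates of the Hodge operator
(the complexified Lie algebra of the special Mumford-Tate group) contains, up to the action on the
other cohomology groups, all operators `s` on `H^3(X)` with `tr (s a · b) + tr (a · s b) = 0`. -/
def SymplecticMT (𝓗 : HodgeTheory V) (X : 𝒱.Obj) : Prop :=
  ContainsSp (V.gr X 3) (V.tr X) (conjHodgeOps (fun τ => 𝓗.act τ X) (𝓗.hodge X))

/-- The Kunneth summand `H^(2n-i)(X) ⊗ H^i(X)` of `H^(2n)(X × X)`, `n = dim X`. -/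
noncomputable def kunnethPart (V : WeilCohomology.{u, v} ops) (X : 𝒱.Obj) (i : ℕ) :
    Submodule V.K (V.H (X.prod X)) :=
  kunnethSummand (V.gr X) X.dim (V.map (fst X X)) (V.map (snd X X)) i

/-- The class `c` is the `i`-th Kunneth component of the class of the diagonal: it lies in the
summand `H^(2n-i)(X) ⊗ H^i(X)`, and its difference from the class of the diagonal lies in the sum
of the other summands. -/
def IsKunnethComponent (V : WeilCohomology.{u, v} ops) (X : 𝒱.Obj) (i : ℕ)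
    (c : V.H (X.prod X)) : Prop :=
  IsComponent (kunnethPart V X) i (V.push (diag X) 1) c

/-- The span over the coefficient field of the classes of the algebraic cycles of codimension `p`
on `X`. -/
def algSpan (V : WeilCohomology.{u, v} ops) (X : 𝒱.Obj) (p : ℕ) : Submodule V.K (V.H X) :=
  Submodule.span V.K {c | ∃ z, X.IsCyc p z ∧ V.cl X z = c}

end Pool.Agent.V8H72.Exo
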