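import Pool.Agent.V8H72.ExoTriple
import Pool.Agent.V8H72.ExoDefs

/-!
# Conjugation of tensor derivations, diagonal operators
-/

open CategoryTheory AlgebraicGeometry Finset TensorProduct

universe u v

namespace Pool.Agent.V8H72.Exo

open Pool.Agent.H914 VarClass Obj WeilCohomology

section Diag

variable {K : Type*} [Field K] {M : Type*} [AddCommGroup M] [Module K M] {ι : Type*}
  [DecidableEq ι] {G : ι → Submodule K M}

/-- The operator acting as `c i` on the `i`-th summand. -/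
noncomputable def dia (h : DirectSum.IsInternal G) (c : ι → K) : Module.End K M :=
  (DirectSum.coeLinearMap G) ∘ₗ
    (DirectSum.lmap (fun i => (c i • LinearMap.id : G i →ₗ[K] G i))) ∘ₗ
      (LinearEquiv.ofBijective (DirectSum.coeLinearMap G)
        (show Function.Bijective (DirectSum.coeLinearMap G) from h)).symm.toLinearMap

lemma dia_apply (h : DirectSum.IsInternal G) (c : ι → K) {i : ι} {a : M} (ha : a ∈ G i) :
    dia h c a = c i • a := by
  have h1 : (LinearEquiv.ofBijective (DirectSum.coeLinearMap G)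
      (show Function.Bijective (DirectSum.coeLinearMap G) from h)).symm a =
      DirectSum.lof K ι (fun i => G i) i ⟨a, ha⟩ := by
    rw [LinearEquiv.symm_apply_eq]
    simp
  rw [dia, LinearMap.comp_apply, LinearMap.comp_apply, LinearEquiv.coe_coe, h1]
  simp

lemma dia_induction (h : DirectSum.IsInternal G) {p : M → Prop} (h0 : p 0)
    (hadd : ∀ a b, p a → p b → p (a + b)) (hp : ∀ i, ∀ a ∈ G i, p a) (a : M) : p a := by
  have ha : a ∈ iSup G := by rw [h.submodule_iSup_eq_top]; trivial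
  exact Submodule.iSup_induction G (motive := p) ha (fun i a ha => hp i a ha) h0 hadd

end Diag

variable {k : Type u} [Field k] {𝒱 : VarClass k} {ops : CycleOps 𝒱}

/-- A family of additive and multiplicative maps which are compatible with all the structure, but
possibly only semilinear. -/
structure NiceMap (V : WeilCohomology.{u, v} ops) (φ : ∀ Y : 𝒱.Obj, V.H Y → V.H Y) : Prop where
  add : ∀ {Y : 𝒱.Obj} (a b : V.H Y), φ Y (a + b) = φ Y a + φ Y b
  mul : ∀ {Y : 𝒱.Obj} (a b : V.H Y), φ Y (a * b) = φ Y a * φ Y b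
  gr_mem : ∀ {Y : 𝒱.Obj} {i : ℕ} {a : V.H Y}, a ∈ V.gr Y i → φ Y a ∈ V.gr Y i
  map : ∀ {X Y : 𝒱.Obj} (f : X ⟶ Y) (a : V.H Y), φ X (V.map f a) = V.map f (φ Y a)
  cl : ∀ {Y : 𝒱.Obj} {p : ℕ} {c : Y.Cycles}, Y.IsCyc p c → φ Y (V.cl Y c) = V.cl Y c
  tr : ∀ {Y : 𝒱.Obj} (a : V.H Y), V.tr Y a = 0 → V.tr Y (φ Y a) = 0

namespace NiceMap

variable {V : WeilCohomology.{u, v} ops} {φ ψ : ∀ Y : 𝒱.Obj, V.H Y → V.H Y}

lemma zero (h : NiceMap V φ) (Y : 𝒱.Obj) : φ Y 0 = 0 := by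
  have h1 := h.add (0 : V.H Y) 0
  rw [add_zero] at h1
  exact left_eq_add.1 h1

lemma comp (h : NiceMap V φ) (h' : NiceMap V ψ) : NiceMap V (fun Y a => φ Y (ψ Y a)) where
  add a b := by beta_reduce; rw [h'.add, h.add]
  mul a b := by beta_reduce; rw [h'.mul, h.mul]
  gr_mem ha := h.gr_mem (h'.gr_mem ha)
  map f a := by beta_reduce; rw [h'.map, h.map]
  cl hc := by beta_reduce; rw [h'.cl hc, h.cl hc]
  tr a ha := h.tr _ (h'.tr a ha)

/-- The conjugate of a tensor derivation. -/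
lemma conj (h : NiceMap V φ) (h' : NiceMap V ψ) (hinv : ∀ (Y : 𝒱.Obj) (a : V.H Y),
    φ Y (ψ Y a) = a) {z z' : Fam V} (hz : IsTDer V z)
    (hz' : ∀ (Y : 𝒱.Obj) (a : V.H Y), z' Y a = φ Y (z Y (ψ Y a))) : IsTDer V z' where
  leib a b := by
    rw [hz', hz', hz', h'.mul, hz.leib, h.add, h.mul, h.mul, hinv, hinv]
  gr_mem ha := by
    rw [hz']
    exact h.gr_mem (hz.gr_mem (h'.gr_mem ha))
  map f a := by
    rw [hz', hz', h'.map, hz.map, h.map]
  cl hc := by
    rw [hz', h'.cl hc, hz.cl hc, h.zero]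
  tr a := by
    rw [hz']
    exact h.tr _ (hz.tr _)

end NiceMap

section Gal

variable {V : WeilCohomology.{u, v} ops} (𝓗 : HodgeTheory V) (τ : ℂ ≃+* ℂ)

/-- The automorphism `τ` as a map of the coefficient field. -/
def tauK (c : V.K) : V.K := 𝓗.ι.symm (τ (𝓗.ι c))

lemma gal_smul {X : 𝒱.Obj} (c : V.K) (a : V.H X) :
    𝓗.act τ X (c • a) = tauK 𝓗 τ c • 𝓗.act τ X a :=
  𝓗.act_smul τ c a

lemma gal_symm' {X : 𝒱.Obj} (a : V.H X) : 𝓗.act τ.symm X (𝓗.act τ X a) = a :=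
  𝓗.act_symm τ.symm a

lemma tauK_add (a b : V.K) : tauK 𝓗 τ (a + b) = tauK 𝓗 τ a + tauK 𝓗 τ b := by
  simp only [tauK, map_add]

lemma tauK_mul (a b : V.K) : tauK 𝓗 τ (a * b) = tauK 𝓗 τ a * tauK 𝓗 τ b := by
  simp only [tauK, map_mul]

lemma tauK_zero : tauK 𝓗 τ 0 = 0 := by
  simp only [tauK, map_zero]

lemma gal_tr {X : 𝒱.Obj} (a : V.H X) :
    V.tr X (𝓗.act τ X a) = tauK 𝓗 τ (V.tr X a) := by
  rw [tauK, ← 𝓗.act_tr, RingEquiv.symm_apply_apply]

lemma gal_nice : NiceMap V (𝓗.act τ) where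
  add a b := 𝓗.act_add τ a b
  mul a b := 𝓗.act_mul τ a b
  gr_mem ha := 𝓗.act_gr τ ha
  map {X Y} f a := 𝓗.act_map τ f a
  cl {Y p c} _ := 𝓗.act_cl τ c
  tr a ha := by
    rw [gal_tr, ha, tauK_zero]

end Gal

end Pool.Agent.V8H72.Exo
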