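import Pool.Agent.H914R2.Sl2Rep

/-!
# Finite-dimensional representations of `sl(2)`: the weights are integers and the semisimple
element is diagonalisable
-/

open Finset

namespace Pool.Agent.V8H72.Exo

open Pool.Agent.H914

section Ring

variable {A : Type*} [Ring A] {h e f : A}

lemma sl2_swap (t : Sl2 h e f) : Sl2 (-h) f e where
  ef := by rw [← t.ef]; noncomm_ring
  he := by
    have := t.hf
    calc -h * f - f * -h = -(h * f - f * h) := by noncomm_ring
      _ = _ := by rw [this]; noncomm_ring
  hf := by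
    have := t.he
    calc -h * e - e * -h = -(h * e - e * h) := by noncomm_ring
      _ = _ := by rw [this]

/-- The Casimir element. -/
def cas (h e f : A) : A := h * h - 2 * h + 4 * (e * f)

lemma cas_comm_h (t : Sl2 h e f) : cas h e f * h = h * cas h e f := by
  have h1 : e * f * h = h * (e * f) := by
    have h2 := t.he
    have h3 := t.hf
    have h4 : f * h = h * f + 2 * f := by
      calc f * h = h * f - (h * f - f * h) := by noncomm_ring
        _ = _ := by rw [h3]; noncomm_ring
    have h5 : e * h = h * e - 2 * e := by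
      calc e * h = h * e - (h * e - e * h) := by noncomm_ring
        _ = _ := by rw [h2]
    calc e * f * h = e * (f * h) := by noncomm_ring
      _ = e * (h * f + 2 * f) := by rw [h4]
      _ = (e * h) * f + 2 * (e * f) := by noncomm_ring
      _ = (h * e - 2 * e) * f + 2 * (e * f) := by rw [h5]
      _ = h * (e * f) := by noncomm_ring
  unfold cas
  calc (h * h - 2 * h + 4 * (e * f)) * h = h * h * h - 2 * h * h + 4 * (e * f * h) := by
        noncomm_ring
    _ = h * h * h - 2 * h * h + 4 * (h * (e * f)) := by rw [h1]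
    _ = _ := by noncomm_ring

lemma cas_comm_f (t : Sl2 h e f) : cas h e f * f = f * cas h e f := by
  have h3 := t.hf
  have h4 : f * h = h * f + 2 * f := by
    calc f * h = h * f - (h * f - f * h) := by noncomm_ring
      _ = _ := by rw [h3]; noncomm_ring
  have h6 : f * e = e * f - h := by
    calc f * e = e * f - (e * f - f * e) := by noncomm_ring
      _ = _ := by rw [t.ef]
  unfold cas
  calc (h * h - 2 * h + 4 * (e * f)) * f = h * (h * f) - 2 * (h * f) + 4 * (e * f) * f := by
        noncomm_ring
    _ = (h * f + 2 * f) * h - 2 * (h * f + 2 * f) + 4 * ((e * f - h) * f) := by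
        have : (h * f + 2 * f) * h = h * (h * f) + 4 * (h * f) + 4 * f := by
          calc (h * f + 2 * f) * h = h * (f * h) + 2 * (f * h) := by noncomm_ring
            _ = h * (h * f + 2 * f) + 2 * (h * f + 2 * f) := by rw [h4]
            _ = _ := by noncomm_ring
        rw [this]
        noncomm_ring
    _ = (f * h) * h - 2 * (f * h) + 4 * ((f * e) * f) := by rw [h4, h6]
    _ = _ := by noncomm_ring

end Ring

section

variable {K : Type*} [Field K] {V : Type*} [AddCommGroup V] [Module K V]
  {h e f : Module.End K V}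

lemma two_apply (x : V) : (2 : Module.End K V) x = (2 : K) • x := by
  rw [ofNat_smul_eq_nsmul]; rfl

lemma four_apply (x : V) : (4 : Module.End K V) x = (4 : K) • x := by
  rw [ofNat_smul_eq_nsmul]; rfl

/-- The product of the operators `h + i` for `i < k`. -/
def qop (h : Module.End K V) : ℕ → Module.End K V
  | 0 => 1
  | k + 1 => qop h k * (h + algebraMap K (Module.End K V) k)

lemma shift_apply (h : Module.End K V) (c : K) (x : V) :
    (h + algebraMap K (Module.End K V) c) x = h x + c • x := by
  rw [LinearMap.add_apply, Module.algebraMap_end_apply]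

lemma h_f_pow (t : Sl2 h e f) (r : ℕ) (x : V) :
    h ((f ^ r) x) = (f ^ r) (h x - (2 * r : K) • x) := by
  induction r generalizing x with
  | zero => simp
  | succ r ih =>
    rw [pow_succ, Module.End.mul_apply, Module.End.mul_apply, ih]
    congr 1
    have h1 := congrArg (fun F => F x) t.hf
    simp only [LinearMap.sub_apply, Module.End.mul_apply, LinearMap.neg_apply, two_apply] at h1
    rw [sub_eq_iff_eq_add] at h1
    rw [h1, map_sub, map_smul]
    push_cast
    module

lemma f_pow_e_pow_ker (t : Sl2 h e f) (k : ℕ) (v : V) (hv : f v = 0) :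
    (f ^ k) ((e ^ k) v) = ((-1) ^ k * (k.factorial : K)) • qop h k v := by
  induction k generalizing v with
  | zero => simp [qop]
  | succ k ih =>
    have h1 := congrArg (fun F => F v) (t.e_pow_f k)
    simp only [Module.End.mul_apply, LinearMap.add_apply, LinearMap.smul_apply,
      hv, map_zero] at h1
    have h2 : (h - (k : Module.End K V)) ((e ^ k) v) =
        (e ^ k) ((h + algebraMap K (Module.End K V) k) v) := by
      have h3 := congrArg (fun F => F v) (t.e_pow_h k)
      have h5 : ∀ y : V, (k : Module.End K V) y = (k : K) • y := by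
        intro y
        rw [Module.End.natCast_apply, ← Nat.cast_smul_eq_nsmul K]
      simp only [Module.End.mul_apply, LinearMap.sub_apply, two_apply, h5] at h3
      rw [shift_apply, map_add, map_smul, h3, LinearMap.sub_apply, h5]
      module
    rw [h2] at h1
    have hcomm : f ((h + algebraMap K (Module.End K V) k) v) = 0 := by
      have h6 := congrArg (fun F => F v) t.hf
      simp only [LinearMap.sub_apply, Module.End.mul_apply, LinearMap.neg_apply, hv,
        map_zero, neg_zero, zero_sub, neg_eq_zero] at h6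
      rw [shift_apply, map_add, map_smul, hv, smul_zero, h6, add_zero]
    have h7 : f ((e ^ (k + 1)) v) = (-(k + 1 : K)) • (e ^ k)
        ((h + algebraMap K (Module.End K V) k) v) := by
      rw [eq_comm, add_eq_zero_iff_eq_neg] at h1
      rw [h1, ← Nat.cast_smul_eq_nsmul K, ← neg_smul]
      push_cast
      rfl
    rw [pow_succ f, Module.End.mul_apply, h7, map_smul, ih _ hcomm, smul_smul, qop,
      Module.End.mul_apply, Nat.factorial_succ]
    congr 1
    push_cast
    ring

lemma cas_ker (v : V) (hv : f v = 0) (j : ℕ) (hj : h v = -(j : K) • v) :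
    cas h e f v = ((j : K) * j + 2 * j) • v := by
  unfold cas
  simp only [LinearMap.add_apply, LinearMap.sub_apply, Module.End.mul_apply, hv, map_zero,
    two_apply, hj, map_smul, smul_smul]
  module

lemma ker_case [CharZero K] [Module.Finite K V] (t : Sl2 h e f) (S : Submodule K V)
    (hSh : ∀ x ∈ S, h x ∈ S) (hSf : ∀ x ∈ S, f x = 0) (c : K)
    (hc : ∀ x ∈ S, x ≠ 0 → ∀ j : ℕ, h x = -(j : K) • x → (j : K) * j + 2 * j = c) :
    ∃ m : ℕ, ∀ x ∈ S, h x = -(m : K) • x := by
  have hstab : ∀ (i : ℕ), ∀ x ∈ S, (h + algebraMap K (Module.End K V) i) x ∈ S := by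
    intro i x hx
    rw [shift_apply]
    exact S.add_mem (hSh x hx) (S.smul_mem _ hx)
  -- the power of `e` which vanishes
  obtain ⟨N, hN⟩ := t.nil_e
  have hq : ∀ x ∈ S, qop h N x = 0 := by
    intro x hx
    have h1 := f_pow_e_pow_ker t N x (hSf x hx)
    rw [hN, LinearMap.zero_apply, map_zero, eq_comm, smul_eq_zero] at h1
    rcases h1 with h2 | h2
    · exfalso
      have h3 : ((-1 : K)) ^ N ≠ 0 := pow_ne_zero _ (neg_ne_zero.2 one_ne_zero)
      have h4 : (N.factorial : K) ≠ 0 := by exact_mod_cast N.factorial_ne_zero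
      exact mul_ne_zero h3 h4 h2
    · exact h2
  by_cases hm : ∃ m : ℕ, (m : K) * m + 2 * m = c
  · obtain ⟨m, hm⟩ := hm
    refine ⟨m, ?_⟩
    have hinj : ∀ i : ℕ, i ≠ m → ∀ x ∈ S, (h + algebraMap K (Module.End K V) i) x = 0 → x = 0 := by
      intro i him x hx h0
      by_contra hne
      rw [shift_apply, add_eq_zero_iff_eq_neg, ← neg_smul] at h0
      have h1 := hc x hx hne i h0
      rw [← hm] at h1
      have h2 : i * i + 2 * i = m * m + 2 * m := by exact_mod_cast h1
      apply him
      nlinarith [h2, sq_nonneg ((i : ℤ) - m)]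
    have hcomm : ∀ (k : ℕ) (x : V), (h + algebraMap K (Module.End K V) (m : K))
        ((h + algebraMap K (Module.End K V) (k : K)) x) =
        (h + algebraMap K (Module.End K V) (k : K))
          ((h + algebraMap K (Module.End K V) (m : K)) x) := by
      intro k x
      simp only [shift_apply, map_add, map_smul, smul_add, smul_smul, mul_comm]
      abel
    have hA : ∀ k ≤ m, ∀ x ∈ S, qop h k x = 0 → x = 0 := by
      intro k
      induction k with
      | zero => intro _ x _ hx; simpa [qop] using hx
      | succ k ih =>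
        intro hk x hx h0
        rw [qop, Module.End.mul_apply] at h0
        exact hinj k (by omega) x hx (ih (by omega) _ (hstab k x hx) h0)
    have hB : ∀ k, ∀ x ∈ S, qop h k x = 0 →
        (h + algebraMap K (Module.End K V) (m : K)) x = 0 := by
      intro k
      induction k with
      | zero =>
        intro x _ hx
        have : x = 0 := by simpa [qop] using hx
        rw [this, map_zero]
      | succ k ih =>
        intro x hx h0
        rw [qop, Module.End.mul_apply] at h0
        by_cases hkm : k = m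
        · subst hkm
          exact hA k le_rfl _ (hstab k x hx) h0
        · have h1 := ih _ (hstab k x hx) h0
          rw [hcomm] at h1
          exact hinj k hkm _ (hstab m x hx) h1
    intro x hx
    have h1 := hB N x hx (hq x hx)
    rw [shift_apply, add_eq_zero_iff_eq_neg, ← neg_smul] at h1
    exact h1
  · refine ⟨0, ?_⟩
    have hA : ∀ k, ∀ x ∈ S, qop h k x = 0 → x = 0 := by
      intro k
      induction k with
      | zero => intro x _ hx; simpa [qop] using hx
      | succ k ih =>
        intro x hx h0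
        rw [qop, Module.End.mul_apply] at h0
        have h1 := ih _ (hstab k x hx) h0
        by_contra hne
        rw [shift_apply, add_eq_zero_iff_eq_neg, ← neg_smul] at h1
        exact hm ⟨k, hc x hx hne k h1⟩
    intro x hx
    rw [hA N x hx (hq x hx), map_zero, smul_zero]

lemma solve (s : ℕ) (a : ℕ → K) (b : K) (hb : ∀ i < s, a i ≠ b) {w : V}
    (hw : w ∈ ⨆ i ∈ range s, h.eigenspace (a i)) :
    ∃ u ∈ ⨆ i ∈ range s, h.eigenspace (a i), h u - b • u = w := by
  have h1 : (⨆ i ∈ range s, h.eigenspace (a i)) ≤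
      (⨆ i ∈ range s, h.eigenspace (a i)).map (h - b • LinearMap.id) := by
    refine iSup₂_le fun i hi w hw => ?_
    have hne : a i - b ≠ 0 := sub_ne_zero.2 (hb i (Finset.mem_range.1 hi))
    refine ⟨(a i - b)⁻¹ • w, ?_, ?_⟩
    · exact Submodule.smul_mem _ _ (Submodule.mem_iSup_of_mem i (Submodule.mem_iSup_of_mem hi hw))
    · rw [Module.End.mem_eigenspace_iff] at hw
      rw [LinearMap.sub_apply, LinearMap.smul_apply, LinearMap.id_apply, map_smul, hw, smul_smul,
        smul_smul, ← sub_smul]
      have : (a i - b)⁻¹ * a i - b * (a i - b)⁻¹ = 1 := by field_simp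
      rw [this, one_smul]
  obtain ⟨u, hu, hu'⟩ := h1 hw
  exact ⟨u, hu, by simpa using hu'⟩

/-- **Diagonalisability.** In a finite-dimensional representation of `sl(2)`, the space is spanned
by the eigenvectors of `h` with integral eigenvalues. -/
theorem h_diag [CharZero K] [IsAlgClosed K] [Module.Finite K V] (t : Sl2 h e f) (v : V) :
    v ∈ ⨆ z : ℤ, h.eigenspace (z : K) := by
  have htop := Module.End.iSup_maxGenEigenspace_eq_top (cas h e f)
  suffices hs : ∀ c, (cas h e f).maxGenEigenspace c ≤ ⨆ z : ℤ, h.eigenspace (z : K) by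
    have : (⊤ : Submodule K V) ≤ ⨆ z : ℤ, h.eigenspace (z : K) := by
      rw [← htop]; exact iSup_le hs
    exact this trivial
  intro c
  set M := (cas h e f).maxGenEigenspace c with hM
  have hMh : ∀ x ∈ M, h x ∈ M := fun x hx =>
    Module.End.mapsTo_maxGenEigenspace_of_comm (show Commute (cas h e f) h from cas_comm_h t) c hx
  have hMf : ∀ x ∈ M, f x ∈ M := fun x hx =>
    Module.End.mapsTo_maxGenEigenspace_of_comm (show Commute (cas h e f) f from cas_comm_f t) c hx
  have hfh : ∀ x, f x = 0 → f (h x) = 0 := by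
    intro x hx
    have h6 := congrArg (fun F => F x) t.hf
    simpa [hx] using h6
  obtain ⟨m, hm⟩ := ker_case t (M ⊓ LinearMap.ker f)
    (fun x hx => ⟨hMh x hx.1, hfh x hx.2⟩) (fun x hx => hx.2) c (by
      intro x hx hne j hj
      have h1 := cas_ker (e := e) x hx.2 j hj
      obtain ⟨k, hk⟩ := Module.End.mem_maxGenEigenspace _ _ _ |>.1 hx.1
      have h2 : ∀ k : ℕ, ((cas h e f - c • 1) ^ k) x = ((j : K) * j + 2 * j - c) ^ k • x := by
        intro k
        induction k with
        | zero => simp
        | succ k ih =>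
          rw [pow_succ', Module.End.mul_apply, ih, map_smul, LinearMap.sub_apply, h1,
            LinearMap.smul_apply, Module.End.one_apply, ← sub_smul, smul_smul, ← pow_succ]
      rw [h2 k, smul_eq_zero] at hk
      rcases hk with hk | hk
      · exact sub_eq_zero.1 (eq_zero_of_pow_eq_zero hk)
      · exact absurd hk hne)
  have key : ∀ r : ℕ, ∀ x ∈ M, (f ^ r) x = 0 →
      x ∈ ⨆ i ∈ range r, h.eigenspace (2 * (i : K) - m) := by
    intro r
    induction r with
    | zero =>
      intro x _ hx
      have : x = 0 := by simpa using hx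
      rw [this]; exact Submodule.zero_mem _
    | succ r ih =>
      intro x hx h0
      have hy1 : (f ^ r) x ∈ M ⊓ LinearMap.ker f := by
        refine ⟨?_, ?_⟩
        · clear h0 ih
          induction r with
          | zero => simpa using hx
          | succ r ihr => rw [pow_succ', Module.End.mul_apply]; exact hMf _ ihr
        · change f ((f ^ r) x) = 0
          rw [← Module.End.mul_apply, ← pow_succ']; exact h0
      have h1 := hm _ hy1
      rw [h_f_pow t] at h1
      have h2 : (f ^ r) (h x - (2 * (r : K) - m) • x) = 0 := by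
        have h3 : h x - (2 * (r : K) - m) • x = (h x - (2 * r : K) • x) + (m : K) • x := by module
        rw [h3, map_add, h1, map_smul]
        module
      have h3 := ih _ (M.sub_mem (hMh x hx) (M.smul_mem _ hx)) h2
      obtain ⟨u, hu, hu'⟩ := solve r (fun i => 2 * (i : K) - m) (2 * (r : K) - m) (by
        intro i hi h0
        have h4 : (i : K) = r := by
          have h5 : (2 : K) * i = 2 * r := by linear_combination h0
          exact mul_left_cancel₀ two_ne_zero h5
        have h5 : i = r := by exact_mod_cast h4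
        omega) h3
      have hle : (⨆ i ∈ range r, h.eigenspace (2 * (i : K) - m)) ≤
          ⨆ i ∈ range (r + 1), h.eigenspace (2 * (i : K) - m) :=
        biSup_mono (fun i hi => Finset.mem_range.2 (by have := Finset.mem_range.1 hi; omega))
      have hxu : x = u + (x - u) := by abel
      rw [hxu]
      apply Submodule.add_mem _ (hle hu)
      refine Submodule.mem_iSup_of_mem r (Submodule.mem_iSup_of_mem (by simp) ?_)
      rw [Module.End.mem_eigenspace_iff, map_sub]
      have h6 : h u = h x - (2 * (r : K) - m) • x + (2 * (r : K) - m) • u := by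
        rw [← hu']; abel
      rw [h6]
      module
  intro x hx
  obtain ⟨N, hN⟩ := t.nil_f
  have h1 := key N x hx (by rw [hN]; rfl)
  have h2 : (⨆ i ∈ range N, h.eigenspace (2 * (i : K) - m)) ≤ ⨆ z : ℤ, h.eigenspace (z : K) := by
    refine iSup₂_le fun i _ => ?_
    have : (2 * (i : K) - m) = ((2 * (i : ℤ) - m : ℤ) : K) := by push_cast; rfl
    rw [this]
    exact le_iSup (fun z : ℤ => h.eigenspace (z : K)) _
  exact h2 h1

section Bound

variable {D : Module.End K V}

lemma D_f_pow (hDf : D * f - f * D = -((6 : K) • f)) (r : ℕ) (x : V) :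
    D ((f ^ r) x) = (f ^ r) (D x - (6 * r : K) • x) := by
  induction r generalizing x with
  | zero => simp
  | succ r ih =>
    rw [pow_succ, Module.End.mul_apply, Module.End.mul_apply, ih]
    congr 1
    have h1 := congrArg (fun F => F x) hDf
    simp only [LinearMap.sub_apply, Module.End.mul_apply, LinearMap.neg_apply,
      LinearMap.smul_apply] at h1
    rw [sub_eq_iff_eq_add] at h1
    rw [h1, map_sub, map_smul]
    push_cast
    module

lemma D_e_pow (hDe : D * e - e * D = (6 : K) • e) (r : ℕ) (x : V) :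
    D ((e ^ r) x) = (e ^ r) (D x + (6 * r : K) • x) := by
  induction r generalizing x with
  | zero => simp
  | succ r ih =>
    rw [pow_succ, Module.End.mul_apply, Module.End.mul_apply, ih]
    congr 1
    have h1 := congrArg (fun F => F x) hDe
    simp only [LinearMap.sub_apply, Module.End.mul_apply,
      LinearMap.smul_apply] at h1
    rw [sub_eq_iff_eq_add] at h1
    rw [h1, map_add, map_smul]
    push_cast
    module

lemma pow_mem {e : Module.End K V} {G : Submodule K V} (hG : ∀ x ∈ G, e x ∈ G) (r : ℕ) {x : V}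
    (hx : x ∈ G) : (e ^ r) x ∈ G := by
  induction r with
  | zero => simpa using hx
  | succ r ih => rw [pow_succ', Module.End.mul_apply]; exact hG _ ih

lemma lower_bound [CharZero K] [Module.Finite K V] (t : Sl2 h e f)
    (hDe : D * e - e * D = (6 : K) • e) (hDf : D * f - f * D = -((6 : K) • f))
    (G : Submodule K V) (hGe : ∀ x ∈ G, e x ∈ G) (hGf : ∀ x ∈ G, f x ∈ G) (B : ℤ)
    (hB : ∀ x ∈ G, x ≠ 0 → ∀ d : K, D x = d • x → ∃ m : ℤ, d = m ∧ |m| ≤ B)
    {u : V} (hu : u ∈ G) (hu0 : u ≠ 0) {d w : K} (hd : D u = d • u) (hw : h u = w • u) :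
    ∃ z : ℤ, w = z ∧ -B ≤ 3 * z := by
  obtain ⟨N, hN⟩ := t.nil_f
  have hex : ∃ k, (f ^ k) u = 0 := ⟨N, by rw [hN]; rfl⟩
  classical
  obtain ⟨s, hs0, hs1⟩ : ∃ s, (f ^ s) u ≠ 0 ∧ (f ^ (s + 1)) u = 0 := by
    have hk0 : (f ^ (Nat.find hex)) u = 0 := Nat.find_spec hex
    have hk1 : Nat.find hex ≠ 0 := by
      intro h0
      rw [h0] at hk0
      exact hu0 (by simpa using hk0)
    obtain ⟨m, hm⟩ := Nat.exists_eq_succ_of_ne_zero hk1
    refine ⟨m, Nat.find_min hex (by omega), ?_⟩
    rw [← Nat.succ_eq_add_one, ← hm]; exact hk0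
  set y := (f ^ s) u with hy
  have hyG : y ∈ G := pow_mem hGf s hu
  have hfy : f y = 0 := by rw [hy, ← Module.End.mul_apply, ← pow_succ']; exact hs1
  have hhy : h y = -(2 * s - w : K) • y := by
    rw [hy, h_f_pow t, hw, ← sub_smul, map_smul]
    congr 1; ring
  have hDy : D y = (d - 6 * s : K) • y := by
    rw [hy, D_f_pow hDf, hd, ← sub_smul, map_smul]
  obtain ⟨m, hm, hne, -⟩ := Sl2.exists_nat t hfy hhy hs0
  have hDz : D ((e ^ m) y) = (d - 6 * s + 6 * m : K) • (e ^ m) y := by
    rw [D_e_pow hDe, hDy, ← add_smul, map_smul]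
  obtain ⟨a, ha, ha'⟩ := hB y hyG hs0 _ hDy
  obtain ⟨b, hb, hb'⟩ := hB _ (pow_mem hGe m hyG) hne _ hDz
  have hab : a + 6 * m = b := by
    have : ((a + 6 * m : ℤ) : K) = (b : K) := by
      push_cast
      rw [← ha, ← hb]
    exact_mod_cast this
  refine ⟨2 * s - m, ?_, ?_⟩
  · push_cast
    rw [← hm]; ring
  · have h1 := abs_le.1 ha'
    have h2 := abs_le.1 hb'
    omega

lemma comm_h_of (t : Sl2 h e f) (hDe : D * e - e * D = (6 : K) • e)
    (hDf : D * f - f * D = -((6 : K) • f)) : D * h = h * D := by
  rw [← t.ef]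
  have h1 : D * e = e * D + (6 : K) • e := by rw [← hDe]; abel
  have h2 : D * f = f * D - (6 : K) • f := by
    have : D * f = f * D + (D * f - f * D) := by abel
    rw [this, hDf]; abel
  calc D * (e * f - f * e) = (D * e) * f - (D * f) * e := by noncomm_ring
    _ = (e * D + (6 : K) • e) * f - (f * D - (6 : K) • f) * e := by rw [h1, h2]
    _ = e * (D * f) - f * (D * e) + (6 : K) • (e * f) + (6 : K) • (f * e) := by
        simp only [add_mul, sub_mul, smul_mul_assoc, mul_assoc]; abel
    _ = e * (f * D - (6 : K) • f) - f * (e * D + (6 : K) • e) + (6 : K) • (e * f) +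
          (6 : K) • (f * e) := by rw [h1, h2]
    _ = _ := by
        simp only [mul_sub, mul_add, mul_smul_comm, sub_mul, mul_assoc]
        abel

/-- **The bound for the weights.** -/
theorem weight_bound [CharZero K] [IsAlgClosed K] [Module.Finite K V] (t : Sl2 h e f)
    (hDe : D * e - e * D = (6 : K) • e) (hDf : D * f - f * D = -((6 : K) • f))
    (G : Submodule K V) (hGe : ∀ x ∈ G, e x ∈ G) (hGf : ∀ x ∈ G, f x ∈ G)
    (hGD : ∀ x ∈ G, D x ∈ G) (B : ℤ)
    (hB : ∀ x ∈ G, x ≠ 0 → ∀ d : K, D x = d • x → ∃ m : ℤ, d = m ∧ |m| ≤ B)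
    {u : V} (hu : u ∈ G) (hu0 : u ≠ 0) {w : K} (hw : h u = w • u) :
    ∃ z : ℤ, w = z ∧ |3 * z| ≤ B := by
  -- a joint eigenvector
  obtain ⟨v, d, hv, hv0, hwv, hdv⟩ : ∃ v, ∃ d : K, v ∈ G ∧ v ≠ 0 ∧ h v = w • v ∧ D v = d • v := by
    set U : Submodule K V := G ⊓ h.eigenspace w with hU
    have hUD : ∀ x ∈ U, D x ∈ U := by
      intro x hx
      refine ⟨hGD x hx.1, ?_⟩
      have h1 := Module.End.mem_eigenspace_iff.1 hx.2
      change D x ∈ h.eigenspace w
      rw [Module.End.mem_eigenspace_iff, ← Module.End.mul_apply, ← comm_h_of t hDe hDf,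
        Module.End.mul_apply, h1, map_smul]
    have huU : u ∈ U := ⟨hu, Module.End.mem_eigenspace_iff.2 hw⟩
    have : Nontrivial U := ⟨⟨u, huU⟩, 0, fun h0 => hu0 (congrArg Subtype.val h0)⟩
    obtain ⟨d, hd⟩ := Module.End.exists_eigenvalue (D.restrict hUD)
    obtain ⟨v, hv⟩ := hd.exists_hasEigenvector
    have h1 := hv.apply_eq_smul
    refine ⟨v, d, v.2.1, fun h0 => hv.2 (Subtype.ext h0), Module.End.mem_eigenspace_iff.1 v.2.2,
      ?_⟩
    exact congrArg Subtype.val h1
  obtain ⟨z, hz, hz'⟩ := lower_bound t hDe hDf G hGe hGf B hB hv hv0 hdv hwv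
  obtain ⟨z', hz1, hz2⟩ := lower_bound (sl2_swap t) (D := -D)
    (by rw [neg_mul, mul_neg, ← neg_sub', hDf, neg_neg])
    (by rw [neg_mul, mul_neg, ← neg_sub', hDe]) G hGf hGe B (by
      intro x hx hx0 d hd
      rw [LinearMap.neg_apply, neg_eq_iff_eq_neg, ← neg_smul] at hd
      obtain ⟨m, hm, hm'⟩ := hB x hx hx0 _ hd
      exact ⟨-m, by push_cast; rw [← hm, neg_neg], by rwa [abs_neg]⟩) hv hv0
    (d := -d) (w := -w) (by rw [LinearMap.neg_apply, hdv, neg_smul])
    (by rw [LinearMap.neg_apply, hwv, neg_smul])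
  have hzz : z' = -z := by
    have : (z' : K) = ((-z : ℤ) : K) := by push_cast; rw [← hz1, hz]
    exact_mod_cast this
  refine ⟨z, hz, abs_le.2 ⟨hz', ?_⟩⟩
  omega

end Bound

end

end Pool.Agent.V8H72.Exo
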