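import Pool.Agent.H914R2.WeilBasic
import Pool.Agent.V8H72.ExoSl2

/-!
# Tensor derivations of a Weil cohomology theory
-/

open CategoryTheory AlgebraicGeometry Finset

universe u v

namespace Pool.Agent.V8H72.Exo

open Pool.Agent.H914 VarClass Obj WeilCohomology

variable {k : Type u} [Field k] {𝒱 : VarClass k} {ops : CycleOps 𝒱}

/-- A family of operators, one on the cohomology of each variety of the class. -/
abbrev Fam (V : WeilCohomology.{u, v} ops) : Type _ := ∀ Y : 𝒱.Obj, Module.End V.K (V.H Y)

/-- A tensor derivation of the Weil cohomology theory `V`: a family of operators which are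
derivations of the cup product, preserve the degrees, commute with all pull-backs, and kill the
classes of algebraic cycles and the orientations. -/
structure IsTDer (V : WeilCohomology.{u, v} ops) (z : Fam V) : Prop where
  leib : ∀ {Y : 𝒱.Obj} (a b : V.H Y), z Y (a * b) = z Y a * b + a * z Y b
  gr_mem : ∀ {Y : 𝒱.Obj} {i : ℕ} {a : V.H Y}, a ∈ V.gr Y i → z Y a ∈ V.gr Y i
  map : ∀ {X Y : 𝒱.Obj} (f : X ⟶ Y) (a : V.H Y), z X (V.map f a) = V.map f (z Y a)
  cl : ∀ {Y : 𝒱.Obj} {p : ℕ} {c : Y.Cycles}, Y.IsCyc p c → z Y (V.cl Y c) = 0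
  tr : ∀ {Y : 𝒱.Obj} (a : V.H Y), V.tr Y (z Y a) = 0

namespace IsTDer

variable {V : WeilCohomology.{u, v} ops} {z w : Fam V}

lemma zero : IsTDer V (0 : Fam V) where
  leib a b := by simp
  gr_mem _ := Submodule.zero_mem _
  map f a := by simp
  cl _ := rfl
  tr a := by simp

lemma add (hz : IsTDer V z) (hw : IsTDer V w) : IsTDer V (z + w) where
  leib a b := by
    simp only [Pi.add_apply, LinearMap.add_apply, hz.leib, hw.leib, add_mul, mul_add]
    abel
  gr_mem ha := Submodule.add_mem _ (hz.gr_mem ha) (hw.gr_mem ha)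
  map f a := by
    simp only [Pi.add_apply, LinearMap.add_apply, hz.map, hw.map, map_add]
  cl hc := by
    simp only [Pi.add_apply, LinearMap.add_apply, hz.cl hc, hw.cl hc, add_zero]
  tr a := by
    simp only [Pi.add_apply, LinearMap.add_apply, map_add, hz.tr, hw.tr, add_zero]

lemma smul (c : V.K) (hz : IsTDer V z) : IsTDer V (c • z) where
  leib a b := by
    simp only [Pi.smul_apply, LinearMap.smul_apply, hz.leib, smul_add, smul_mul_assoc,
      mul_smul_comm]
  gr_mem ha := Submodule.smul_mem _ _ (hz.gr_mem ha)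
  map f a := by
    simp only [Pi.smul_apply, LinearMap.smul_apply, hz.map, map_smul]
  cl hc := by
    simp only [Pi.smul_apply, LinearMap.smul_apply, hz.cl hc, smul_zero]
  tr a := by
    simp only [Pi.smul_apply, LinearMap.smul_apply, map_smul, hz.tr, smul_zero]

lemma neg (hz : IsTDer V z) : IsTDer V (-z) := by
  have := hz.smul (-1)
  have e : ((-1 : V.K) • z) = -z := by
    funext Y
    exact neg_one_smul V.K (z Y)
  rwa [e] at this

lemma sub (hz : IsTDer V z) (hw : IsTDer V w) : IsTDer V (z - w) := by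
  rw [sub_eq_add_neg]
  exact hz.add hw.neg

/-- The commutator of two families. -/
def _root_.Pool.Agent.V8H72.Exo.br (z w : Fam V) : Fam V := fun Y => z Y * w Y - w Y * z Y

lemma _root_.Pool.Agent.V8H72.Exo.br_apply (z w : Fam V) (Y : 𝒱.Obj) (a : V.H Y) :
    br z w Y a = z Y (w Y a) - w Y (z Y a) := rfl

lemma bracket (hz : IsTDer V z) (hw : IsTDer V w) : IsTDer V (br z w) where
  leib a b := by
    simp only [br_apply, hz.leib, hw.leib, map_add, sub_mul, mul_sub]
    abel
  gr_mem ha := Submodule.sub_mem _ (hz.gr_mem (hw.gr_mem ha)) (hw.gr_mem (hz.gr_mem ha))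
  map f a := by
    simp only [br_apply, hz.map, hw.map, map_sub]
  cl hc := by
    simp only [br_apply, hz.cl hc, hw.cl hc, map_zero, sub_zero]
  tr a := by
    simp only [br_apply, map_sub, hz.tr, hw.tr, sub_zero]

/-- Tensor derivations commute with push-forwards. -/
lemma push (hz : IsTDer V z) {X Y : 𝒱.Obj} (f : X ⟶ Y) (a : V.H X) :
    z Y (V.push f a) = V.push f (z X a) := by
  apply V.tr_ext
  intro b
  have h1 : V.tr Y (z Y (V.push f a) * b) = - V.tr Y (V.push f a * z Y b) := by
    have h2 := hz.tr (V.push f a * b)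
    rw [hz.leib, map_add] at h2
    exact eq_neg_of_add_eq_zero_left h2
  have h3 : V.tr X (z X a * V.map f b) = - V.tr X (a * z X (V.map f b)) := by
    have h2 := hz.tr (a * V.map f b)
    rw [hz.leib, map_add] at h2
    exact eq_neg_of_add_eq_zero_left h2
  rw [h1, V.tr_push, V.tr_push, h3, hz.map]

/-- Tensor derivations commute with the operators given by classes which they kill. -/
lemma corr (hz : IsTDer V z) {X Y : 𝒱.Obj} {c : V.H (X.prod Y)} (hc : z (X.prod Y) c = 0)
    (a : V.H X) : z Y (V.corr c a) = V.corr c (z X a) := by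
  rw [corr_apply, corr_apply, hz.push, hz.leib, hc, zero_mul, zero_add, hz.map]

lemma one (hz : IsTDer V z) (Y : 𝒱.Obj) : z Y 1 = 0 := by
  have h1 := hz.leib (1 : V.H Y) 1
  rw [mul_one, mul_one, one_mul] at h1
  exact left_eq_add.1 h1

end IsTDer

end Pool.Agent.V8H72.Exo
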