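import Pool.Agent.V8H72.ExoHodge

/-!
# The positive definite forms on the primitive cohomology
-/

open CategoryTheory AlgebraicGeometry Finset TensorProduct
open scoped ComplexOrder

universe u v

namespace Pool.Agent.V8H72.Exo

open Pool.Agent.H914 VarClass Obj WeilCohomology

variable {k : Type u} [Field k] {𝒱 : VarClass k} {ops : CycleOps 𝒱}

variable {V : WeilCohomology.{u, v} ops} (𝓗 : HodgeTheory V)


namespace HodgeTheory

/-- The projection to `H^{p,q}`. -/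
noncomputable def cmp (p q : ℕ) : Fam V :=
  𝓗.dg (fun p' q' => if p' = p ∧ q' = q then 1 else 0)

lemma cmp_same {X : 𝒱.Obj} {p q : ℕ} {a : V.H X} (ha : a ∈ 𝓗.hodge X p q) :
    𝓗.cmp p q X a = a := by
  rw [cmp, 𝓗.dg_apply _ ha, if_pos ⟨rfl, rfl⟩, one_smul]

lemma cmp_ne {X : 𝒱.Obj} {p q p' q' : ℕ} {a : V.H X} (ha : a ∈ 𝓗.hodge X p q)
    (h : ¬ (p = p' ∧ q = q')) : 𝓗.cmp p' q' X a = 0 := by
  rw [cmp, 𝓗.dg_apply _ ha, if_neg h, zero_smul]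

lemma cmp_mem {X : 𝒱.Obj} (p q : ℕ) (a : V.H X) : 𝓗.cmp p q X a ∈ 𝓗.hodge X p q := by
  refine 𝓗.induction (P := fun a => 𝓗.cmp p q X a ∈ 𝓗.hodge X p q) ?_ ?_ ?_ a
  · rw [map_zero]; exact Submodule.zero_mem _
  · intro a b ha hb; rw [map_add]; exact Submodule.add_mem _ ha hb
  · intro p' q' a ha
    by_cases h : p' = p ∧ q' = q
    · obtain ⟨rfl, rfl⟩ := h
      rw [𝓗.cmp_same ha]; exact ha
    · rw [𝓗.cmp_ne ha h]; exact Submodule.zero_mem _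

lemma sum_cmp {X : 𝒱.Obj} {i : ℕ} {a : V.H X} (ha : a ∈ V.gr X i) :
    ∑ p ∈ range (i + 1), 𝓗.cmp p (i - p) X a = a := by
  refine 𝓗.gr_induction (P := fun a => ∑ p ∈ range (i + 1), 𝓗.cmp p (i - p) X a = a)
    ?_ ?_ ?_ ha
  · simp
  · intro a b ha hb
    simp only [map_add]
    rw [Finset.sum_add_distrib, ha, hb]
  · intro p q hpq a ha
    rw [Finset.sum_eq_single p]
    · rw [show i - p = q by omega, 𝓗.cmp_same ha]
    · intro p' _ hp'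
      exact 𝓗.cmp_ne ha (fun h => hp' h.1.symm)
    · intro hp
      exact absurd (Finset.mem_range.2 (by omega)) hp

lemma cmp_pow_mul {X : 𝒱.Obj} {x : V.H X} (hx : x ∈ 𝓗.hodge X 1 1) (m p q : ℕ)
    (a : V.H X) : 𝓗.cmp (m + p) (m + q) X (x ^ m * a) = x ^ m * 𝓗.cmp p q X a := by
  refine 𝓗.induction
    (P := fun a => 𝓗.cmp (m + p) (m + q) X (x ^ m * a) = x ^ m * 𝓗.cmp p q X a) ?_ ?_ ?_ a
  · simp
  · intro a b ha hb
    rw [mul_add, map_add, ha, hb, map_add, mul_add]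
  · intro p' q' a ha
    have h1 := 𝓗.mul_mem (𝓗.pow_mem hx m) ha
    by_cases h : p' = p ∧ q' = q
    · obtain ⟨rfl, rfl⟩ := h
      rw [𝓗.cmp_same ha, 𝓗.cmp_same h1]
    · rw [𝓗.cmp_ne ha h, 𝓗.cmp_ne h1 (by omega), mul_zero]

lemma ph_hodge {X : 𝒱.Obj} {p q : ℕ} {b : V.H X} (hb : b ∈ 𝓗.hodge X p q) :
    𝓗.ph X b = tauK 𝓗 cb (wc 𝓗 p q) • 𝓗.act cb X b := by
  rw [ph, 𝓗.dg_apply _ hb, gal_smul]

lemma ph_mem {X : 𝒱.Obj} {p q : ℕ} {b : V.H X} (hb : b ∈ 𝓗.hodge X p q) :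
    𝓗.ph X b ∈ 𝓗.hodge X q p := by
  rw [𝓗.ph_hodge hb]
  exact Submodule.smul_mem _ _ (𝓗.bar_mem hb)

/-- The complex trace. -/
noncomputable abbrev trC (X : 𝒱.Obj) (a : V.H X) : ℂ := 𝓗.ι (V.tr X a)

/-- The sign of the form. -/
noncomputable def sgn (i : ℕ) : ℂ := (-1) ^ i * (-1) ^ (i * (i - 1) / 2)

/-- The form on the primitive cohomology of degree `i`. -/
noncomputable def frm (X : 𝒱.Obj) (D : X.Cycles) (i : ℕ) (a b : V.H X) : ℂ :=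
  sgn i * 𝓗.trC X (V.cl X D ^ (X.dim - i) * (a * 𝓗.ph X b))

lemma trC_add {X : 𝒱.Obj} (a b : V.H X) : 𝓗.trC X (a + b) = 𝓗.trC X a + 𝓗.trC X b := by
  rw [trC, map_add, map_add]

lemma trC_zero {X : 𝒱.Obj} : 𝓗.trC X 0 = 0 := by
  rw [trC, map_zero, map_zero]

lemma trC_smul {X : 𝒱.Obj} (c : V.K) (a : V.H X) :
    𝓗.trC X (c • a) = 𝓗.ι c * 𝓗.trC X a := by
  rw [trC, map_smul, smul_eq_mul, map_mul]

lemma ι_tauK (c : V.K) : 𝓗.ι (tauK 𝓗 cb c) = (starRingEnd ℂ) (𝓗.ι c) := by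
  rw [tauK, RingEquiv.apply_symm_apply, cb_apply]

lemma frm_add (X : 𝒱.Obj) (D : X.Cycles) (i : ℕ) (a b c : V.H X) :
    𝓗.frm X D i (a + b) c = 𝓗.frm X D i a c + 𝓗.frm X D i b c := by
  rw [frm, add_mul, mul_add, trC_add, mul_add]; rfl

lemma frm_add' (X : 𝒱.Obj) (D : X.Cycles) (i : ℕ) (a b c : V.H X) :
    𝓗.frm X D i a (b + c) = 𝓗.frm X D i a b + 𝓗.frm X D i a c := by
  rw [frm, 𝓗.ph_nice.add, mul_add, mul_add, trC_add, mul_add]; rfl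

lemma frm_smul (X : 𝒱.Obj) (D : X.Cycles) (i : ℕ) (c : V.K) (a b : V.H X) :
    𝓗.frm X D i (c • a) b = 𝓗.ι c * 𝓗.frm X D i a b := by
  rw [frm, smul_mul_assoc, mul_smul_comm, trC_smul, frm]
  ring

lemma frm_smul' (X : 𝒱.Obj) (D : X.Cycles) (i : ℕ) (c : V.K) (a b : V.H X) :
    𝓗.frm X D i a (c • b) = (starRingEnd ℂ) (𝓗.ι c) * 𝓗.frm X D i a b := by
  rw [frm, 𝓗.ph_smul, mul_smul_comm, mul_smul_comm, trC_smul, frm]
  rw [ι_tauK]
  ring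

lemma frm_zero (X : 𝒱.Obj) (D : X.Cycles) (i : ℕ) (b : V.H X) : 𝓗.frm X D i 0 b = 0 := by
  rw [frm, zero_mul, mul_zero, trC_zero, mul_zero]

lemma frm_sum (X : 𝒱.Obj) (D : X.Cycles) (i : ℕ) {κ : Type*} (s : Finset κ)
    (f : κ → V.H X) (b : V.H X) :
    𝓗.frm X D i (∑ j ∈ s, f j) b = ∑ j ∈ s, 𝓗.frm X D i (f j) b := by
  classical
  induction s using Finset.induction_on with
  | empty => rw [Finset.sum_empty, Finset.sum_empty, frm_zero]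
  | insert a s ha ih => rw [Finset.sum_insert ha, Finset.sum_insert ha, frm_add, ih]

lemma frm_zero' (X : 𝒱.Obj) (D : X.Cycles) (i : ℕ) (b : V.H X) : 𝓗.frm X D i b 0 = 0 := by
  rw [frm, 𝓗.ph_nice.zero, mul_zero, mul_zero, trC_zero, mul_zero]

lemma frm_sum' (X : 𝒱.Obj) (D : X.Cycles) (i : ℕ) {κ : Type*} (s : Finset κ)
    (f : κ → V.H X) (b : V.H X) :
    𝓗.frm X D i b (∑ j ∈ s, f j) = ∑ j ∈ s, 𝓗.frm X D i b (f j) := by
  classical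
  induction s using Finset.induction_on with
  | empty => rw [Finset.sum_empty, Finset.sum_empty, frm_zero']
  | insert a s ha ih => rw [Finset.sum_insert ha, Finset.sum_insert ha, frm_add', ih]

/-- Different Hodge types are orthogonal. -/
lemma frm_orth {X : 𝒱.Obj} {D : X.Cycles} (hD : X.IsCyc 1 D) {i p q p' q' : ℕ}
    (h : p + q = i) (h' : p' + q' = i) (hne : p ≠ p') {a b : V.H X}
    (ha : a ∈ 𝓗.hodge X p q) (hb : b ∈ 𝓗.hodge X p' q') : 𝓗.frm X D i a b = 0 := by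
  have h1 := 𝓗.mul_mem (𝓗.pow_mem (𝓗.cl_mem hD) (X.dim - i)) (𝓗.mul_mem ha (𝓗.ph_mem hb))
  have h2 : V.tr X (V.cl X D ^ (X.dim - i) * (a * 𝓗.ph X b)) = 0 := 𝓗.tr_hodge h1 (by
    intro h3
    rw [Prod.mk.injEq] at h3
    omega)
  rw [frm, trC, h2, map_zero, mul_zero]

lemma bar_wc (p q : ℕ) :
    𝓗.ι (tauK 𝓗 cb (wc 𝓗 p q)) = (-Complex.I) ^ p * Complex.I ^ q := by
  rw [ι_tauK, wc, iK]
  simp

/-- Positivity on a single Hodge type. -/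
lemma frm_pos {X : 𝒱.Obj} {D : X.Cycles}
    (hpos : ∀ p q, p + q ≤ X.dim → ∀ a ∈ 𝓗.hodge X p q, a ≠ 0 →
      V.cl X D ^ (X.dim - (p + q) + 1) * a = 0 →
      (0 : ℂ) < Complex.I ^ ((p : ℤ) - q) * (-1) ^ ((p + q) * (p + q - 1) / 2) *
        𝓗.trC X (V.cl X D ^ (X.dim - (p + q)) * (a * 𝓗.act cb X a)))
    {p q : ℕ} (hpq : p + q ≤ X.dim) {a : V.H X} (ha : a ∈ 𝓗.hodge X p q) (ha0 : a ≠ 0)
    (hprim : V.cl X D ^ (X.dim - (p + q) + 1) * a = 0) : 0 < 𝓗.frm X D (p + q) a a := by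
  have h1 := hpos p q hpq a ha ha0 hprim
  rw [frm, 𝓗.ph_hodge ha, mul_smul_comm, mul_smul_comm, trC_smul, 𝓗.bar_wc]
  have h2 : sgn (p + q) * ((-Complex.I) ^ p * Complex.I ^ q *
      𝓗.trC X (V.cl X D ^ (X.dim - (p + q)) * (a * 𝓗.act cb X a))) =
      Complex.I ^ ((p : ℤ) - q) * (-1) ^ ((p + q) * (p + q - 1) / 2) *
        𝓗.trC X (V.cl X D ^ (X.dim - (p + q)) * (a * 𝓗.act cb X a)) := by
    have h3 : Complex.I ^ ((p : ℤ) - q) = Complex.I ^ p * (-Complex.I) ^ q := by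
      rw [zpow_sub₀ Complex.I_ne_zero, zpow_natCast, zpow_natCast, div_eq_mul_inv, ← inv_pow,
        Complex.inv_I]
    have h4 : (-1 : ℂ) ^ (p + q) * ((-Complex.I) ^ p * Complex.I ^ q) =
        Complex.I ^ p * (-Complex.I) ^ q := by
      rw [pow_add, neg_pow Complex.I p, neg_pow Complex.I q]
      have h5 : (-1 : ℂ) ^ p * (-1) ^ p = 1 := by
        rw [← mul_pow]; simp
      linear_combination (Complex.I ^ p * Complex.I ^ q * (-1) ^ q) * h5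
    rw [h3, sgn, ← h4]
    ring
  rw [h2]
  exact h1

/-- Positivity on the primitive cohomology. -/
lemma frm_prim_pos {X : 𝒱.Obj} {D : X.Cycles} (hD : X.IsCyc 1 D)
    (hpos : ∀ p q, p + q ≤ X.dim → ∀ a ∈ 𝓗.hodge X p q, a ≠ 0 →
      V.cl X D ^ (X.dim - (p + q) + 1) * a = 0 →
      (0 : ℂ) < Complex.I ^ ((p : ℤ) - q) * (-1) ^ ((p + q) * (p + q - 1) / 2) *
        𝓗.trC X (V.cl X D ^ (X.dim - (p + q)) * (a * 𝓗.act cb X a)))
    {i : ℕ} (hi : i ≤ X.dim) {a : V.H X} (ha : a ∈ V.gr X i) (ha0 : a ≠ 0)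
    (hprim : V.cl X D ^ (X.dim - i + 1) * a = 0) : 0 < 𝓗.frm X D i a a := by
  have hsum := 𝓗.sum_cmp ha
  have hmem : ∀ p, 𝓗.cmp p (i - p) X a ∈ 𝓗.hodge X p (i - p) := fun p => 𝓗.cmp_mem p _ a
  have hz : ∀ p, V.cl X D ^ (X.dim - i + 1) * 𝓗.cmp p (i - p) X a = 0 := by
    intro p
    rw [← 𝓗.cmp_pow_mul (𝓗.cl_mem hD), hprim, map_zero]
  have hexp : 𝓗.frm X D i a a = ∑ p ∈ range (i + 1),
      𝓗.frm X D i (𝓗.cmp p (i - p) X a) (𝓗.cmp p (i - p) X a) := by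
    conv_lhs => rw [← hsum]
    rw [frm_sum]
    apply Finset.sum_congr rfl
    intro p hp
    rw [frm_sum', Finset.sum_eq_single p]
    · intro p' hp' hne
      have h1 := Finset.mem_range.1 hp
      have h2 := Finset.mem_range.1 hp'
      exact 𝓗.frm_orth hD (by omega) (by omega) (Ne.symm hne) (hmem p) (hmem p')
    · intro h; exact absurd hp h
  have hp : ∀ p ∈ range (i + 1), 𝓗.cmp p (i - p) X a ≠ 0 →
      0 < 𝓗.frm X D i (𝓗.cmp p (i - p) X a) (𝓗.cmp p (i - p) X a) := by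
    intro p hp hne
    have h1 := Finset.mem_range.1 hp
    have h2 : p + (i - p) = i := by omega
    have h3 := 𝓗.frm_pos hpos (p := p) (q := i - p) (by omega) (hmem p) hne (by
      rw [h2]; exact hz p)
    rwa [h2] at h3
  rw [hexp]
  obtain ⟨p, hpr, hne⟩ : ∃ p ∈ range (i + 1), 𝓗.cmp p (i - p) X a ≠ 0 := by
    by_contra hall
    push Not at hall
    exact ha0 (by rw [← hsum]; exact Finset.sum_eq_zero hall)
  refine Finset.sum_pos' (fun p hp' => ?_) ⟨p, hpr, hp p hpr hne⟩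
  by_cases h0 : 𝓗.cmp p (i - p) X a = 0
  · rw [h0, frm_zero]
  · exact (hp p hp' h0).le

/-- The primitive cohomology of degree `i`. -/
noncomputable def prm (V : WeilCohomology.{u, v} ops) (X : 𝒱.Obj) (D : X.Cycles)
    (i : ℕ) : Submodule V.K (V.H X) :=
  V.gr X i ⊓ LinearMap.ker (LinearMap.mulLeft V.K (V.cl X D ^ (X.dim - i + 1)))

omit 𝓗 in
lemma mem_prm {X : 𝒱.Obj} {D : X.Cycles} {i : ℕ} {a : V.H X} :
    a ∈ prm V X D i ↔ a ∈ V.gr X i ∧ V.cl X D ^ (X.dim - i + 1) * a = 0 := Iff.rfl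

lemma isPosForm_frm {X : 𝒱.Obj} {D : X.Cycles} (hD : X.IsCyc 1 D)
    (hpos : ∀ p q, p + q ≤ X.dim → ∀ a ∈ 𝓗.hodge X p q, a ≠ 0 →
      V.cl X D ^ (X.dim - (p + q) + 1) * a = 0 →
      (0 : ℂ) < Complex.I ^ ((p : ℤ) - q) * (-1) ^ ((p + q) * (p + q - 1) / 2) *
        𝓗.trC X (V.cl X D ^ (X.dim - (p + q)) * (a * 𝓗.act cb X a)))
    {i : ℕ} (hi : i ≤ X.dim) :
    IsPosForm 𝓗.ι (fun a b : prm V X D i => 𝓗.frm X D i a.1 b.1) where
  add a b c := 𝓗.frm_add X D i a.1 b.1 c.1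
  smul r a b := 𝓗.frm_smul X D i r a.1 b.1
  add' a b c := 𝓗.frm_add' X D i a.1 b.1 c.1
  smul' r a b := 𝓗.frm_smul' X D i r a.1 b.1
  pos a ha := 𝓗.frm_prim_pos hD hpos hi a.2.1 (fun h0 => ha (Subtype.ext h0)) a.2.2

/-- The adjoint of a tensor derivation. -/
lemma frm_adj {z : Fam V} (hz : IsTDer V z) {X : 𝒱.Obj} {D : X.Cycles}
    (hD : X.IsCyc 1 D) (i : ℕ) (a b : V.H X) :
    𝓗.frm X D i (z X a) b = 𝓗.frm X D i a (𝓗.star z X b) := by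
  have hpow : ∀ m : ℕ, z X (V.cl X D ^ m) = 0 := by
    intro m
    induction m with
    | zero => rw [pow_zero]; exact hz.one X
    | succ m ih => rw [pow_succ, hz.leib, ih, hz.cl hD, zero_mul, mul_zero, add_zero]
  have h1 := hz.tr (V.cl X D ^ (X.dim - i) * (a * 𝓗.ph X b))
  rw [hz.leib, hpow, zero_mul, zero_add, hz.leib, mul_add] at h1
  have h2 : 𝓗.trC X (V.cl X D ^ (X.dim - i) * (z X a * 𝓗.ph X b)) +
      𝓗.trC X (V.cl X D ^ (X.dim - i) * (a * z X (𝓗.ph X b))) = 0 := by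
    rw [← trC_add, ← mul_add, trC, ← map_zero 𝓗.ι]
    congr 1
    rw [← h1, mul_add]
  have h3 : 𝓗.trC X (V.cl X D ^ (X.dim - i) * (a * -z X (𝓗.ph X b))) =
      -𝓗.trC X (V.cl X D ^ (X.dim - i) * (a * z X (𝓗.ph X b))) := by
    rw [mul_neg, mul_neg, trC, map_neg, map_neg]
  rw [frm, frm, 𝓗.ph_star, h3, eq_neg_of_add_eq_zero_left h2]

lemma der_pow_mul {z : Fam V} (hz : IsTDer V z) {X : 𝒱.Obj} {D : X.Cycles}
    (hD : X.IsCyc 1 D) (m : ℕ) (a : V.H X) :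
    z X (V.cl X D ^ m * a) = V.cl X D ^ m * z X a := by
  have hpow : ∀ m : ℕ, z X (V.cl X D ^ m) = 0 := by
    intro m
    induction m with
    | zero => rw [pow_zero]; exact hz.one X
    | succ m ih => rw [pow_succ, hz.leib, ih, hz.cl hD, zero_mul, mul_zero, add_zero]
  rw [hz.leib, hpow, zero_mul, zero_add]

end HodgeTheory

end Pool.Agent.V8H72.Exo
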