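import Mathlib

/-!
# Linear algebra: positivity of the trace form, splitting off an ideal
-/

open Finset ComplexConjugate ComplexOrder

namespace Pool.Agent.V8H72.Exo

section Pos

variable {P : Type*} [AddCommGroup P] [Module ℂ P]

/-- A positive definite sesquilinear form (linear in the first variable). -/
structure IsPosFormC (h : P → P → ℂ) : Prop where
  add : ∀ a b c, h (a + b) c = h a c + h b c
  smul : ∀ (r : ℂ) (a b), h (r • a) b = r * h a b
  add' : ∀ a b c, h a (b + c) = h a b + h a c
  smul' : ∀ (r : ℂ) (a b), h a (r • b) = conj r * h a b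
  pos : ∀ a, a ≠ 0 → 0 < h a a

namespace IsPosFormC

variable {h : P → P → ℂ} (H : IsPosFormC h)

include H

lemma zero_left (a : P) : h 0 a = 0 := by
  have := H.smul 0 0 a
  simpa using this

lemma nonneg (a : P) : 0 ≤ h a a := by
  by_cases ha : a = 0
  · rw [ha, H.zero_left]
  · exact (H.pos a ha).le

lemma im_self (a : P) : (h a a).im = 0 := by
  have := H.nonneg a
  rw [Complex.le_def] at this
  exact this.2.symm

lemma symm (a b : P) : conj (h a b) = h b a := by
  have h1 := H.im_self (a + b)
  rw [H.add, H.add', H.add', Complex.add_im, Complex.add_im, Complex.add_im, H.im_self,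
    H.im_self] at h1
  have h2 := H.im_self (a + Complex.I • b)
  rw [H.add, H.add', H.add', H.smul, H.smul, H.smul', Complex.add_im, Complex.add_im,
    Complex.add_im, H.im_self] at h2
  have h3 : (Complex.I * h (b) (Complex.I • b)).im = 0 := by
    have := H.im_self (Complex.I • b)
    rwa [H.smul] at this
  rw [h3] at h2
  apply Complex.ext
  · rw [Complex.conj_re]
    simp at h2
    linarith
  · rw [Complex.conj_im]
    linarith

/-- The inner product attached to a positive definite form. -/
@[reducible] noncomputable def core : InnerProductSpace.Core ℂ P where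
  inner x y := h y x
  conj_inner_symm x y := H.symm x y
  re_inner_nonneg x := by
    have := H.nonneg x
    rw [Complex.le_def] at this
    exact this.1
  add_left x y z := H.add' _ _ _
  smul_left x y r := H.smul' _ _ _
  definite x hx := by
    by_contra hne
    exact (H.pos x hne).ne' hx

/-- **Positivity of the trace form.** -/
theorem trace_mul_adj [FiniteDimensional ℂ P] (T T' : Module.End ℂ P)
    (hT : ∀ a b, h (T a) b = h a (T' b)) :
    0 ≤ LinearMap.trace ℂ P (T * T') ∧ (LinearMap.trace ℂ P (T * T') = 0 → T' = 0) := by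
  let _ : NormedAddCommGroup P := H.core.toNormedAddCommGroup
  let _ : InnerProductSpace ℂ P := InnerProductSpace.ofCore H.core.toCore
  have hin : ∀ x y : P, inner ℂ x y = h y x := fun x y => rfl
  set b := stdOrthonormalBasis ℂ P
  have h1 : LinearMap.trace ℂ P (T * T') = ∑ i, h (T' (b i)) (T' (b i)) := by
    rw [LinearMap.trace_eq_sum_inner _ b]
    apply Finset.sum_congr rfl
    intro i _
    rw [hin, Module.End.mul_apply, hT]
  rw [h1]
  refine ⟨Finset.sum_nonneg (fun i _ => H.nonneg _), fun h0 => ?_⟩
  have h2 := (Finset.sum_eq_zero_iff_of_nonneg (fun i _ => H.nonneg (T' (b i)))).1 h0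
  apply b.toBasis.ext
  intro i
  rw [LinearMap.zero_apply]
  by_contra hne
  have h3 := H.pos _ hne
  have h4 := h2 i (Finset.mem_univ _)
  rw [OrthonormalBasis.coe_toBasis] at h3
  exact h3.ne' h4

end IsPosFormC

end Pos

section Gen

variable {K : Type*} [Field K] (ι : K ≃+* ℂ)

/-- A positive definite sesquilinear form on a vector space over a field identified with `ℂ`. -/
structure IsPosForm {P : Type*} [AddCommGroup P] [Module K P] (h : P → P → ℂ) : Prop where
  add : ∀ a b c, h (a + b) c = h a c + h b c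
  smul : ∀ (r : K) (a b), h (r • a) b = ι r * h a b
  add' : ∀ a b c, h a (b + c) = h a b + h a c
  smul' : ∀ (r : K) (a b), h a (r • b) = conj (ι r) * h a b
  pos : ∀ a, a ≠ 0 → 0 < h a a

variable {ι}

theorem IsPosForm.trace_mul_adj {P : Type*} [AddCommGroup P] [Module K P] {h : P → P → ℂ}
    (H : IsPosForm ι h) [FiniteDimensional K P] (T T' : Module.End K P)
    (hT : ∀ a b, h (T a) b = h a (T' b)) :
    0 ≤ ι (LinearMap.trace K P (T * T')) ∧ (LinearMap.trace K P (T * T') = 0 → T' = 0) := by
  let _ : Module ℂ P := Module.compHom P (ι.symm : ℂ →+* K)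
  have hsm : ∀ (c : ℂ) (x : P), c • x = ι.symm c • x := fun _ _ => rfl
  have HC : IsPosFormC h :=
    { add := H.add
      smul := fun r a b => by rw [hsm, H.smul, RingEquiv.apply_symm_apply]
      add' := H.add'
      smul' := fun r a b => by rw [hsm, H.smul', RingEquiv.apply_symm_apply]
      pos := H.pos }
  set b := Module.finBasis K P with hb
  set b' : Module.Basis _ ℂ P := b.mapCoeffs ι (fun c x => by
    rw [hsm, RingEquiv.symm_apply_apply]) with hb'
  have hfin : FiniteDimensional ℂ P := Module.Basis.finiteDimensional_of_finite b'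
  let S : Module.End ℂ P :=
    { toFun := T
      map_add' := T.map_add
      map_smul' := fun c x => T.map_smul (ι.symm c) x }
  let S' : Module.End ℂ P :=
    { toFun := T'
      map_add' := T'.map_add
      map_smul' := fun c x => T'.map_smul (ι.symm c) x }
  have htr : LinearMap.trace ℂ P (S * S') = ι (LinearMap.trace K P (T * T')) := by
    rw [LinearMap.trace_eq_matrix_trace ℂ b', LinearMap.trace_eq_matrix_trace K b,
      Matrix.trace, Matrix.trace, map_sum]
    apply Finset.sum_congr rfl
    intro i _
    rw [Matrix.diag_apply, Matrix.diag_apply, LinearMap.toMatrix_apply,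
      LinearMap.toMatrix_apply, hb', Module.Basis.mapCoeffs_apply]
    rfl
  obtain ⟨h1, h2⟩ := HC.trace_mul_adj S S' hT
  rw [htr] at h1 h2
  refine ⟨h1, fun h0 => ?_⟩
  have h3 := h2 (by rw [h0, map_zero])
  apply LinearMap.ext
  intro a
  exact congrArg (fun F => F a) h3

/-- If the trace vanishes, both operators vanish. -/
theorem IsPosForm.eq_zero_of_trace {P : Type*} [AddCommGroup P] [Module K P] {h : P → P → ℂ}
    (H : IsPosForm ι h) [FiniteDimensional K P] (T T' : Module.End K P)
    (hT : ∀ a b, h (T a) b = h a (T' b))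
    (h0 : LinearMap.trace K P (T * T') = 0) : T = 0 := by
  have h1 := (H.trace_mul_adj T T' hT).2 h0
  apply LinearMap.ext
  intro a
  rw [LinearMap.zero_apply]
  by_contra hne
  have h2 := H.pos _ hne
  rw [hT, h1, LinearMap.zero_apply] at h2
  have h3 := H.smul' 0 a 0
  rw [zero_smul, map_zero, map_zero, zero_mul] at h3
  exact h2.ne' h3

/-- The trace form on families of operators. -/
noncomputable def trForm {J : Type*} [Fintype J] {P : J → Type*} [∀ j, AddCommGroup (P j)]
    [∀ j, Module K (P j)] :
    (∀ j, Module.End K (P j)) →ₗ[K] (∀ j, Module.End K (P j)) →ₗ[K] K :=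
  ∑ j, ((LinearMap.mul K (Module.End K (P j))).compr₂ (LinearMap.trace K (P j))).compl₁₂
    (LinearMap.proj j) (LinearMap.proj j)

lemma trForm_apply {J : Type*} [Fintype J] {P : J → Type*} [∀ j, AddCommGroup (P j)]
    [∀ j, Module K (P j)] (S T : ∀ j, Module.End K (P j)) :
    trForm S T = ∑ j, LinearMap.trace K (P j) (S j * T j) := by
  simp [trForm]

/-- A subspace on which the trace form is nondegenerate is a direct summand. -/
theorem exists_split {J : Type*} [Fintype J] {P : J → Type*} [∀ j, AddCommGroup (P j)]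
    [∀ j, Module K (P j)] [∀ j, FiniteDimensional K (P j)]
    (N : Submodule K (∀ j, Module.End K (P j)))
    (hN : ∀ n ∈ N, (∀ m ∈ N, trForm n m = 0) → n = 0) (T : ∀ j, Module.End K (P j)) :
    ∃ n ∈ N, ∀ m ∈ N, trForm (T - n) m = 0 := by
  set B : N →ₗ[K] Module.Dual K N := (trForm (P := P)).compl₁₂ N.subtype N.subtype with hB
  have hinj : Function.Injective B := by
    rw [← LinearMap.ker_eq_bot, LinearMap.ker_eq_bot']
    intro n hn
    apply Subtype.ext
    apply hN _ n.2
    intro m hm
    exact congrArg (fun F => F ⟨m, hm⟩) hn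
  have hsurj : Function.Surjective B :=
    (LinearMap.injective_iff_surjective_of_finrank_eq_finrank
      (Subspace.dual_finrank_eq (K := K) (V := N)).symm).1 hinj
  obtain ⟨n, hn⟩ := hsurj ((trForm T).comp N.subtype)
  refine ⟨n, n.2, fun m hm => ?_⟩
  have h1 := congrArg (fun F => F ⟨m, hm⟩) hn
  have h2 : trForm (n : ∀ j, Module.End K (P j)) m = trForm T m := h1
  rw [map_sub, LinearMap.sub_apply, h2, sub_self]

/-- The compression of an operator to a subspace. -/
noncomputable def compr {M : Type*} [AddCommGroup M] [Module K M] (P : Submodule K M) :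
    Module.End K M →ₗ[K] Module.End K P :=
  ((LinearMap.lcomp K P P.subtype).comp
    (LinearMap.llcomp K M M P (LinearMap.exists_leftInverse_of_injective P.subtype
      (by rw [Submodule.ker_subtype])).choose))

lemma compr_apply {M : Type*} [AddCommGroup M] [Module K M] (P : Submodule K M)
    {x : Module.End K M} (hx : ∀ a ∈ P, x a ∈ P) (a : P) : (compr P x a : M) = x a := by
  have h1 := (LinearMap.exists_leftInverse_of_injective P.subtype
      (by rw [Submodule.ker_subtype])).choose_spec
  have h2 := congrArg (fun F => F ⟨x a, hx a a.2⟩) h1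
  have h3 : compr P x a = (LinearMap.exists_leftInverse_of_injective P.subtype
      (by rw [Submodule.ker_subtype])).choose (x a) := rfl
  rw [h3]
  exact congrArg Subtype.val h2

lemma compr_mul {M : Type*} [AddCommGroup M] [Module K M] (P : Submodule K M)
    {x y : Module.End K M} (hx : ∀ a ∈ P, x a ∈ P) (hy : ∀ a ∈ P, y a ∈ P) :
    compr P (x * y) = compr P x * compr P y := by
  apply LinearMap.ext
  intro a
  apply Subtype.ext
  have hxy : ∀ a ∈ P, (x * y) a ∈ P := fun a ha => by
    rw [Module.End.mul_apply]; exact hx _ (hy a ha)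
  rw [compr_apply P hxy, Module.End.mul_apply, Module.End.mul_apply,
    compr_apply P hx, compr_apply P hy]

/-- **Splitting off an ideal of operators which is stable under adjoints.** -/
theorem split_lin {M : Type*} [AddCommGroup M] [Module K M] [FiniteDimensional K M]
    {J : Type*} [Fintype J] (P : J → Submodule K M) (h : J → M → M → ℂ)
    (H : ∀ j, IsPosForm ι (fun a b : P j => h j a b)) (N : Submodule K (Module.End K M))
    (hstab : ∀ x ∈ N, ∀ j, ∀ a ∈ P j, x a ∈ P j) (hbr : ∀ x ∈ N, ∀ y ∈ N, x * y - y * x ∈ N)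
    (hadj : ∀ x ∈ N, ∃ x' ∈ N, ∀ j, ∀ a ∈ P j, ∀ b ∈ P j, h j (x a) b = h j a (x' b))
    (z : Module.End K M) (hz : ∀ j, ∀ a ∈ P j, z a ∈ P j) (hzN : ∀ n ∈ N, z * n - n * z ∈ N) :
    ∃ n₀ ∈ N, ∀ n ∈ N, ∀ j, ∀ a ∈ P j, ((z - n₀) * n - n * (z - n₀)) a = 0 := by
  set ρ : Module.End K M →ₗ[K] (∀ j, Module.End K (P j)) := LinearMap.pi (fun j => compr (P j))
    with hρ
  have hρa : ∀ x j, ρ x j = compr (P j) x := fun _ _ => rfl
  -- nondegeneracy
  have hnd : ∀ x ∈ N, (∀ y ∈ N, trForm (ρ x) (ρ y) = 0) → ρ x = 0 := by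
    intro x hx hxy
    obtain ⟨x', hx', hadjx⟩ := hadj x hx
    have h1 := hxy x' hx'
    rw [trForm_apply] at h1
    have hT : ∀ j, ∀ a b : P j, h j ((compr (P j) x a : P j) : M) b =
        h j a ((compr (P j) x' b : P j) : M) := by
      intro j a b
      rw [compr_apply _ (hstab x hx j), compr_apply _ (hstab x' hx' j)]
      exact hadjx j a a.2 b b.2
    have h2 : ∀ j ∈ (Finset.univ : Finset J),
        0 ≤ ι (LinearMap.trace K (P j) (ρ x j * ρ x' j)) := fun j _ =>
      ((H j).trace_mul_adj (compr (P j) x) (compr (P j) x') (hT j)).1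
    have h1' : ∑ j, ι (LinearMap.trace K (P j) (ρ x j * ρ x' j)) = 0 := by
      rw [← map_sum, h1, map_zero]
    have h3 := (Finset.sum_eq_zero_iff_of_nonneg h2).1 h1'
    funext j
    refine (H j).eq_zero_of_trace (compr (P j) x) (compr (P j) x') (hT j) ?_
    have h4 := h3 j (Finset.mem_univ j)
    exact (map_eq_zero_iff ι ι.injective).1 h4
  obtain ⟨t, ht, ht'⟩ := exists_split (N.map ρ) (by
    rintro _ ⟨x, hx, rfl⟩ hxy
    exact hnd x hx (fun y hy => hxy _ (Submodule.mem_map_of_mem hy))) (ρ z)
  obtain ⟨n₀, hn₀, rfl⟩ := ht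
  refine ⟨n₀, hn₀, fun n hn j a ha => ?_⟩
  set u := z - n₀ with hu
  have hun : u * n - n * u ∈ N := by
    have : u * n - n * u = (z * n - n * z) - (n₀ * n - n * n₀) := by
      rw [hu]; simp only [sub_mul, mul_sub]; abel
    rw [this]
    exact N.sub_mem (hzN n hn) (hbr _ hn₀ _ hn)
  have hust : ∀ j, ∀ a ∈ P j, u a ∈ P j := fun j a ha => by
    rw [hu, LinearMap.sub_apply]; exact Submodule.sub_mem _ (hz j a ha) (hstab _ hn₀ j a ha)
  have h1 : ρ (u * n - n * u) = 0 := by
    apply hnd _ hun
    intro m hm
    have h2 := ht' _ (Submodule.mem_map_of_mem (f := ρ) (hbr n hn m hm))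
    rw [← map_sub, ← hu, trForm_apply] at h2
    rw [trForm_apply, ← h2]
    apply Finset.sum_congr rfl
    intro i _
    simp only [hρa, map_sub]
    rw [compr_mul _ (hust i) (hstab n hn i), compr_mul _ (hstab n hn i) (hust i),
      compr_mul _ (hstab n hn i) (hstab m hm i), compr_mul _ (hstab m hm i) (hstab n hn i),
      sub_mul, mul_sub, map_sub, map_sub, mul_assoc, mul_assoc,
      LinearMap.trace_mul_comm K (compr (P i) n), mul_assoc, map_sub]
  have h2 := congrArg (fun F => ((F j ⟨a, ha⟩ : P j) : M)) h1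
  simp only [hρa] at h2
  rw [compr_apply _ (hstab _ hun j)] at h2
  exact h2

end Gen

end Pool.Agent.V8H72.Exo
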