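import Pool.Agent.V8H72.ExoConj
import Pool.Agent.V8H72.ExoLin

/-!
# Hodge theory: the Hodge derivation, the star operation and the splittings
-/

open CategoryTheory AlgebraicGeometry Finset TensorProduct
open scoped ComplexOrder

universe u v

namespace Pool.Agent.V8H72.Exo

open Pool.Agent.H914 VarClass Obj WeilCohomology

variable {k : Type u} [Field k] {𝒱 : VarClass k} {ops : CycleOps 𝒱}

variable {V : WeilCohomology.{u, v} ops} (𝓗 : HodgeTheory V)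

/-- Complex conjugation. -/
abbrev cb : ℂ ≃+* ℂ := (starRingAut : RingAut ℂ)

lemma cb_apply (c : ℂ) : cb c = (starRingEnd ℂ) c := rfl

lemma cb_cb (c : ℂ) : cb (cb c) = c := by
  rw [cb_apply, cb_apply, Complex.conj_conj]

namespace HodgeTheory

lemma one_mem (X : 𝒱.Obj) : (1 : V.H X) ∈ 𝓗.hodge X 0 0 := by
  rw [← V.cl_fund X]
  exact 𝓗.cl_mem X.V.fundCycle_mem

lemma induction {X : 𝒱.Obj} {P : V.H X → Prop} (h0 : P 0)
    (hadd : ∀ a b, P a → P b → P (a + b)) (hp : ∀ p q, ∀ a ∈ 𝓗.hodge X p q, P a)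
    (a : V.H X) : P a :=
  dia_induction (𝓗.isInternal X) h0 hadd (fun pq a ha => hp pq.1 pq.2 a ha) a

lemma gr_induction {X : 𝒱.Obj} {i : ℕ} {P : V.H X → Prop} (h0 : P 0)
    (hadd : ∀ a b, P a → P b → P (a + b))
    (hp : ∀ p q, p + q = i → ∀ a ∈ 𝓗.hodge X p q, P a)
    {a : V.H X} (ha : a ∈ V.gr X i) : P a := by
  rw [← proj_same (V.isInternal X) ha]
  refine 𝓗.induction (P := fun a => P (proj (V.isInternal X) i a)) ?_ ?_ ?_ a
  · rw [map_zero]; exact h0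
  · intro a b ha hb
    rw [map_add]; exact hadd _ _ ha hb
  · intro p q b hb
    by_cases hpq : p + q = i
    · have h1 := 𝓗.le_gr hb
      rw [hpq] at h1
      rw [proj_same _ h1]
      exact hp p q hpq b hb
    · rw [proj_ne _ (𝓗.le_gr hb) hpq]; exact h0

lemma eq_zero_of_mem {X : 𝒱.Obj} {p q p' q' : ℕ} {a : V.H X} (ha : a ∈ 𝓗.hodge X p q)
    (ha' : a ∈ 𝓗.hodge X p' q') (h : (p, q) ≠ (p', q')) : a = 0 := by
  have h1 := (𝓗.isInternal X).submodule_iSupIndep.pairwiseDisjoint h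
  exact Submodule.disjoint_def.1 h1 a ha ha'

lemma pow_mem {X : 𝒱.Obj} {x : V.H X} (hx : x ∈ 𝓗.hodge X 1 1) (m : ℕ) :
    x ^ m ∈ 𝓗.hodge X m m := by
  induction m with
  | zero => rw [pow_zero]; exact 𝓗.one_mem X
  | succ m ih => rw [pow_succ]; exact 𝓗.mul_mem ih hx

lemma gal_one (τ : ℂ ≃+* ℂ) (X : 𝒱.Obj) : 𝓗.act τ X 1 = 1 := by
  rw [← V.cl_fund X]
  exact (gal_nice 𝓗 τ).cl X.V.fundCycle_mem

/-- The top power of the class of the polarisation has nonzero trace. -/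
lemma tr_top {X : 𝒱.Obj} : ∃ x ∈ 𝓗.hodge X X.dim X.dim, V.tr X x ≠ 0 := by
  obtain ⟨D, hD, -, hpos⟩ := 𝓗.polarized X
  refine ⟨V.cl X D ^ X.dim, 𝓗.pow_mem (𝓗.cl_mem hD) _, ?_⟩
  have h1 := hpos 0 0 (Nat.zero_le _) 1 (𝓗.one_mem X) (𝓗.one_ne X) (by
    rw [mul_one]
    have h2 := 𝓗.le_gr (𝓗.pow_mem (𝓗.cl_mem hD) (X.dim - (0 + 0) + 1))
    rw [V.gr_eq_bot X _ (by omega)] at h2
    exact (Submodule.mem_bot _).1 h2)
  intro h0
  rw [gal_one, mul_one, mul_one] at h1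
  simp only [add_zero, Nat.sub_zero] at h1
  rw [h0, map_zero, mul_zero] at h1
  exact lt_irrefl _ h1

lemma top_le {X : 𝒱.Obj} {a : V.H X} (ha : a ∈ V.gr X (2 * X.dim)) :
    a ∈ 𝓗.hodge X X.dim X.dim := by
  obtain ⟨x, hx, hx0⟩ := 𝓗.tr_top (X := X)
  have h1 : a = (V.tr X a / V.tr X x) • x := by
    rw [← sub_eq_zero]
    apply V.nondeg
    intro b
    refine Pool.Agent.H914.gr_induction (V.isInternal X)
      (p := fun b => V.tr X ((a - (V.tr X a / V.tr X x) • x) * b) = 0) ?_ ?_ b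
    · intro j b hb
      rcases Nat.eq_zero_or_pos j with rfl | hj
      · rw [V.gr_zero, Submodule.mem_span_singleton] at hb
        obtain ⟨β, rfl⟩ := hb
        rw [mul_smul_comm, mul_one, map_smul, map_sub, map_smul, smul_eq_mul, smul_eq_mul,
          div_mul_cancel₀ _ hx0, sub_self, mul_zero]
      · have hx' : x ∈ V.gr X (2 * X.dim) := by
          have := 𝓗.le_gr hx
          rwa [← two_mul] at this
        have h2 := V.mul_mem (Submodule.sub_mem _ ha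
          (Submodule.smul_mem _ (V.tr X a / V.tr X x) hx')) hb
        rw [V.gr_eq_bot X _ (by omega)] at h2
        rw [(Submodule.mem_bot _).1 h2, map_zero]
    · intro b b' hb hb'
      rw [mul_add, map_add, hb, hb', add_zero]
  rw [h1]
  exact Submodule.smul_mem _ _ hx

lemma tr_hodge {X : 𝒱.Obj} {p q : ℕ} {a : V.H X} (ha : a ∈ 𝓗.hodge X p q)
    (hpq : (p, q) ≠ (X.dim, X.dim)) : V.tr X a = 0 := by
  by_cases h : p + q = 2 * X.dim
  · have h1 := 𝓗.le_gr ha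
    rw [h] at h1
    rw [𝓗.eq_zero_of_mem ha (𝓗.top_le h1) hpq, map_zero]
  · exact V.tr_eq_zero (𝓗.le_gr ha) h

/-- The Hodge derivation: it acts on `H^{p,q}` as `p - q`. -/
noncomputable def der : Fam V := fun Y =>
  dia (𝓗.isInternal Y) (fun pq => ((pq.1 : V.K) - pq.2))

lemma der_apply {Y : 𝒱.Obj} {p q : ℕ} {a : V.H Y} (ha : a ∈ 𝓗.hodge Y p q) :
    𝓗.der Y a = ((p : V.K) - q) • a :=
  dia_apply (𝓗.isInternal Y) (fun pq => ((pq.1 : V.K) - pq.2)) (i := (p, q)) ha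

lemma isTDer_der : IsTDer V 𝓗.der where
  leib {Y} a b := by
    refine 𝓗.induction (P := fun a => 𝓗.der Y (a * b) = 𝓗.der Y a * b + a * 𝓗.der Y b) ?_ ?_ ?_ a
    · simp
    · intro a a' ha ha'
      simp only [add_mul, map_add, ha, ha']
      abel
    · intro p q a ha
      refine 𝓗.induction
        (P := fun b => 𝓗.der Y (a * b) = 𝓗.der Y a * b + a * 𝓗.der Y b) ?_ ?_ ?_ b
      · simp
      · intro b b' hb hb'
        simp only [mul_add, map_add, hb, hb']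
        abel
      · intro p' q' b hb
        rw [𝓗.der_apply ha, 𝓗.der_apply hb, 𝓗.der_apply (𝓗.mul_mem ha hb), smul_mul_assoc,
          mul_smul_comm, ← add_smul]
        congr 1
        push_cast
        ring
  gr_mem {Y i a} ha := by
    refine 𝓗.gr_induction (P := fun a => 𝓗.der Y a ∈ V.gr Y i) ?_ ?_ ?_ ha
    · rw [map_zero]; exact Submodule.zero_mem _
    · intro a b ha hb
      rw [map_add]; exact Submodule.add_mem _ ha hb
    · intro p q hpq b hb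
      rw [𝓗.der_apply hb]
      have h1 := 𝓗.le_gr hb
      rw [hpq] at h1
      exact Submodule.smul_mem _ _ h1
  map {X Y} f a := by
    refine 𝓗.induction (P := fun a => 𝓗.der X (V.map f a) = V.map f (𝓗.der Y a))
      ?_ ?_ ?_ a
    · simp
    · intro a b ha hb
      rw [map_add, map_add, ha, hb, map_add, map_add]
    · intro p q a ha
      rw [𝓗.der_apply ha, 𝓗.der_apply (𝓗.map_mem f ha), map_smul]
  cl {Y p c} hc := by
    rw [𝓗.der_apply (𝓗.cl_mem hc), sub_self, zero_smul]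
  tr {Y} a := by
    refine 𝓗.induction (P := fun a => V.tr Y (𝓗.der Y a) = 0) ?_ ?_ ?_ a
    · simp
    · intro a b ha hb
      rw [map_add, map_add, ha, hb, add_zero]
    · intro p q a ha
      rw [𝓗.der_apply ha, map_smul]
      by_cases h : (p, q) = (Y.dim, Y.dim)
      · rw [Prod.mk.injEq] at h
        rw [h.1, h.2, sub_self, zero_smul]
      · rw [𝓗.tr_hodge ha h, smul_zero]

/-- The operator acting on `H^{p,q}` as `c p q`. -/
noncomputable def dg (c : ℕ → ℕ → V.K) : Fam V := fun Y =>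
  dia (𝓗.isInternal Y) (fun pq => c pq.1 pq.2)

lemma dg_apply (c : ℕ → ℕ → V.K) {Y : 𝒱.Obj} {p q : ℕ} {a : V.H Y}
    (ha : a ∈ 𝓗.hodge Y p q) : 𝓗.dg c Y a = c p q • a :=
  dia_apply (𝓗.isInternal Y) (fun pq => c pq.1 pq.2) (i := (p, q)) ha

lemma dg_nice {c : ℕ → ℕ → V.K} (hc : ∀ p q p' q', c (p + p') (q + q') = c p q * c p' q')
    (hc' : ∀ p, c p p = 1) : NiceMap V (fun Y a => 𝓗.dg c Y a) where
  add a b := map_add _ a b
  mul {Y} a b := by
    refine 𝓗.induction (P := fun a => 𝓗.dg c Y (a * b) = 𝓗.dg c Y a * 𝓗.dg c Y b) ?_ ?_ ?_ a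
    · simp
    · intro a a' ha ha'
      simp only [add_mul, map_add, ha, ha']
    · intro p q a ha
      refine 𝓗.induction
        (P := fun b => 𝓗.dg c Y (a * b) = 𝓗.dg c Y a * 𝓗.dg c Y b) ?_ ?_ ?_ b
      · simp
      · intro b b' hb hb'
        simp only [mul_add, map_add, hb, hb']
      · intro p' q' b hb
        rw [𝓗.dg_apply c ha, 𝓗.dg_apply c hb, 𝓗.dg_apply c (𝓗.mul_mem ha hb), hc,
          smul_mul_assoc, mul_smul_comm, smul_smul]
  gr_mem {Y i a} ha := by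
    refine 𝓗.gr_induction (P := fun a => 𝓗.dg c Y a ∈ V.gr Y i) ?_ ?_ ?_ ha
    · rw [map_zero]; exact Submodule.zero_mem _
    · intro a b ha hb
      rw [map_add]; exact Submodule.add_mem _ ha hb
    · intro p q hpq b hb
      rw [𝓗.dg_apply c hb]
      have h1 := 𝓗.le_gr hb
      rw [hpq] at h1
      exact Submodule.smul_mem _ _ h1
  map {X Y} f a := by
    refine 𝓗.induction (P := fun a => 𝓗.dg c X (V.map f a) = V.map f (𝓗.dg c Y a))
      ?_ ?_ ?_ a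
    · simp
    · intro a b ha hb
      rw [map_add, map_add, ha, hb, map_add, map_add]
    · intro p q a ha
      rw [𝓗.dg_apply c ha, 𝓗.dg_apply c (𝓗.map_mem f ha), map_smul]
  cl {Y p z} hz := by
    rw [𝓗.dg_apply c (𝓗.cl_mem hz), hc', one_smul]
  tr {Y} a ha := by
    have h1 : V.tr Y (𝓗.dg c Y a) = V.tr Y a := by
      refine 𝓗.induction (P := fun a => V.tr Y (𝓗.dg c Y a) = V.tr Y a) ?_ ?_ ?_ a
      · simp
      · intro a b ha hb
        rw [map_add, map_add, ha, hb, map_add]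
      · intro p q a ha
        rw [𝓗.dg_apply c ha, map_smul]
        by_cases h : (p, q) = (Y.dim, Y.dim)
        · rw [Prod.mk.injEq] at h
          rw [h.1, h.2, hc', one_smul]
        · rw [𝓗.tr_hodge ha h, smul_zero]
    rw [h1, ha]

lemma dg_dg (c c' : ℕ → ℕ → V.K) (h : ∀ p q, c p q * c' p q = 1) {Y : 𝒱.Obj}
    (a : V.H Y) : 𝓗.dg c Y (𝓗.dg c' Y a) = a := by
  refine 𝓗.induction (P := fun a => 𝓗.dg c Y (𝓗.dg c' Y a) = a) ?_ ?_ ?_ a
  · simp
  · intro a b ha hb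
    rw [map_add, map_add, ha, hb]
  · intro p q a ha
    rw [𝓗.dg_apply c' ha, map_smul, 𝓗.dg_apply c ha, smul_smul, mul_comm, h, one_smul]

end HodgeTheory

/-- The imaginary unit in the coefficient field. -/
noncomputable def iK : V.K := 𝓗.ι.symm Complex.I

lemma iK_mul : iK 𝓗 * iK 𝓗 = -1 := by
  unfold iK
  rw [← map_mul, Complex.I_mul_I, map_neg, map_one]

/-- The coefficients of the Weil operator. -/
noncomputable def wc (p q : ℕ) : V.K := iK 𝓗 ^ p * (-iK 𝓗) ^ q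

/-- The coefficients of the inverse of the Weil operator. -/
noncomputable def wc' (p q : ℕ) : V.K := (-iK 𝓗) ^ p * iK 𝓗 ^ q

lemma iK_neg_mul : iK 𝓗 * -iK 𝓗 = 1 := by rw [mul_neg, iK_mul, neg_neg]

lemma wc_add (p q p' q' : ℕ) : wc 𝓗 (p + p') (q + q') = wc 𝓗 p q * wc 𝓗 p' q' := by
  unfold wc; rw [pow_add, pow_add]; ring

lemma wc'_add (p q p' q' : ℕ) : wc' 𝓗 (p + p') (q + q') = wc' 𝓗 p q * wc' 𝓗 p' q' := by
  unfold wc'; rw [pow_add, pow_add]; ring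

lemma wc_self (p : ℕ) : wc 𝓗 p p = 1 := by
  unfold wc; rw [← mul_pow, iK_neg_mul, one_pow]

lemma wc'_self (p : ℕ) : wc' 𝓗 p p = 1 := by
  unfold wc'; rw [← mul_pow, mul_comm, iK_neg_mul, one_pow]

lemma wc_wc' (p q : ℕ) : wc 𝓗 p q * wc' 𝓗 p q = 1 := by
  unfold wc wc'
  have h1 : iK 𝓗 ^ p * (-iK 𝓗) ^ q * ((-iK 𝓗) ^ p * iK 𝓗 ^ q) =
      (iK 𝓗 * -iK 𝓗) ^ p * (iK 𝓗 * -iK 𝓗) ^ q := by rw [mul_pow, mul_pow]; ring
  rw [h1, iK_neg_mul, one_pow, one_pow, mul_one]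

namespace HodgeTheory

lemma gal_bar_bar {Y : 𝒱.Obj} (a : V.H Y) :
    𝓗.act cb Y (𝓗.act cb Y a) = a := by
  have h1 : cb.symm = cb := by
    ext c
    rw [RingEquiv.symm_apply_eq, cb_cb]
  have h2 := 𝓗.act_symm cb a
  rwa [h1] at h2

/-- The composition of the complex conjugation and the Weil operator. -/
noncomputable def ph (Y : 𝒱.Obj) (a : V.H Y) : V.H Y := 𝓗.act cb Y (𝓗.dg (wc 𝓗) Y a)

/-- The inverse of `ph`. -/
noncomputable def ps (Y : 𝒱.Obj) (a : V.H Y) : V.H Y := 𝓗.dg (wc' 𝓗) Y (𝓗.act cb Y a)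

lemma ph_nice : NiceMap V 𝓗.ph :=
  (gal_nice 𝓗 cb).comp (𝓗.dg_nice (wc_add 𝓗) (wc_self 𝓗))

lemma ps_nice : NiceMap V 𝓗.ps :=
  (𝓗.dg_nice (wc'_add 𝓗) (wc'_self 𝓗)).comp (gal_nice 𝓗 cb)

lemma ps_ph {Y : 𝒱.Obj} (a : V.H Y) : 𝓗.ps Y (𝓗.ph Y a) = a := by
  rw [ps, ph, gal_bar_bar, 𝓗.dg_dg _ _ (fun p q => by rw [mul_comm, wc_wc'])]

lemma ph_ps {Y : 𝒱.Obj} (a : V.H Y) : 𝓗.ph Y (𝓗.ps Y a) = a := by
  rw [ps, ph, 𝓗.dg_dg _ _ (wc_wc' 𝓗), gal_bar_bar]

lemma ph_smul {Y : 𝒱.Obj} (c : V.K) (a : V.H Y) :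
    𝓗.ph Y (c • a) = tauK 𝓗 cb c • 𝓗.ph Y a := by
  rw [ph, map_smul, gal_smul, ph]

lemma ps_smul {Y : 𝒱.Obj} (c : V.K) (a : V.H Y) :
    𝓗.ps Y (c • a) = tauK 𝓗 cb c • 𝓗.ps Y a := by
  rw [ps, gal_smul, map_smul, ps]

lemma tauK_tauK (c : V.K) : tauK 𝓗 cb (tauK 𝓗 cb c) = c := by
  unfold tauK
  rw [RingEquiv.apply_symm_apply, cb_cb, RingEquiv.symm_apply_apply]

/-- The adjoint of a tensor derivation. -/
noncomputable def star (z : Fam V) : Fam V := fun Y =>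
  { toFun := fun a => -𝓗.ps Y (z Y (𝓗.ph Y a))
    map_add' := fun a b => by
      rw [𝓗.ph_nice.add, map_add, 𝓗.ps_nice.add, neg_add]
    map_smul' := fun c a => by
      rw [ph_smul, map_smul, ps_smul, tauK_tauK, RingHom.id_apply, smul_neg] }

lemma star_apply (z : Fam V) {Y : 𝒱.Obj} (a : V.H Y) :
    𝓗.star z Y a = -𝓗.ps Y (z Y (𝓗.ph Y a)) := rfl

lemma isTDer_star {z : Fam V} (hz : IsTDer V z) : IsTDer V (𝓗.star z) := by
  have h1 : IsTDer V (-𝓗.star z) :=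
    𝓗.ps_nice.conj 𝓗.ph_nice (fun Y a => 𝓗.ps_ph a) hz (fun Y a => by
      rw [Pi.neg_apply, LinearMap.neg_apply, star_apply, neg_neg])
  have h2 := h1.neg
  rwa [neg_neg] at h2

lemma ps_neg {Y : 𝒱.Obj} (a : V.H Y) : 𝓗.ps Y (-a) = -𝓗.ps Y a := by
  have h1 := 𝓗.ps_nice.add a (-a)
  rw [add_neg_cancel, 𝓗.ps_nice.zero] at h1
  exact (neg_eq_of_add_eq_zero_right h1.symm).symm

lemma ph_neg {Y : 𝒱.Obj} (a : V.H Y) : 𝓗.ph Y (-a) = -𝓗.ph Y a := by
  have h1 := 𝓗.ph_nice.add a (-a)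
  rw [add_neg_cancel, 𝓗.ph_nice.zero] at h1
  exact (neg_eq_of_add_eq_zero_right h1.symm).symm

lemma ph_star (z : Fam V) {Y : 𝒱.Obj} (a : V.H Y) :
    𝓗.ph Y (𝓗.star z Y a) = -z Y (𝓗.ph Y a) := by
  rw [star_apply, ph_neg, ph_ps]

end HodgeTheory

end Pool.Agent.V8H72.Exo
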