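import Pool.Agent.V8H72.ExoDer
import Pool.Agent.V8H72.ExoDefs

/-!
# The Kunneth components of the diagonal
-/

open CategoryTheory AlgebraicGeometry Finset

universe u v

namespace Pool.Agent.V8H72.Exo

open Pool.Agent.H914 VarClass Obj WeilCohomology

variable {k : Type u} [Field k] {𝒱 : VarClass k} {ops : CycleOps 𝒱}
  (V : WeilCohomology.{u, v} ops)

/-- Every class of degree `2n` on `X × X` is a sum of elements of the Kunneth summands. -/
lemma proj_mem_kunneth (X : 𝒱.Obj) (c : V.H (X.prod X)) :
    proj (V.isInternal (X.prod X)) (2 * X.dim) c ∈ ⨆ j, kunnethPart V X j := by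
  refine V.kunneth_induction (p := fun c =>
    proj (V.isInternal (X.prod X)) (2 * X.dim) c ∈ ⨆ j, kunnethPart V X j) ?_ ?_ c
  · intro a b ha hb
    rw [map_add]
    exact Submodule.add_mem _ ha hb
  · intro i j a ha b hb
    have h1 := V.mul_mem (V.map_mem (fst X X) ha) (V.map_mem (snd X X) hb)
    by_cases hij : i + j = 2 * X.dim
    · have h2 := h1
      rw [hij] at h2
      rw [proj_same _ h2]
      exact Submodule.mem_iSup_of_mem j (Submodule.subset_span ⟨i, hij, a, ha, b, hb, rfl⟩)
    · rw [proj_ne _ h1 hij]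
      exact Submodule.zero_mem _

lemma diag_mem (X : 𝒱.Obj) : V.push (diag X) 1 ∈ V.gr (X.prod X) (2 * X.dim) := by
  have h1 := V.push_mem (diag X) (V.one_mem X)
  have e : ((0 : ℕ) : ℤ) + 2 * (((X.prod X).dim : ℤ) - X.dim) = ((2 * X.dim : ℕ) : ℤ) := by
    rw [dim_prod]; push_cast; ring
  rwa [e, grZ_natCast] at h1

/-- The Kunneth components exist. -/
theorem exists_kunnethComponent (X : 𝒱.Obj) (i : ℕ) : ∃ c, IsKunnethComponent V X i c := by
  have h1 := proj_mem_kunneth V X (V.push (diag X) 1)
  rw [proj_same _ (diag_mem V X), iSup_split_single _ i, Submodule.mem_sup] at h1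
  obtain ⟨c, hc, d, hd, hcd⟩ := h1
  refine ⟨c, hc, ?_⟩
  rw [← hcd, add_sub_cancel_left]
  exact hd

variable {V}

lemma corr_kunnethPart {X : 𝒱.Obj} {i l : ℕ} {c : V.H (X.prod X)} (hc : c ∈ kunnethPart V X i)
    {x : V.H X} (hx : x ∈ V.gr X l) (hli : l ≠ i) : V.corr c x = 0 := by
  induction hc using Submodule.span_induction with
  | mem c hc =>
    obtain ⟨j, hji, a, ha, b, hb, rfl⟩ := hc
    rw [corr_apply, mul_assoc, V.comm (V.map_mem (snd X X) hb) (V.map_mem (fst X X) hx),
      mul_smul_comm, ← mul_assoc, ← map_mul (V.map (fst X X)), map_smul, push_snd,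
      V.tr_eq_zero (V.mul_mem ha hx) (by omega), zero_smul, smul_zero]
  | zero => rw [V.corr_zero, LinearMap.zero_apply]
  | add c d _ _ hc hd => rw [V.corr_add, LinearMap.add_apply, hc, hd, add_zero]
  | smul q c _ hc => rw [V.corr_smul, LinearMap.smul_apply, hc, smul_zero]

/-- The `i`-th Kunneth component acts as the projector to the cohomology of degree `i`. -/
theorem isProjector_of_isKunnethComponent {X : 𝒱.Obj} {i : ℕ} {c : V.H (X.prod X)}
    (h : IsKunnethComponent V X i c) : IsProjector (V.gr X) i (V.corr c) := by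
  intro l x hx
  by_cases hli : l = i
  · subst hli
    rw [if_pos rfl]
    have h1 : V.corr (V.push (diag X) 1) x = x := by rw [V.corr_diag, one_mul]
    have h2 : V.corr (V.push (diag X) 1 - c) x = 0 := by
      have key : (⨆ j, ⨆ (_ : j ≠ l), kunnethPart V X j) ≤
          LinearMap.ker ((V.push (snd X X)) ∘ₗ LinearMap.mulRight V.K (V.map (fst X X) x)) := by
        refine iSup₂_le fun j hj c hc => ?_
        exact corr_kunnethPart hc hx (Ne.symm hj)
      exact key h.2
    have h3 : V.corr (V.push (diag X) 1) x = V.corr c x + V.corr (V.push (diag X) 1 - c) x := by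
      rw [← LinearMap.add_apply, ← V.corr_add, add_sub_cancel]
    rw [h1, h2, add_zero] at h3
    exact h3.symm
  · rw [if_neg hli]
    exact corr_kunnethPart h.1 hx hli

/-- Tensor derivations commute with the operators given by the classes in the span of the
algebraic classes. -/
lemma IsTDer.corr_algSpan {z : Fam V} (hz : IsTDer V z) {X : 𝒱.Obj} {p : ℕ}
    {c : V.H (X.prod X)} (hc : c ∈ algSpan V (X.prod X) p) (a : V.H X) :
    z X (V.corr c a) = V.corr c (z X a) := by
  apply hz.corr
  induction hc using Submodule.span_induction with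
  | mem c hc =>
    obtain ⟨y, hy, rfl⟩ := hc
    exact hz.cl hy
  | zero => rw [map_zero]
  | add c d _ _ hc hd => rw [map_add, hc, hd, add_zero]
  | smul q c _ hc => rw [map_smul, hc, smul_zero]

end Pool.Agent.V8H72.Exo
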