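import Pool.Agent.V8H72.ExoSplit
import Pool.Agent.V8H72.ExoKun

/-!
# Lifting operators to tensor derivations
-/

open CategoryTheory AlgebraicGeometry Finset TensorProduct
open scoped ComplexOrder

universe u v

namespace Pool.Agent.V8H72.Exo

open Pool.Agent.H914 VarClass Obj WeilCohomology

variable {k : Type u} [Field k] {𝒱 : VarClass k} {ops : CycleOps 𝒱}

variable {V : WeilCohomology.{u, v} ops} (𝓗 : HodgeTheory V)


namespace HodgeTheory

lemma tauK_symm (τ : ℂ ≃+* ℂ) (c : V.K) : tauK 𝓗 τ (tauK 𝓗 τ.symm c) = c := by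
  unfold tauK
  rw [RingEquiv.apply_symm_apply, RingEquiv.apply_symm_apply, RingEquiv.symm_apply_apply]

/-- The conjugate of the Hodge derivation by an automorphism of `ℂ`. -/
noncomputable def conjDer (τ : ℂ ≃+* ℂ) : Fam V := fun Y =>
  { toFun := fun a => 𝓗.act τ Y (𝓗.der Y (𝓗.act τ.symm Y a))
    map_add' := fun a b => by
      rw [𝓗.act_add, map_add, 𝓗.act_add]
    map_smul' := fun c a => by
      rw [gal_smul, map_smul, gal_smul, tauK_symm, RingHom.id_apply] }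

lemma conjDer_apply (τ : ℂ ≃+* ℂ) {Y : 𝒱.Obj} (a : V.H Y) :
    𝓗.conjDer τ Y a = 𝓗.act τ Y (𝓗.der Y (𝓗.act τ.symm Y a)) := rfl

lemma isTDer_conjDer (τ : ℂ ≃+* ℂ) : IsTDer V (𝓗.conjDer τ) :=
  (gal_nice 𝓗 τ).conj (gal_nice 𝓗 τ.symm) (fun Y a => 𝓗.act_symm τ a) 𝓗.isTDer_der
    (fun Y a => rfl)

lemma lift_conj {X : 𝒱.Obj} {T : Module.End V.K (V.H X)} (hT : IsConjHodgeOp 𝓗 X T) :
    ∃ z, IsTDer V z ∧ z X = T := by
  obtain ⟨τ, hτ⟩ := hT
  refine ⟨𝓗.conjDer τ, 𝓗.isTDer_conjDer τ, ?_⟩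
  apply LinearMap.ext
  intro a
  rw [← 𝓗.act_symm τ a, conjDer_apply, gal_symm']
  refine 𝓗.induction (P := fun b => 𝓗.act τ X (𝓗.der X b) = T (𝓗.act τ X b)) ?_ ?_ ?_ _
  · rw [map_zero, (gal_nice 𝓗 τ).zero, map_zero]
  · intro b b' hb hb'
    rw [map_add, 𝓗.act_add, 𝓗.act_add, hb, hb', map_add]
  · intro p q b hb
    rw [𝓗.der_apply hb, gal_smul, hτ p q b hb]
    congr 1
    unfold tauK
    simp only [map_sub, map_natCast]

lemma lift_lieGen {X : 𝒱.Obj} {T : Module.End V.K (V.H X)}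
    (hT : LieGen V.K {T | IsConjHodgeOp 𝓗 X T} T) : ∃ z, IsTDer V z ∧ z X = T := by
  induction hT with
  | mem T hT => exact 𝓗.lift_conj hT
  | zero => exact ⟨0, IsTDer.zero, rfl⟩
  | add S T _ _ hS hT =>
    obtain ⟨z, hz, rfl⟩ := hS
    obtain ⟨w, hw, rfl⟩ := hT
    exact ⟨z + w, hz.add hw, rfl⟩
  | smul c T _ hT =>
    obtain ⟨z, hz, rfl⟩ := hT
    exact ⟨c • z, hz.smul c, rfl⟩
  | comm S T _ _ hS hT =>
    obtain ⟨z, hz, rfl⟩ := hS
    obtain ⟨w, hw, rfl⟩ := hT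
    exact ⟨br z w, hz.bracket hw, rfl⟩

end HodgeTheory

section Odd

variable {X : 𝒱.Obj}

lemma tr_odd {a b : V.H X} (ha : a ∈ V.gr X 3) (hb : b ∈ V.gr X 3) :
    V.tr X (a * b) = - V.tr X (b * a) := by
  rw [V.comm ha hb, show (-1 : V.K) ^ (3 * 3) = -1 by norm_num, neg_one_smul, map_neg]

/-- The operator `a ↦ c tr (a w) w`. -/
noncomputable def trv (V : WeilCohomology.{u, v} ops) (X : 𝒱.Obj) (c : V.K) (w : V.H X) :
    Module.End V.K (V.H X) :=
  (c • (V.tr X ∘ₗ LinearMap.mulRight V.K w)).smulRight w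

lemma trv_apply (c : V.K) (w a : V.H X) : trv V X c w a = (c * V.tr X (a * w)) • w := rfl

lemma trv_symp (c : V.K) {w : V.H X} (hw : w ∈ V.gr X 3) {a b : V.H X} (ha : a ∈ V.gr X 3)
    (hb : b ∈ V.gr X 3) : V.tr X (trv V X c w a * b) + V.tr X (a * trv V X c w b) = 0 := by
  rw [trv_apply, trv_apply, smul_mul_assoc, mul_smul_comm, map_smul, map_smul, smul_eq_mul,
    smul_eq_mul, tr_odd hw hb]
  ring

/-- The relations between the operators `a ↦ tr (a w) w`, `a ↦ c tr (a w') w'` and a derivation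
which acts on `w` and `w'` as `3` and `-3`. -/
lemma setup_rel {D E F : Fam V} (hD : IsTDer V D) (hE : IsTDer V E) (hF : IsTDer V F)
    {w w' : V.H X} (hwg : w ∈ V.gr X 3) (hwg' : w' ∈ V.gr X 3) {q : V.K}
    (hqdef : V.tr X (w' * w) = q) (hq : q ≠ 0) {c : V.K} (hcq : c * (q * q) = -1)
    (hww : V.tr X (w * w) = 0) (hww' : V.tr X (w' * w') = 0)
    (hEa : ∀ a ∈ V.gr X 3, E X a = V.tr X (a * w) • w)
    (hFa : ∀ a ∈ V.gr X 3, F X a = (c * V.tr X (a * w')) • w')
    (hDw : D X w = (3 : V.K) • w) (hDw' : D X w' = (-3 : V.K) • w') :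
    (br E F X w = w ∧ br E F X w' = -w') ∧
    (∀ x ∈ V.gr X 3, br (br E F) E X x = (2 : V.K) • E X x) ∧
    (∀ x ∈ V.gr X 3, br (br E F) F X x = -((2 : V.K) • F X x)) ∧
    (∀ x ∈ V.gr X 3, br D E X x = (6 : V.K) • E X x) ∧
    (∀ x ∈ V.gr X 3, br D F X x = -((6 : V.K) • F X x)) := by
  have hw'w : V.tr X (w * w') = -q := by rw [tr_odd hwg hwg', hqdef]
  have hH : ∀ a ∈ V.gr X 3, br E F X a =
      (c * q * V.tr X (a * w')) • w + (c * q * V.tr X (a * w)) • w' := by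
    intro a ha
    rw [br_apply, hEa a ha, hFa a ha, map_smul, map_smul, hEa w' hwg', hFa w hwg, hqdef,
      hw'w, smul_smul, smul_smul]
    module
  have hHw : br E F X w = w := by
    rw [hH w hwg, hw'w, hww, mul_zero, zero_smul, add_zero]
    have : c * q * -q = 1 := by linear_combination -hcq
    rw [this, one_smul]
  have hHw' : br E F X w' = -w' := by
    rw [hH w' hwg', hqdef, hww', mul_zero, zero_smul, zero_add]
    have : c * q * q = -1 := by linear_combination hcq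
    rw [this, neg_one_smul]
  have hDtr : ∀ a b : V.H X, V.tr X (D X a * b) = -V.tr X (a * D X b) := by
    intro a b
    have h1 := hD.tr (a * b)
    rw [hD.leib, map_add] at h1
    exact eq_neg_of_add_eq_zero_left h1
  refine ⟨⟨hHw, hHw'⟩, ?_, ?_, ?_, ?_⟩
  · intro x hx
    have hHx := (hE.bracket hF).gr_mem hx
    rw [br_apply, hEa x hx, map_smul, hHw, hEa _ hHx, hH x hx, add_mul, map_add,
      smul_mul_assoc, smul_mul_assoc, map_smul, map_smul, hww, hqdef, smul_eq_mul,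
      smul_eq_mul, mul_zero, zero_add, smul_smul, ← sub_smul]
    congr 1
    linear_combination -(V.tr X (x * w)) * hcq
  · intro x hx
    have hHx := (hE.bracket hF).gr_mem hx
    rw [br_apply, hFa x hx, map_smul, hHw', hFa _ hHx, hH x hx, add_mul, map_add,
      smul_mul_assoc, smul_mul_assoc, map_smul, map_smul, hww', hw'w, smul_eq_mul,
      smul_eq_mul, mul_zero, add_zero, smul_smul, smul_neg, ← neg_smul, ← neg_smul,
      ← sub_smul]
    congr 1
    linear_combination (c * V.tr X (x * w')) * hcq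
  · intro x hx
    have hDx := hD.gr_mem hx
    rw [br_apply, hEa x hx, map_smul, hDw, hEa _ hDx, hDtr, hDw, mul_smul_comm, map_smul,
      smul_smul, smul_smul, ← sub_smul, smul_eq_mul]
    congr 1
    ring
  · intro x hx
    have hDx := hD.gr_mem hx
    rw [br_apply, hFa x hx, map_smul, hDw', hFa _ hDx, hDtr, hDw', mul_smul_comm, map_smul,
      smul_smul, smul_smul, ← sub_smul, smul_eq_mul, ← neg_smul]
    congr 1
    ring

end Odd

end Pool.Agent.V8H72.Exo
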