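import Pool.Agent.V8H72.ExoLift

/-!
# The exotic Weil cohomology theory
-/

open CategoryTheory AlgebraicGeometry Finset TensorProduct
open scoped ComplexOrder

universe u v

namespace Pool.Agent.V8H72.Exo

open Pool.Agent.H914 VarClass Obj WeilCohomology

variable {k : Type u} [Field k] {𝒱 : VarClass k} {ops : CycleOps 𝒱}

variable {V : WeilCohomology.{u, v} ops} (𝓗 : HodgeTheory V)


namespace HodgeTheory

/-- The data on the threefold from which the twist is constructed. -/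
theorem exists_setup {X₀ : 𝒱.Obj} (hdim : X₀.dim = 3) (h30 : 𝓗.hodge X₀ 3 0 ≠ ⊥)
    (hMT : SymplecticMT 𝓗 X₀) :
    ∃ w ∈ 𝓗.hodge X₀ 3 0, ∃ w' ∈ 𝓗.hodge X₀ 0 3, ∃ E F : Fam V,
      Setup V X₀ (V.gr X₀ 3) 𝓗.der E F ∧ w ≠ 0 ∧ w' ≠ 0 ∧
      E X₀ w' = (V.tr X₀ (w' * w)) • w ∧ V.tr X₀ (w' * w) ≠ 0 ∧
      br E F X₀ w = w ∧ br E F X₀ w' = -w' := by
  obtain ⟨w, hw, hw0⟩ := (Submodule.ne_bot_iff _).1 h30
  set w' := 𝓗.act cb X₀ w with hw'def
  have hw' : w' ∈ 𝓗.hodge X₀ 0 3 := 𝓗.bar_mem hw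
  have hwg : w ∈ V.gr X₀ 3 := by
    have := 𝓗.le_gr hw
    rwa [add_zero] at this
  have hwg' : w' ∈ V.gr X₀ 3 := by
    have := 𝓗.le_gr hw'
    rwa [zero_add] at this
  -- the pairing of `w` and its conjugate
  have hq : V.tr X₀ (w' * w) ≠ 0 := by
    intro h0
    obtain ⟨D, hD, -, hpos⟩ := 𝓗.polarized X₀
    have hprim : V.cl X₀ D ^ (X₀.dim - (3 + 0) + 1) * w = 0 := by
      by_contra hne
      have h1 := 𝓗.mul_mem (𝓗.pow_mem (𝓗.cl_mem hD) (X₀.dim - (3 + 0) + 1)) hw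
      have h2 := (𝓗.le_dim h1 hne).1
      omega
    have h1 := hpos 3 0 (by omega) w hw hw0 hprim
    have h2 : 𝓗.ι (V.tr X₀ (V.cl X₀ D ^ (X₀.dim - (3 + 0)) *
        (w * 𝓗.act (starRingAut : RingAut ℂ) X₀ w))) = 0 := by
      rw [show X₀.dim - (3 + 0) = 0 by omega, pow_zero, one_mul, ← hw'def,
        tr_odd hwg hwg', h0, neg_zero, map_zero]
    rw [h2, mul_zero] at h1
    exact lt_irrefl _ h1
  have hw'0 : w' ≠ 0 := by
    intro h0
    rw [h0, zero_mul, map_zero] at hq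
    exact hq rfl
  set q := V.tr X₀ (w' * w) with hqdef
  set c : V.K := -(q * q)⁻¹ with hc
  -- the two tensor derivations
  obtain ⟨T, hT, hTs⟩ := hMT (trv V X₀ 1 w)
    (fun a _ => by rw [trv_apply]; exact Submodule.smul_mem _ _ hwg)
    (fun a ha b hb => trv_symp 1 hwg ha hb)
  obtain ⟨E, hE, rfl⟩ := 𝓗.lift_lieGen hT
  obtain ⟨T', hT', hTs'⟩ := hMT (trv V X₀ c w')
    (fun a _ => by rw [trv_apply]; exact Submodule.smul_mem _ _ hwg')
    (fun a ha b hb => trv_symp c hwg' ha hb)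
  obtain ⟨F, hF, rfl⟩ := 𝓗.lift_lieGen hT'
  have hEa : ∀ a ∈ V.gr X₀ 3, E X₀ a = V.tr X₀ (a * w) • w := by
    intro a ha
    rw [hTs a ha, trv_apply, one_mul]
  have hFa : ∀ a ∈ V.gr X₀ 3, F X₀ a = (c * V.tr X₀ (a * w')) • w' := by
    intro a ha
    rw [hTs' a ha, trv_apply]
  -- the values of the pairings
  have hww : V.tr X₀ (w * w) = 0 :=
    𝓗.tr_hodge (𝓗.mul_mem hw hw) (by rw [hdim]; simp)
  have hww' : V.tr X₀ (w' * w') = 0 :=
    𝓗.tr_hodge (𝓗.mul_mem hw' hw') (by rw [hdim]; simp)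
  have hcq : c * (q * q) = -1 := by
    rw [hc, neg_mul, inv_mul_cancel₀ (mul_ne_zero hq hq)]
  have hDw : 𝓗.der X₀ w = (3 : V.K) • w := by
    rw [𝓗.der_apply hw]; norm_num
  have hDw' : 𝓗.der X₀ w' = (-3 : V.K) • w' := by
    rw [𝓗.der_apply hw']; norm_num
  obtain ⟨⟨hHw, hHw'⟩, r1, r2, r3, r4⟩ := setup_rel 𝓗.isTDer_der hE hF hwg hwg' rfl hq hcq hww
    hww' hEa hFa hDw hDw'
  refine ⟨w, hw, w', hw', E, F, ?_, hw0, hw'0, hEa w' hwg', hq, hHw, hHw'⟩
  exact
    { hD := 𝓗.isTDer_der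
      hE := hE
      hF := hF
      stab := fun z hz x hx => hz.gr_mem hx
      relE := r1
      relF := r2
      relDE := r3
      relDF := r4
      trne := fun Y => by
        obtain ⟨x, -, hx⟩ := 𝓗.tr_top (X := Y)
        exact ⟨x, hx⟩
      bound := fun Y i x hx hx0 d hd => 𝓗.bound_der Y i x hx hx0 d hd
      split := fun Y z hz => 𝓗.split (V.gr X₀ 3) (fun x hx => 𝓗.ph_nice.gr_mem hx)
        (fun z hz x hx => hz.gr_mem hx) Y z hz }

end HodgeTheory

section Final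

variable {X₀ : 𝒱.Obj}

/-- The twist attached to the setup acts on `T` as the bracket of `E` and `F`. -/
lemma hFam_T {T : Submodule V.K (V.H X₀)} {D E F : Fam V} (S : Setup V X₀ T D E F) {x : V.H X₀}
    (hx : x ∈ T) : hFam S X₀ x = br E F X₀ x := by
  obtain ⟨e, f, h⟩ := exists_good S X₀
  rw [hFam_eq S h]
  exact br_congr S.stab S.hE S.hF h.eT h.fT x hx

/-- A twist vanishes on the cohomology of degree one. -/
lemma twist_one {h : Fam V} (H : IsTwist V h) {Y : 𝒱.Obj} {a : V.H Y} (ha : a ∈ V.gr Y 1) :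
    h Y a = 0 := by
  have h1 := proj_same (V.isInternal Y) ha
  rw [← h1]
  have key : ∀ x : V.H Y, x ∈ ⨆ z : ℤ, (h Y).eigenspace (z : V.K) →
      h Y (proj (V.isInternal Y) 1 x) = 0 := by
    intro x hx
    refine Submodule.iSup_induction (fun z : ℤ => (h Y).eigenspace (z : V.K))
      (motive := fun x => h Y (proj (V.isInternal Y) 1 x) = 0) hx ?_ ?_ ?_
    · intro z x hx
      rw [Module.End.mem_eigenspace_iff] at hx
      have h2 : h Y (proj (V.isInternal Y) 1 x) =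
          (z : V.K) • proj (V.isInternal Y) 1 x := by
        rw [← proj_comm_of (fun ha => H.der.gr_mem ha), hx, map_smul]
      by_cases h0 : proj (V.isInternal Y) 1 x = 0
      · rw [h0, map_zero]
      · obtain ⟨h3, -⟩ := H.bound (proj_mem _ 1 x) h0 z h2
        have h5 := abs_le.1 h3
        push_cast at h5
        have h6 : z = 0 := by omega
        rw [h2, h6, Int.cast_zero, zero_smul]
    · rw [map_zero, map_zero]
    · intro x y hx hy
      rw [map_add, map_add, hx, hy, add_zero]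
  exact key a (H.diag Y a)

/-- **The properties of the twisted theory.** -/
theorem twist_props [IsAlgClosed V.K] {D E F : Fam V} (S : Setup V X₀ (V.gr X₀ 3) D E F)
    {w w' : V.H X₀} (hw : w ∈ V.gr X₀ 3) (hw' : w' ∈ V.gr X₀ 3) (hw0 : w ≠ 0) (hw'0 : w' ≠ 0)
    {q : V.K} (hq : q ≠ 0) (hE : E X₀ w' = q • w) (h1 : br E F X₀ w = w)
    (h2 : br E F X₀ w' = -w') :
    (∀ c, IsKunnethComponent (twist V (hFam S) (isTwist_hFam S)) X₀ 1 c →
      ∀ p, c ∉ algSpan (twist V (hFam S) (isTwist_hFam S)) (X₀.prod X₀) p) ∧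
    w' ∈ twGr V (hFam S) X₀ 1 ∧ V.betti X₀ 1 < (twist V (hFam S) (isTwist_hFam S)).betti X₀ 1 := by
  have m1 : w' ∈ twGr V (hFam S) X₀ 1 := by
    rw [mem_twGr, twOp_apply hw', hFam_T S hw', h2, smul_neg, ← neg_smul, ← add_smul]
    congr 1
    push_cast
    ring
  have m5 : w ∈ twGr V (hFam S) X₀ 5 := by
    rw [mem_twGr, twOp_apply hw, hFam_T S hw, h1, ← add_smul]
    congr 1
    push_cast
    ring
  refine ⟨?_, m1, ?_⟩
  · intro c hc p hp
    have hproj := isProjector_of_isKunnethComponent hc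
    have e1 : V.corr c w' = w' := by
      have := hproj 1 w' m1
      exact this.trans (if_pos rfl)
    have e2 : V.corr c w = 0 := by
      have := hproj 5 w m5
      exact this.trans (if_neg (by omega))
    have e3 := S.hE.corr_algSpan (X := X₀) (p := p) (c := c) hp w'
    rw [e1, hE, map_smul, e2, smul_zero, smul_eq_zero] at e3
    rcases e3 with e4 | e4
    · exact hq e4
    · exact hw0 e4
  · change Module.finrank V.K (V.gr X₀ 1) < Module.finrank V.K (twGr V (hFam S) X₀ 1)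
    have hfin : Module.Finite V.K (V.H X₀) := V.finite X₀
    apply Submodule.finrank_lt_finrank_of_lt
    refine lt_of_le_of_ne ?_ ?_
    · intro a ha
      rw [mem_twGr, twOp_apply ha, twist_one (isTwist_hFam S) ha, smul_zero, add_zero]
    · intro h0
      rw [← h0] at m1
      apply hw'0
      rw [← proj_same (V.isInternal X₀) m1, proj_ne (V.isInternal X₀) hw' (by norm_num)]

end Final

lemma isAlgClosed_of_equiv {K : Type*} [Field K] (ι : K ≃+* ℂ) : IsAlgClosed K := by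
  apply IsAlgClosed.of_exists_root
  intro p _ hi
  obtain ⟨z, hz⟩ := IsAlgClosed.exists_root (p.map (ι : K →+* ℂ)) (by
    rw [Polynomial.degree_map]; exact (Polynomial.degree_pos_of_irreducible hi).ne')
  refine ⟨ι.symm z, ?_⟩
  apply ι.injective
  rw [map_zero, ← hz, Polynomial.eval_map]
  have h1 := Polynomial.hom_eval₂ p (RingHom.id K) (ι : K →+* ℂ) (ι.symm z)
  rw [Polynomial.eval₂_id, RingHom.comp_id] at h1
  simpa using h1

/-- **The exotic Weil cohomology theory.** -/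
theorem main {X₀ : 𝒱.Obj} (hdim : X₀.dim = 3) (h30 : 𝓗.hodge X₀ 3 0 ≠ ⊥)
    (hMT : SymplecticMT 𝓗 X₀) :
    ∃ gr' : ∀ Y : 𝒱.Obj, ℕ → Submodule V.K (V.H Y), ∃ W' : WeilCohomology.{u, v} ops,
      W'.toWeilData = { V.toWeilData with gr := gr' } ∧
      (∃ c, IsKunnethComponent W' X₀ 1 c) ∧
      (∀ c, IsKunnethComponent W' X₀ 1 c → c ∉ algSpan W' (X₀.prod X₀) X₀.dim) ∧
      ∀ D, X₀.IsCyc 1 D → ¬ HardLefschetz W' X₀ D := by
  obtain ⟨w, hw, w', hw', E, F, S, hw0, hw'0, hE, hq, h1, h2⟩ := 𝓗.exists_setup hdim h30 hMT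
  have hcl : IsAlgClosed V.K := isAlgClosed_of_equiv 𝓗.ι
  have hwg : w ∈ V.gr X₀ 3 := by
    have := 𝓗.le_gr hw
    rwa [add_zero] at this
  have hwg' : w' ∈ V.gr X₀ 3 := by
    have := 𝓗.le_gr hw'
    rwa [zero_add] at this
  obtain ⟨p1, p2, -⟩ := twist_props S hwg hwg' hw0 hw'0 hq hE h1 h2
  refine ⟨twGr V (hFam S), twist V (hFam S) (isTwist_hFam S), rfl,
    exists_kunnethComponent _ X₀ 1, fun c hc => p1 c hc _, ?_⟩
  intro D hD hHL
  have h3 := (hHL 1 (by omega)).1 w' p2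
  apply hw'0
  apply h3
  have h4 : (LinearMap.mulLeft V.K (V.cl X₀ D) ^ (X₀.dim - 1)) w' =
      V.cl X₀ D ^ (X₀.dim - 1) * w' := by
    rw [LinearMap.pow_mulLeft, LinearMap.mulLeft_apply]
  have h5 : V.cl X₀ D ^ (X₀.dim - 1) * w' = 0 := by
    by_contra hne
    have h6 := 𝓗.mul_mem (𝓗.pow_mem (𝓗.cl_mem hD) (X₀.dim - 1)) hw'
    have h7 := (𝓗.le_dim h6 hne).2
    omega
  exact h4.trans h5

end Pool.Agent.V8H72.Exo
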