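import Pool.Agent.V8H72.ExoDer

/-!
# Twisting the grading of a Weil cohomology theory by a tensor derivation
-/

open CategoryTheory AlgebraicGeometry Finset

universe u v

namespace Pool.Agent.V8H72.Exo

open Pool.Agent.H914 VarClass Obj WeilCohomology

variable {k : Type u} [Field k] {𝒱 : VarClass k} {ops : CycleOps 𝒱}

/-- A tensor derivation by which the grading can be twisted: it is diagonalisable with integral
eigenvalues, which are small compared with the degrees. -/
structure IsTwist (V : WeilCohomology.{u, v} ops) (h : Fam V) : Prop where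
  der : IsTDer V h
  diag : ∀ (Y : 𝒱.Obj) (a : V.H Y), a ∈ ⨆ z : ℤ, (h Y).eigenspace (z : V.K)
  bound : ∀ {Y : 𝒱.Obj} {i : ℕ} {a : V.H Y}, a ∈ V.gr Y i → a ≠ 0 → ∀ z : ℤ,
    h Y a = (z : V.K) • a → |3 * z| ≤ i ∧ |3 * z| ≤ 2 * Y.dim - i

/-- The operator `deg + 2 h`, whose eigenspaces are the pieces of the twisted grading. -/
noncomputable def twOp (V : WeilCohomology.{u, v} ops) (h : Fam V) (Y : 𝒱.Obj) :
    Module.End V.K (V.H Y) :=
  scal (V.isInternal Y) (fun i => (i : V.K)) + (2 : V.K) • h Y

/-- The twisted grading. -/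
noncomputable def twGr (V : WeilCohomology.{u, v} ops) (h : Fam V) (Y : 𝒱.Obj) (j : ℕ) :
    Submodule V.K (V.H Y) :=
  (twOp V h Y).eigenspace (j : V.K)

variable {V : WeilCohomology.{u, v} ops} {h : Fam V}

lemma twOp_apply {Y : 𝒱.Obj} {i : ℕ} {a : V.H Y} (ha : a ∈ V.gr Y i) :
    twOp V h Y a = (i : V.K) • a + (2 : V.K) • h Y a := by
  rw [twOp, LinearMap.add_apply, scal_apply _ _ ha, LinearMap.smul_apply]

lemma mem_twGr {Y : 𝒱.Obj} {j : ℕ} {a : V.H Y} :
    a ∈ twGr V h Y j ↔ twOp V h Y a = (j : V.K) • a := Module.End.mem_eigenspace_iff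

section

variable (H : IsTDer V h)

include H

lemma twOp_leib {Y : 𝒱.Obj} (a b : V.H Y) :
    twOp V h Y (a * b) = twOp V h Y a * b + a * twOp V h Y b := by
  refine gr_induction (V.isInternal Y)
    (p := fun a => twOp V h Y (a * b) = twOp V h Y a * b + a * twOp V h Y b) ?_ ?_ a
  · intro i a ha
    refine gr_induction (V.isInternal Y)
      (p := fun b => twOp V h Y (a * b) = twOp V h Y a * b + a * twOp V h Y b) ?_ ?_ b
    · intro j b hb
      rw [twOp_apply ha, twOp_apply hb, twOp_apply (V.mul_mem ha hb), H.leib]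
      simp only [add_mul, mul_add, smul_mul_assoc, mul_smul_comm, smul_add]
      push_cast
      module
    · intro b b' hb hb'
      simp only [mul_add, map_add, hb, hb']
      abel
  · intro a a' ha ha'
    simp only [add_mul, map_add, ha, ha']
    abel

lemma twOp_gr {Y : 𝒱.Obj} {i : ℕ} {a : V.H Y} (ha : a ∈ V.gr Y i) :
    twOp V h Y a ∈ V.gr Y i := by
  rw [twOp_apply ha]
  exact Submodule.add_mem _ (Submodule.smul_mem _ _ ha) (Submodule.smul_mem _ _ (H.gr_mem ha))

lemma twOp_map {X Y : 𝒱.Obj} (f : X ⟶ Y) (a : V.H Y) :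
    twOp V h X (V.map f a) = V.map f (twOp V h Y a) := by
  refine gr_induction (V.isInternal Y)
    (p := fun a => twOp V h X (V.map f a) = V.map f (twOp V h Y a)) ?_ ?_ a
  · intro i a ha
    rw [twOp_apply ha, twOp_apply (V.map_mem f ha), map_add, map_smul, map_smul, H.map]
  · intro a a' ha ha'
    rw [map_add, map_add, ha, ha', map_add, map_add]

omit H in
/-- An operator of degree zero commutes with the projectors. -/
lemma proj_comm_of {Y : 𝒱.Obj} {T : Module.End V.K (V.H Y)}
    (hT : ∀ {i : ℕ} {a : V.H Y}, a ∈ V.gr Y i → T a ∈ V.gr Y i) (i : ℕ) (a : V.H Y) :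
    proj (V.isInternal Y) i (T a) = T (proj (V.isInternal Y) i a) := by
  refine gr_induction (V.isInternal Y)
    (p := fun a => proj (V.isInternal Y) i (T a) = T (proj (V.isInternal Y) i a)) ?_ ?_ a
  · intro j a ha
    by_cases hij : j = i
    · subst hij
      rw [proj_same _ (hT ha), proj_same _ ha]
    · rw [proj_ne _ (hT ha) hij, proj_ne _ ha hij, map_zero]
  · intro a a' ha ha'
    rw [map_add, map_add, ha, ha', map_add, map_add]

lemma proj_twGr {Y : 𝒱.Obj} {j : ℕ} {a : V.H Y} (ha : a ∈ twGr V h Y j) (i : ℕ) :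
    proj (V.isInternal Y) i a ∈ twGr V h Y j := by
  rw [mem_twGr] at ha ⊢
  rw [← proj_comm_of (fun ha => twOp_gr H ha), ha, map_smul]

omit H in
lemma h_of_mem {Y : 𝒱.Obj} {i j : ℕ} {a : V.H Y} (ha : a ∈ V.gr Y i) (ha' : a ∈ twGr V h Y j) :
    h Y a = (((j : V.K) - i) / 2) • a := by
  rw [mem_twGr, twOp_apply ha] at ha'
  have h1 : (2 : V.K) • h Y a = ((j : V.K) - i) • a := by
    rw [sub_smul, ← ha']; abel
  have h2 : h Y a = (2 : V.K)⁻¹ • ((2 : V.K) • h Y a) := by
    rw [smul_smul, inv_mul_cancel₀ two_ne_zero, one_smul]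
  rw [h2, h1, smul_smul]
  congr 1
  ring

end

/-- An eigenvalue on a space spanned by eigenvectors with integral eigenvalues is integral. -/
lemma int_of_eig {K : Type*} [Field K] {M : Type*} [AddCommGroup M] [Module K M]
    {T : Module.End K M} {a : M} (ha : a ∈ ⨆ z : ℤ, T.eigenspace (z : K)) (ha0 : a ≠ 0) {μ : K}
    (hμ : T a = μ • a) : ∃ z : ℤ, μ = z := by
  by_contra hne
  push Not at hne
  have h1 := Module.End.eigenspaces_iSupIndep T μ
  have h2 : (⨆ z : ℤ, T.eigenspace (z : K)) ≤ ⨆ ν, ⨆ (_ : ν ≠ μ), T.eigenspace ν := by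
    refine iSup_le fun z => ?_
    exact le_iSup₂_of_le (z : K) (Ne.symm (hne z)) le_rfl
  exact ha0 (Submodule.disjoint_def.1 h1 a (Module.End.mem_eigenspace_iff.2 hμ) (h2 ha))

section

variable (H : IsTwist V h)

include H

/-- The homogeneous components of an element of the twisted graded piece. -/
lemma twist_key {Y : 𝒱.Obj} {i j : ℕ} {a : V.H Y} (ha : a ∈ V.gr Y i) (ha' : a ∈ twGr V h Y j)
    (ha0 : a ≠ 0) : ∃ z : ℤ, h Y a = (z : V.K) • a ∧ (j : ℤ) = i + 2 * z ∧ |3 * z| ≤ i ∧
      |3 * z| ≤ 2 * Y.dim - i := by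
  have h1 := h_of_mem ha ha'
  obtain ⟨z, hz⟩ := int_of_eig (H.diag Y a) ha0 h1
  rw [hz] at h1
  refine ⟨z, h1, ?_, H.bound ha ha0 z h1⟩
  have h2 : (j : V.K) = i + 2 * z := by
    rw [← hz]; field_simp; ring
  exact_mod_cast h2

lemma twGr_isInternal (Y : 𝒱.Obj) : DirectSum.IsInternal (twGr V h Y) := by
  rw [DirectSum.isInternal_submodule_iff_iSupIndep_and_iSup_eq_top]
  constructor
  · exact (Module.End.eigenspaces_iSupIndep (twOp V h Y)).comp Nat.cast_injective
  · rw [eq_top_iff]
    rintro a -
    refine gr_induction (V.isInternal Y) (p := fun a => a ∈ iSup (twGr V h Y)) ?_ ?_ a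
    · intro i a ha
      have h1 := proj_same (V.isInternal Y) ha
      rw [← h1]
      have key : ∀ x : V.H Y, x ∈ ⨆ z : ℤ, (h Y).eigenspace (z : V.K) →
          proj (V.isInternal Y) i x ∈ iSup (twGr V h Y) := by
        intro x hx
        refine Submodule.iSup_induction (fun z : ℤ => (h Y).eigenspace (z : V.K))
          (motive := fun x => proj (V.isInternal Y) i x ∈ iSup (twGr V h Y)) hx ?_ ?_ ?_
        · intro z x hx
          rw [Module.End.mem_eigenspace_iff] at hx
          have h2 : h Y (proj (V.isInternal Y) i x) =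
              (z : V.K) • proj (V.isInternal Y) i x := by
            rw [← proj_comm_of (fun ha => H.der.gr_mem ha), hx, map_smul]
          by_cases h0 : proj (V.isInternal Y) i x = 0
          · rw [h0]; exact Submodule.zero_mem _
          · obtain ⟨h3, h4⟩ := H.bound (proj_mem _ i x) h0 z h2
            have h5 := abs_le.1 h3
            refine Submodule.mem_iSup_of_mem ((i : ℤ) + 2 * z).toNat ?_
            rw [mem_twGr, twOp_apply (proj_mem _ i x), h2, smul_smul, ← add_smul]
            congr 1
            have h6 : ((((i : ℤ) + 2 * z).toNat : ℤ)) = (i : ℤ) + 2 * z :=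
              Int.toNat_of_nonneg (by omega)
            have h7 : ((((i : ℤ) + 2 * z).toNat : ℤ) : V.K) = (((i : ℤ) + 2 * z : ℤ) : V.K) := by
              rw [h6]
            push_cast at h7
            exact h7.symm
        · rw [map_zero]; exact Submodule.zero_mem _
        · intro x y hx hy
          rw [map_add]; exact Submodule.add_mem _ hx hy
      exact key a (H.diag Y a)
    · intro a b ha hb
      exact Submodule.add_mem _ ha hb

omit H in
lemma sum_proj_eq (Y : 𝒱.Obj) (a : V.H Y) :
    ∑ i ∈ range (2 * Y.dim + 1), proj (V.isInternal Y) i a = a := by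
  have h1 := sum_proj (V.isInternal Y) (N := 2 * Y.dim + 1) (fun i hi => V.gr_eq_bot Y i (by omega))
  have h2 := congrArg (fun F => F a) h1
  simpa [LinearMap.sum_apply] using h2

/-- A property which holds for the elements of the twisted graded piece which are homogeneous for
the original grading holds for all of them. -/
lemma twGr_induction {Y : 𝒱.Obj} {j : ℕ} {p : V.H Y → Prop} (h0 : p 0)
    (hadd : ∀ a b, p a → p b → p (a + b))
    (hp : ∀ i, ∀ a ∈ V.gr Y i, a ∈ twGr V h Y j → a ≠ 0 → p a) {a : V.H Y}
    (ha : a ∈ twGr V h Y j) : p a := by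
  rw [← sum_proj_eq Y a]
  have : ∀ s : Finset ℕ, p (∑ i ∈ s, proj (V.isInternal Y) i a) := by
    intro s
    classical
    induction s using Finset.induction_on with
    | empty => simpa using h0
    | insert i s hi ih =>
      rw [Finset.sum_insert hi]
      refine hadd _ _ ?_ ih
      by_cases hne : proj (V.isInternal Y) i a = 0
      · rw [hne]; exact h0
      · exact hp i _ (proj_mem _ i a) (proj_twGr H.der ha i) hne
  exact this _

lemma twisted_isPoincare (Y : 𝒱.Obj) : IsPoincareAlgebra (twGr V h Y) Y.dim (V.tr Y) where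
  finite := (V.isPoincareAlgebra Y).finite
  isInternal := twGr_isInternal H Y
  one_mem := by
    rw [mem_twGr, twOp_apply (V.one_mem Y), H.der.one]
    simp
  mul_mem := by
    intro i j a b ha hb
    rw [mem_twGr] at ha hb ⊢
    rw [twOp_leib H.der, ha, hb, smul_mul_assoc, mul_smul_comm, ← add_smul]
    push_cast
    rfl
  comm := by
    intro j j' a b ha hb
    refine twGr_induction H (p := fun a => a * b = (-1 : V.K) ^ (j * j') • (b * a)) ?_ ?_ ?_ ha
    · simp
    · intro a a' h1 h2
      rw [add_mul, h1, h2, mul_add, smul_add]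
    · intro i a hai haj ha0
      refine twGr_induction H (p := fun b => a * b = (-1 : V.K) ^ (j * j') • (b * a)) ?_ ?_ ?_ hb
      · simp
      · intro b b' h1 h2
        rw [mul_add, h1, h2, add_mul, smul_add]
      · intro i' b hbi hbj hb0
        obtain ⟨z, -, hz, -⟩ := twist_key H hai haj ha0
        obtain ⟨z', -, hz', -⟩ := twist_key H hbi hbj hb0
        rw [V.comm hai hbi]
        congr 1
        have h1 : Even (j * j') ↔ Even (i * i') := by
          rw [Nat.even_mul, Nat.even_mul]
          have e1 : Even j ↔ Even i := by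
            rw [← Int.even_coe_nat, ← Int.even_coe_nat, hz]
            simp [Int.even_add]
          have e2 : Even j' ↔ Even i' := by
            rw [← Int.even_coe_nat, ← Int.even_coe_nat, hz']
            simp [Int.even_add]
          rw [e1, e2]
        rcases Nat.even_or_odd (i * i') with h2 | h2
        · rw [h2.neg_one_pow, (h1.2 h2).neg_one_pow]
        · have h3 : Odd (j * j') := by
            rw [← Nat.not_even_iff_odd] at h2 ⊢
            rwa [h1]
          rw [h2.neg_one_pow, h3.neg_one_pow]
  gr_zero := by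
    apply le_antisymm
    · intro a ha
      rw [← V.gr_zero]
      refine twGr_induction H (p := fun a => a ∈ V.gr Y 0) (Submodule.zero_mem _)
        (fun a b ha hb => Submodule.add_mem _ ha hb) ?_ ha
      intro i a hai haj ha0
      obtain ⟨z, -, hz, hb, -⟩ := twist_key H hai haj ha0
      have h1 := abs_le.1 hb
      have : i = 0 := by omega
      rwa [this] at hai
    · rw [Submodule.span_singleton_le_iff_mem, mem_twGr, twOp_apply (V.one_mem Y), H.der.one]
      simp
  gr_eq_bot := by
    intro j hj
    rw [eq_bot_iff]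
    intro a ha
    rw [Submodule.mem_bot]
    refine twGr_induction H (p := fun a => a = 0) rfl
      (fun a b ha hb => by rw [ha, hb, add_zero]) ?_ ha
    intro i a hai haj ha0
    exfalso
    obtain ⟨z, -, hz, hb, hb'⟩ := twist_key H hai haj ha0
    have h1 := abs_le.1 hb
    have h2 := abs_le.1 hb'
    omega
  tr_eq_zero := by
    intro j a ha hj
    refine twGr_induction H (p := fun a => V.tr Y a = 0) (map_zero _)
      (fun a b ha hb => by rw [map_add, ha, hb, add_zero]) ?_ ha
    intro i a hai haj ha0
    apply V.tr_eq_zero hai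
    rintro rfl
    obtain ⟨z, -, hz, hb, hb'⟩ := twist_key H hai haj ha0
    have h2 := abs_le.1 hb'
    push_cast at hz h2
    omega
  nondeg := fun a ha => V.nondeg a ha

lemma twisted_isPullPush {X Y : 𝒱.Obj} (f : X ⟶ Y) :
    IsPullPush (twGr V h X) (twGr V h Y) (V.tr X) (V.tr Y) (V.map f) (V.push f) where
  map_mem := by
    intro i b hb
    rw [mem_twGr] at hb ⊢
    rw [twOp_map H.der, hb, map_smul]
  tr_push := fun a b => V.tr_push f a b

lemma twisted_isCycleMap (X : 𝒱.Obj) : IsCycleMap X.V (twGr V h X) (V.tr X) (V.cl X) where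
  cl_mem := by
    intro p z hz
    rw [mem_twGr, twOp_apply (V.cl_mem hz), H.der.cl hz, smul_zero, add_zero]
  cl_fund := V.cl_fund X
  tr_cl := fun hz => V.tr_cl hz

end

/-- The Weil cohomology theory `V` with the grading twisted by `h`: the degree of an element of
degree `i` on which `h` acts by the integer `z` becomes `i + 2 z`. -/
noncomputable def twist (V : WeilCohomology.{u, v} ops) (h : Fam V) (H : IsTwist V h) :
    WeilCohomology.{u, v} ops where
  toWeilData := { V.toWeilData with gr := twGr V h }
  isPoincareAlgebra Y := twisted_isPoincare H Y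
  isFunctorial :=
    { map_id := V.isFunctorial.map_id
      map_comp := V.isFunctorial.map_comp
      isPullPush := fun f => twisted_isPullPush H f }
  isKunneth X Y := V.isKunneth X Y
  isCycleMap X := twisted_isCycleMap H X
  isCompatible :=
    { cl_mul := V.isCompatible.cl_mul
      cl_pull := V.isCompatible.cl_pull
      cl_push := V.isCompatible.cl_push }

end Pool.Agent.V8H72.Exo
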