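import Pool.Agent.V8H72.ExoForm

/-!
# Hodge theory provides the splittings and the bounds
-/

open CategoryTheory AlgebraicGeometry Finset TensorProduct
open scoped ComplexOrder

universe u v

namespace Pool.Agent.V8H72.Exo

open Pool.Agent.H914 VarClass Obj WeilCohomology

variable {k : Type u} [Field k] {𝒱 : VarClass k} {ops : CycleOps 𝒱}

section General

variable {V : WeilCohomology.{u, v} ops} {X₀ : 𝒱.Obj} {T : Submodule V.K (V.H X₀)}

lemma InKer.zero : InKer V T 0 := ⟨IsTDer.zero, fun _ _ => rfl⟩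

lemma InKer.add {n m : Fam V} (hn : InKer V T n) (hm : InKer V T m) : InKer V T (n + m) :=
  ⟨hn.1.add hm.1, fun x hx => by
    rw [Pi.add_apply, LinearMap.add_apply, hn.2 x hx, hm.2 x hx, add_zero]⟩

lemma InKer.smul {n : Fam V} (c : V.K) (hn : InKer V T n) : InKer V T (c • n) :=
  ⟨hn.1.smul c, fun x hx => by
    rw [Pi.smul_apply, LinearMap.smul_apply, hn.2 x hx, smul_zero]⟩

lemma InKer.br {n z : Fam V} (hn : InKer V T n) (hz : IsTDer V z)
    (hst : ∀ x ∈ T, z X₀ x ∈ T) : InKer V T (Exo.br z n) :=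
  ⟨hz.bracket hn.1, fun x hx => by
    rw [br_apply, hn.2 x hx, hn.2 _ (hst x hx), map_zero, sub_zero]⟩

/-- The values on the cohomology of `Y` of the tensor derivations vanishing on `T`. -/
noncomputable def kerAt (V : WeilCohomology.{u, v} ops) {X₀ : 𝒱.Obj}
    (T : Submodule V.K (V.H X₀)) (Y : 𝒱.Obj) : Submodule V.K (Module.End V.K (V.H Y)) where
  carrier := {x | ∃ n, InKer V T n ∧ n Y = x}
  add_mem' := by
    rintro _ _ ⟨n, hn, rfl⟩ ⟨m, hm, rfl⟩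
    exact ⟨n + m, hn.add hm, rfl⟩
  zero_mem' := ⟨0, InKer.zero, rfl⟩
  smul_mem' := by
    rintro c _ ⟨n, hn, rfl⟩
    exact ⟨c • n, hn.smul c, rfl⟩

lemma isHom_mul {X : 𝒱.Obj} {D : X.Cycles} (hD : X.IsCyc 1 D) :
    IsHom (V.gr X) 2 (LinearMap.mulLeft V.K (V.cl X D)) := by
  intro i a ha
  by_cases hi : 0 ≤ i
  · lift i to ℕ using hi
    rw [grZ_natCast] at ha
    have h1 := V.mul_mem (V.cl_mem hD) ha
    have e : (i : ℤ) + 2 = ((2 * 1 + i : ℕ) : ℤ) := by push_cast; ring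
    rw [e, grZ_natCast]
    exact h1
  · rw [grZ_of_neg (by omega)] at ha
    rw [(Submodule.mem_bot _).1 ha, map_zero]
    exact Submodule.zero_mem _

/-- A tensor derivation which vanishes on the primitive cohomology of `X` vanishes on the
cohomology of `X`. -/
lemma eq_zero_of_prim {X : 𝒱.Obj} {D : X.Cycles} (hD : X.IsCyc 1 D)
    (hHL : HardLefschetz V X D) {z : Fam V} (hz : IsTDer V z)
    (h : ∀ i ≤ X.dim, ∀ a ∈ V.gr X i, V.cl X D ^ (X.dim - i + 1) * a = 0 → z X a = 0) :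
    z X = 0 := by
  apply LinearMap.ext
  intro a
  have hpow : ∀ (m : ℕ) (a : V.H X), (LinearMap.mulLeft V.K (V.cl X D) ^ m) a =
      V.cl X D ^ m * a := by
    intro m a
    rw [LinearMap.pow_mulLeft, LinearMap.mulLeft_apply]
  have hzpow : ∀ m : ℕ, z X (V.cl X D ^ m) = 0 := by
    intro m
    induction m with
    | zero => rw [pow_zero]; exact hz.one X
    | succ m ih => rw [pow_succ, hz.leib, ih, hz.cl hD, zero_mul, mul_zero, add_zero]
  refine lef_induction' (V.isInternal X) (isHom_mul hD)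
    (fun i hi => V.gr_eq_bot X i (by omega)) hHL (p := fun a => z X a = 0) ?_ ?_ a
  · intro a b ha hb
    rw [map_add, ha, hb, add_zero]
  · intro i hi a ha hp j
    rw [hpow] at hp
    rw [hpow, hz.leib, hzpow, h i hi a ha hp, zero_mul, mul_zero, add_zero]

end General

variable {V : WeilCohomology.{u, v} ops} (𝓗 : HodgeTheory V)


namespace HodgeTheory

/-- **The splittings.** -/
theorem split {X₀ : 𝒱.Obj} (T : Submodule V.K (V.H X₀))
    (hT : ∀ x ∈ T, 𝓗.ph X₀ x ∈ T)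
    (hst : ∀ z : Fam V, IsTDer V z → ∀ x ∈ T, z X₀ x ∈ T) (Y : 𝒱.Obj) (z : Fam V)
    (hz : IsTDer V z) :
    ∃ n₀, InKer V T n₀ ∧ ∀ n, InKer V T n → br (z - n₀) n Y = 0 := by
  obtain ⟨D, hD, hHL, hpos⟩ := 𝓗.polarized Y
  have hstab : ∀ w : Fam V, IsTDer V w → ∀ i : ℕ, ∀ a : V.H Y, a ∈ prm V Y D i →
      w Y a ∈ prm V Y D i := by
    intro w hw i a ha
    refine mem_prm.2 ⟨hw.gr_mem (mem_prm.1 ha).1, ?_⟩
    rw [← der_pow_mul hw hD, (mem_prm.1 ha).2, map_zero]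
  obtain ⟨n₀, hn₀, hsp⟩ := split_lin (ι := 𝓗.ι) (M := V.H Y) (J := Fin (Y.dim + 1))
    (fun j => prm V Y D j) (fun j a b => 𝓗.frm Y D j a b)
    (fun j => 𝓗.isPosForm_frm hD hpos (Nat.lt_succ_iff.1 j.2))
    (kerAt V T Y)
    (by
      rintro _ ⟨n, hn, rfl⟩ j a ha
      exact hstab n hn.1 j a ha)
    (by
      rintro _ ⟨n, hn, rfl⟩ _ ⟨m, hm, rfl⟩
      exact ⟨br n m, hm.br hn.1 (hst n hn.1), rfl⟩)
    (by
      rintro _ ⟨n, hn, rfl⟩
      refine ⟨𝓗.star n Y, ⟨𝓗.star n, ⟨𝓗.isTDer_star hn.1, fun x hx => ?_⟩, rfl⟩,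
        fun j a _ b _ => 𝓗.frm_adj hn.1 hD j a b⟩
      rw [star_apply, hn.2 _ (hT x hx), 𝓗.ps_nice.zero, neg_zero])
    (z Y) (fun j a ha => hstab z hz j a ha)
    (by
      rintro _ ⟨n, hn, rfl⟩
      exact ⟨br z n, hn.br hz (hst z hz), rfl⟩)
  obtain ⟨n₁, hn₁, rfl⟩ := hn₀
  refine ⟨n₁, hn₁, fun n hn => ?_⟩
  apply eq_zero_of_prim hD hHL ((hz.sub hn₁.1).bracket hn.1)
  intro i hi a ha hp
  exact hsp (n Y) ⟨n, hn, rfl⟩ ⟨i, Nat.lt_succ_of_le hi⟩ a ⟨ha, hp⟩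

lemma le_dim {X : 𝒱.Obj} {p q : ℕ} {a : V.H X} (ha : a ∈ 𝓗.hodge X p q) (ha0 : a ≠ 0) :
    p ≤ X.dim ∧ q ≤ X.dim := by
  by_contra hne
  apply ha0
  apply V.nondeg
  intro b
  refine 𝓗.induction (P := fun b => V.tr X (a * b) = 0) ?_ ?_ ?_ b
  · rw [mul_zero, map_zero]
  · intro b b' hb hb'
    rw [mul_add, map_add, hb, hb', add_zero]
  · intro p' q' b hb
    apply 𝓗.tr_hodge (𝓗.mul_mem ha hb)
    intro h
    rw [Prod.mk.injEq] at h
    apply hne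
    omega

/-- The eigenvalues of the Hodge derivation. -/
theorem bound_der (Y : 𝒱.Obj) (i : ℕ) (x : V.H Y) (hx : x ∈ V.gr Y i) (hx0 : x ≠ 0)
    (d : V.K) (hd : 𝓗.der Y x = d • x) :
    ∃ m : ℤ, d = m ∧ |m| ≤ i ∧ |m| ≤ 2 * Y.dim - i := by
  have hsum := 𝓗.sum_cmp hx
  obtain ⟨p, hpr, hne⟩ : ∃ p ∈ range (i + 1), 𝓗.cmp p (i - p) Y x ≠ 0 := by
    by_contra hall
    push Not at hall
    exact hx0 (by rw [← hsum]; exact Finset.sum_eq_zero hall)
  have hpi := Finset.mem_range.1 hpr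
  have hmem := 𝓗.cmp_mem p (i - p) x
  have hcomm : 𝓗.der Y (𝓗.cmp p (i - p) Y x) = 𝓗.cmp p (i - p) Y (𝓗.der Y x) := by
    refine 𝓗.induction (P := fun x => 𝓗.der Y (𝓗.cmp p (i - p) Y x) =
      𝓗.cmp p (i - p) Y (𝓗.der Y x)) ?_ ?_ ?_ x
    · simp
    · intro a b ha hb
      simp only [map_add, ha, hb]
    · intro p' q' a ha
      by_cases h : p' = p ∧ q' = i - p
      · obtain ⟨rfl, rfl⟩ := h
        rw [𝓗.cmp_same ha, 𝓗.der_apply ha, map_smul, 𝓗.cmp_same ha]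
      · rw [𝓗.cmp_ne ha h, 𝓗.der_apply ha, map_smul, 𝓗.cmp_ne ha h, map_zero, smul_zero]
  rw [hd, map_smul, 𝓗.der_apply hmem, ← sub_eq_zero, ← sub_smul, smul_eq_zero] at hcomm
  have hd' : d = ((p : V.K) - ((i - p : ℕ) : V.K)) := by
    rcases hcomm with h | h
    · exact (sub_eq_zero.1 h).symm
    · exact absurd h hne
  obtain ⟨h1, h2⟩ := 𝓗.le_dim hmem hne
  refine ⟨(p : ℤ) - ((i - p : ℕ) : ℤ), by rw [hd']; push_cast; rfl, ?_, ?_⟩
  · rw [abs_le]; constructor <;> omega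
  · rw [abs_le]; constructor <;> omega

end HodgeTheory

end Pool.Agent.V8H72.Exo
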