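import Pool.Agent.V8H72.ExoRegrade

/-!
# Construction of a twist from a pair of tensor derivations
-/

open CategoryTheory AlgebraicGeometry Finset

universe u v

namespace Pool.Agent.V8H72.Exo

open Pool.Agent.H914 VarClass Obj WeilCohomology

variable {k : Type u} [Field k] {𝒱 : VarClass k} {ops : CycleOps 𝒱}

/-- The tensor derivations which vanish on the subspace `T` of the cohomology of `X₀`. -/
def InKer (V : WeilCohomology.{u, v} ops) {X₀ : 𝒱.Obj} (T : Submodule V.K (V.H X₀))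
    (n : Fam V) : Prop :=
  IsTDer V n ∧ ∀ x ∈ T, n X₀ x = 0

/-- The input of the construction: tensor derivations `D`, `E`, `F` such that on the subspace `T`
of the cohomology of `X₀` the operators `E`, `F`, `[E, F]` satisfy the relations of `sl(2)`, and
`[D, E] = 6 E`, `[D, F] = -6 F`; small eigenvalues of `D`; and splittings. -/
structure Setup (V : WeilCohomology.{u, v} ops) (X₀ : 𝒱.Obj) (T : Submodule V.K (V.H X₀))
    (D E F : Fam V) : Prop where
  hD : IsTDer V D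
  hE : IsTDer V E
  hF : IsTDer V F
  stab : ∀ z : Fam V, IsTDer V z → ∀ x ∈ T, z X₀ x ∈ T
  relE : ∀ x ∈ T, br (br E F) E X₀ x = (2 : V.K) • E X₀ x
  relF : ∀ x ∈ T, br (br E F) F X₀ x = -((2 : V.K) • F X₀ x)
  relDE : ∀ x ∈ T, br D E X₀ x = (6 : V.K) • E X₀ x
  relDF : ∀ x ∈ T, br D F X₀ x = -((6 : V.K) • F X₀ x)
  trne : ∀ Y : 𝒱.Obj, ∃ c : V.H Y, V.tr Y c ≠ 0
  bound : ∀ (Y : 𝒱.Obj) (i : ℕ) (x : V.H Y), x ∈ V.gr Y i → x ≠ 0 → ∀ d : V.K,
    D Y x = d • x → ∃ m : ℤ, d = m ∧ |m| ≤ i ∧ |m| ≤ 2 * Y.dim - i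
  split : ∀ (Y : 𝒱.Obj) (z : Fam V), IsTDer V z → ∃ n₀, InKer V T n₀ ∧
    ∀ n, InKer V T n → br (z - n₀) n Y = 0

section Ring

variable {A : Type*} [LieRing A] {K : Type*} [Field K] [CharZero K] [LieAlgebra K A]

/-- The bookkeeping in the ring of operators: a pair `e`, `f` which satisfies the relations modulo
elements with which `e` and `f` commute can be corrected. -/
lemma lie_triple {e f D x x' y y' : A}
    (hx : ⁅⁅e, f⁆, e⁆ = (2 : K) • e + x) (hx' : ⁅⁅e, f⁆, f⁆ = -((2 : K) • f) + x')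
    (hy : ⁅D, e⁆ = (6 : K) • e + y) (hy' : ⁅D, f⁆ = -((6 : K) • f) + y')
    (ex : ⁅e, x⁆ = 0) (fx : ⁅f, x⁆ = 0) (ex' : ⁅e, x'⁆ = 0) (fx' : ⁅f, x'⁆ = 0)
    (ey : ⁅e, y⁆ = 0) (fy : ⁅f, y⁆ = 0) (ey' : ⁅e, y'⁆ = 0) (fy' : ⁅f, y'⁆ = 0) :
    ⁅e + (2 : K)⁻¹ • x, f - (2 : K)⁻¹ • x'⁆ = ⁅e, f⁆ ∧
      ⁅⁅e, f⁆, e + (2 : K)⁻¹ • x⁆ = (2 : K) • (e + (2 : K)⁻¹ • x) ∧
      ⁅⁅e, f⁆, f - (2 : K)⁻¹ • x'⁆ = -((2 : K) • (f - (2 : K)⁻¹ • x')) ∧
      ⁅D, e + (2 : K)⁻¹ • x⁆ = (6 : K) • (e + (2 : K)⁻¹ • x) ∧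
      ⁅D, f - (2 : K)⁻¹ • x'⁆ = -((6 : K) • (f - (2 : K)⁻¹ • x')) := by
  have h20 : (2 : K) ≠ 0 := two_ne_zero
  have hhx : ⁅⁅e, f⁆, x⁆ = 0 := by rw [lie_lie, fx, ex, lie_zero, lie_zero, sub_zero]
  have hhx' : ⁅⁅e, f⁆, x'⁆ = 0 := by rw [lie_lie, fx', ex', lie_zero, lie_zero, sub_zero]
  have hhy : ⁅⁅e, f⁆, y⁆ = 0 := by rw [lie_lie, fy, ey, lie_zero, lie_zero, sub_zero]
  have hhy' : ⁅⁅e, f⁆, y'⁆ = 0 := by rw [lie_lie, fy', ey', lie_zero, lie_zero, sub_zero]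
  have xf : ⁅x, f⁆ = 0 := by rw [← lie_skew, fx, neg_zero]
  have yf : ⁅y, f⁆ = 0 := by rw [← lie_skew, fy, neg_zero]
  -- `x` and `x'` commute
  have xx : ⁅x, x'⁆ = 0 := by
    have h1 : x = ⁅⁅e, f⁆, e⁆ - (2 : K) • e := by rw [hx]; abel
    rw [h1, sub_lie, smul_lie, ex', smul_zero, sub_zero, lie_lie, ex', lie_zero, hhx', lie_zero,
      sub_zero]
  -- `D` commutes with `[e, f]`
  have Dh : ⁅D, ⁅e, f⁆⁆ = 0 := by
    rw [leibniz_lie, hy, hy', add_lie, lie_add, lie_neg, smul_lie, lie_smul, yf, ey']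
    abel
  have De : ⁅D, ⁅⁅e, f⁆, e⁆⁆ = (6 : K) • ⁅⁅e, f⁆, e⁆ := by
    rw [leibniz_lie, Dh, zero_lie, zero_add, hy, lie_add, lie_smul, hhy, add_zero]
  have Df : ⁅D, ⁅⁅e, f⁆, f⁆⁆ = -((6 : K) • ⁅⁅e, f⁆, f⁆) := by
    rw [leibniz_lie, Dh, zero_lie, zero_add, hy', lie_add, lie_neg, lie_smul, hhy', add_zero]
  have e2 : e + (2 : K)⁻¹ • x = (2 : K)⁻¹ • ⁅⁅e, f⁆, e⁆ := by
    rw [hx, smul_add, smul_smul, inv_mul_cancel₀ h20, one_smul]
  have f2 : f - (2 : K)⁻¹ • x' = -((2 : K)⁻¹ • ⁅⁅e, f⁆, f⁆) := by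
    rw [hx', smul_add, smul_neg, smul_smul, inv_mul_cancel₀ h20, one_smul]
    abel
  refine ⟨?_, ?_, ?_, ?_, ?_⟩
  · simp only [add_lie, lie_sub, smul_lie, lie_smul, xf, xx, ex', smul_zero, sub_zero, add_zero]
  · rw [lie_add, lie_smul, hhx, smul_zero, add_zero, hx, smul_add, smul_smul,
      mul_inv_cancel₀ h20, one_smul]
  · rw [lie_sub, lie_smul, hhx', smul_zero, sub_zero, hx', smul_sub, smul_smul,
      mul_inv_cancel₀ h20, one_smul]
    abel
  · rw [e2, lie_smul, De, smul_comm]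
  · rw [f2, lie_neg, lie_smul, Df, smul_neg, smul_neg, smul_comm]

end Ring

section

variable {V : WeilCohomology.{u, v} ops} {X₀ : 𝒱.Obj} {T : Submodule V.K (V.H X₀)}
  {D E F : Fam V}

lemma InKer.sub {n m : Fam V} (hn : InKer V T n) (hm : InKer V T m) : InKer V T (n - m) :=
  ⟨hn.1.sub hm.1, fun x hx => by
    rw [Pi.sub_apply, LinearMap.sub_apply, hn.2 x hx, hm.2 x hx, sub_zero]⟩

lemma br_congr (stab : ∀ z : Fam V, IsTDer V z → ∀ x ∈ T, z X₀ x ∈ T) {z z' w w' : Fam V}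
    (hz : IsTDer V z') (hw : IsTDer V w') (h1 : ∀ x ∈ T, z X₀ x = z' X₀ x)
    (h2 : ∀ x ∈ T, w X₀ x = w' X₀ x) : ∀ x ∈ T, br z w X₀ x = br z' w' X₀ x := by
  intro x hx
  rw [br_apply, br_apply, h2 x hx, h1 x hx, h1 _ (stab _ hw _ hx), h2 _ (stab _ hz _ hx)]

/-- A pair of tensor derivations which agree with `E`, `F` on `T` and which, on the cohomology of
`Y`, commute with all tensor derivations vanishing on `T`. -/
structure Good (T : Submodule V.K (V.H X₀)) (E F : Fam V) (Y : 𝒱.Obj) (e f : Fam V) : Prop where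
  he : IsTDer V e
  hf : IsTDer V f
  eT : ∀ x ∈ T, e X₀ x = E X₀ x
  fT : ∀ x ∈ T, f X₀ x = F X₀ x
  comm_e : ∀ n, InKer V T n → br e n Y = 0
  comm_f : ∀ n, InKer V T n → br f n Y = 0

lemma exists_good (S : Setup V X₀ T D E F) (Y : 𝒱.Obj) : ∃ e f, Good T E F Y e f := by
  obtain ⟨n, hn, hn'⟩ := S.split Y E S.hE
  obtain ⟨m, hm, hm'⟩ := S.split Y F S.hF
  refine ⟨E - n, F - m, S.hE.sub hn.1, S.hF.sub hm.1, ?_, ?_, hn', hm'⟩
  · intro x hx
    rw [Pi.sub_apply, LinearMap.sub_apply, hn.2 x hx, sub_zero]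
  · intro x hx
    rw [Pi.sub_apply, LinearMap.sub_apply, hm.2 x hx, sub_zero]

lemma Good.uniq {Y : 𝒱.Obj} {e f e' f' : Fam V} (h : Good T E F Y e f)
    (h' : Good T E F Y e' f') : br e f Y = br e' f' Y := by
  have h1 : InKer V T (e - e') := ⟨h.he.sub h'.he, fun x hx => by
    rw [Pi.sub_apply, LinearMap.sub_apply, h.eT x hx, h'.eT x hx, sub_self]⟩
  have h2 : InKer V T (f - f') := ⟨h.hf.sub h'.hf, fun x hx => by
    rw [Pi.sub_apply, LinearMap.sub_apply, h.fT x hx, h'.fT x hx, sub_self]⟩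
  have h3 := h.comm_f _ h1
  have h4 := h'.comm_e _ h2
  simp only [br, Pi.sub_apply] at h3 h4 ⊢
  have h5 : e Y * f Y - f Y * e Y - (e' Y * f' Y - f' Y * e' Y) =
      -(f Y * (e Y - e' Y) - (e Y - e' Y) * f Y) +
        (e' Y * (f Y - f' Y) - (f Y - f' Y) * e' Y) := by
    simp only [mul_sub, sub_mul]
    abel
  rw [h3, h4, neg_zero, add_zero] at h5
  exact sub_eq_zero.1 h5

lemma map_fst_inj (htr : ∀ Y : 𝒱.Obj, ∃ c : V.H Y, V.tr Y c ≠ 0) (X Y : 𝒱.Obj) {a : V.H X}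
    (ha : V.map (fst X Y) a = 0) : a = 0 := by
  apply V.nondeg
  intro b
  obtain ⟨c, hc⟩ := htr Y
  have h1 := V.tr_prod (a * b) c
  rw [map_mul (V.map (fst X Y)), ha, zero_mul, zero_mul, map_zero] at h1
  exact (mul_eq_zero.1 h1.symm).resolve_right hc

lemma map_snd_inj (htr : ∀ Y : 𝒱.Obj, ∃ c : V.H Y, V.tr Y c ≠ 0) (X Y : 𝒱.Obj) {b : V.H Y}
    (hb : V.map (snd X Y) b = 0) : b = 0 := by
  apply V.nondeg
  intro c
  obtain ⟨a, ha⟩ := htr X
  have h1 := V.tr_prod a (b * c)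
  rw [map_mul (V.map (snd X Y)), hb, zero_mul, mul_zero, map_zero] at h1
  exact (mul_eq_zero.1 h1.symm).resolve_left ha

lemma Good.left (S : Setup V X₀ T D E F) {X Y : 𝒱.Obj} {e f : Fam V}
    (h : Good T E F (X.prod Y) e f) : Good T E F X e f where
  he := h.he
  hf := h.hf
  eT := h.eT
  fT := h.fT
  comm_e n hn := by
    apply LinearMap.ext
    intro a
    apply map_fst_inj S.trne X Y
    rw [← (h.he.bracket hn.1).map, h.comm_e n hn, LinearMap.zero_apply]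
  comm_f n hn := by
    apply LinearMap.ext
    intro a
    apply map_fst_inj S.trne X Y
    rw [← (h.hf.bracket hn.1).map, h.comm_f n hn, LinearMap.zero_apply]

lemma Good.right (S : Setup V X₀ T D E F) {X Y : 𝒱.Obj} {e f : Fam V}
    (h : Good T E F (X.prod Y) e f) : Good T E F Y e f where
  he := h.he
  hf := h.hf
  eT := h.eT
  fT := h.fT
  comm_e n hn := by
    apply LinearMap.ext
    intro a
    apply map_snd_inj S.trne X Y
    rw [← (h.he.bracket hn.1).map, h.comm_e n hn, LinearMap.zero_apply]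
  comm_f n hn := by
    apply LinearMap.ext
    intro a
    apply map_snd_inj S.trne X Y
    rw [← (h.hf.bracket hn.1).map, h.comm_f n hn, LinearMap.zero_apply]

attribute [local instance] LieRing.ofAssociativeRing

/-- On the cohomology of each variety the bracket of a good pair is part of an `sl(2)`-triple. -/
lemma Good.triple (S : Setup V X₀ T D E F) {Y : 𝒱.Obj} {e f : Fam V} (h : Good T E F Y e f) :
    ∃ e₂ f₂ : Fam V, IsTDer V e₂ ∧ IsTDer V f₂ ∧ Sl2 (br e f Y) (e₂ Y) (f₂ Y) ∧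
      D Y * e₂ Y - e₂ Y * D Y = (6 : V.K) • e₂ Y ∧
      D Y * f₂ Y - f₂ Y * D Y = -((6 : V.K) • f₂ Y) := by
  have hH := h.he.bracket h.hf
  have bEF := br_congr S.stab S.hE S.hF h.eT h.fT
  have b1 := br_congr S.stab (S.hE.bracket S.hF) S.hE bEF h.eT
  have b2 := br_congr S.stab (S.hE.bracket S.hF) S.hF bEF h.fT
  have b3 := br_congr (z := D) S.stab S.hD S.hE (fun _ _ => rfl) h.eT
  have b4 := br_congr (z := D) S.stab S.hD S.hF (fun _ _ => rfl) h.fT
  set x : Fam V := br (br e f) e - (2 : V.K) • e with hxdef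
  set x' : Fam V := br (br e f) f + (2 : V.K) • f with hx'def
  set y : Fam V := br D e - (6 : V.K) • e with hydef
  set y' : Fam V := br D f + (6 : V.K) • f with hy'def
  have hx : InKer V T x := ⟨(hH.bracket h.he).sub (h.he.smul 2), fun t ht => by
    rw [hxdef, Pi.sub_apply, Pi.smul_apply, LinearMap.sub_apply, LinearMap.smul_apply, b1 t ht,
      S.relE t ht, h.eT t ht, sub_self]⟩
  have hx' : InKer V T x' := ⟨(hH.bracket h.hf).add (h.hf.smul 2), fun t ht => by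
    rw [hx'def, Pi.add_apply, Pi.smul_apply, LinearMap.add_apply, LinearMap.smul_apply, b2 t ht,
      S.relF t ht, h.fT t ht, neg_add_cancel]⟩
  have hy : InKer V T y := ⟨(S.hD.bracket h.he).sub (h.he.smul 6), fun t ht => by
    rw [hydef, Pi.sub_apply, Pi.smul_apply, LinearMap.sub_apply, LinearMap.smul_apply, b3 t ht,
      S.relDE t ht, h.eT t ht, sub_self]⟩
  have hy' : InKer V T y' := ⟨(S.hD.bracket h.hf).add (h.hf.smul 6), fun t ht => by
    rw [hy'def, Pi.add_apply, Pi.smul_apply, LinearMap.add_apply, LinearMap.smul_apply, b4 t ht,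
      S.relDF t ht, h.fT t ht, neg_add_cancel]⟩
  have key := lie_triple (K := V.K) (A := Module.End V.K (V.H Y)) (e := e Y) (f := f Y)
    (D := D Y) (x := x Y) (x' := x' Y) (y := y Y) (y' := y' Y)
    (by
      change br (br e f) e Y = (2 : V.K) • e Y + (br (br e f) e Y - (2 : V.K) • e Y)
      abel)
    (by
      change br (br e f) f Y = -((2 : V.K) • f Y) + (br (br e f) f Y + (2 : V.K) • f Y)
      abel)
    (by
      change br D e Y = (6 : V.K) • e Y + (br D e Y - (6 : V.K) • e Y)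
      abel)
    (by
      change br D f Y = -((6 : V.K) • f Y) + (br D f Y + (6 : V.K) • f Y)
      abel)
    (h.comm_e x hx) (h.comm_f x hx) (h.comm_e x' hx') (h.comm_f x' hx')
    (h.comm_e y hy) (h.comm_f y hy) (h.comm_e y' hy') (h.comm_f y' hy')
  obtain ⟨k1, k2, k3, k4, k5⟩ := key
  have two : ∀ z : Module.End V.K (V.H Y), (2 : V.K) • z = 2 * z := by
    intro z
    rw [ofNat_smul_eq_nsmul, nsmul_eq_mul]
    rfl
  refine ⟨e + (2 : V.K)⁻¹ • x, f - (2 : V.K)⁻¹ • x', h.he.add (hx.1.smul _),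
    h.hf.sub (hx'.1.smul _), ⟨k1, ?_, ?_⟩, k4, k5⟩
  · rw [← two]; exact k2
  · rw [← two]; exact k3

/-- The family of the brackets of good pairs. -/
noncomputable def hFam (S : Setup V X₀ T D E F) : Fam V := fun Y =>
  br (exists_good S Y).choose (exists_good S Y).choose_spec.choose Y

lemma hFam_eq (S : Setup V X₀ T D E F) {Y : 𝒱.Obj} {e f : Fam V} (h : Good T E F Y e f) :
    hFam S Y = br e f Y :=
  Good.uniq (exists_good S Y).choose_spec.choose_spec h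

/-- **The twist.** -/
theorem isTwist_hFam [IsAlgClosed V.K] (S : Setup V X₀ T D E F) : IsTwist V (hFam S) where
  der :=
    { leib := by
        intro Y a b
        obtain ⟨e, f, h⟩ := exists_good S Y
        rw [hFam_eq S h]
        exact (h.he.bracket h.hf).leib a b
      gr_mem := by
        intro Y i a ha
        obtain ⟨e, f, h⟩ := exists_good S Y
        rw [hFam_eq S h]
        exact (h.he.bracket h.hf).gr_mem ha
      map := by
        intro X Y φ a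
        obtain ⟨e, f, h⟩ := exists_good S (X.prod Y)
        rw [hFam_eq S (h.left S), hFam_eq S (h.right S)]
        exact (h.he.bracket h.hf).map φ a
      cl := by
        intro Y p c hc
        obtain ⟨e, f, h⟩ := exists_good S Y
        rw [hFam_eq S h]
        exact (h.he.bracket h.hf).cl hc
      tr := by
        intro Y a
        obtain ⟨e, f, h⟩ := exists_good S Y
        rw [hFam_eq S h]
        exact (h.he.bracket h.hf).tr a }
  diag := by
    intro Y a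
    obtain ⟨e, f, h⟩ := exists_good S Y
    obtain ⟨e₂, f₂, -, -, h1, -, -⟩ := h.triple S
    rw [hFam_eq S h]
    exact h_diag h1 a
  bound := by
    intro Y i a ha ha0 z hz
    obtain ⟨e, f, h⟩ := exists_good S Y
    obtain ⟨e₂, f₂, he, hf, h1, h2, h3⟩ := h.triple S
    rw [hFam_eq S h] at hz
    obtain ⟨z₁, hz₁, hb₁⟩ := weight_bound h1 h2 h3 (V.gr Y i) (fun x hx => he.gr_mem hx)
      (fun x hx => hf.gr_mem hx) (fun x hx => S.hD.gr_mem hx) i (by
        intro x hx hx0 d hd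
        obtain ⟨m, hm, hm', -⟩ := S.bound Y i x hx hx0 d hd
        exact ⟨m, hm, hm'⟩) ha ha0 hz
    obtain ⟨z₂, hz₂, hb₂⟩ := weight_bound h1 h2 h3 (V.gr Y i) (fun x hx => he.gr_mem hx)
      (fun x hx => hf.gr_mem hx) (fun x hx => S.hD.gr_mem hx) (2 * Y.dim - i) (by
        intro x hx hx0 d hd
        obtain ⟨m, hm, -, hm'⟩ := S.bound Y i x hx hx0 d hd
        exact ⟨m, hm, hm'⟩) ha ha0 hz
    obtain rfl : z = z₁ := by exact_mod_cast hz₁
    obtain rfl : z = z₂ := by exact_mod_cast hz₂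
    exact ⟨hb₁, hb₂⟩

end

end Pool.Agent.V8H72.Exo
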