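import Pool.Agent.R713.QuatExtend

/-!
# Invariant maximal nonnegative subspaces with prescribed spectrum, quaternionic case
-/

set_option autoImplicit false

namespace Pool.Agent.V8H72

open Quaternion MulOpposite Polynomial Pool.Agent.R713

/-! ### similarity of quaternions -/

theorem q_sq_eq (x : ℍ[ℝ]) :
    x * x = ((2 * x.re : ℝ) : ℍ[ℝ]) * x - ((normSq x : ℝ) : ℍ[ℝ]) := by
  have h1 : x * star x = ((normSq x : ℝ) : ℍ[ℝ]) := Quaternion.self_mul_star x
  have h2 : x + star x = ((2 * x.re : ℝ) : ℍ[ℝ]) := Quaternion.self_add_star' x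
  have h3 : ((2 * x.re : ℝ) : ℍ[ℝ]) * x = x * x + x * star x := by
    rw [Quaternion.coe_commutes, ← h2, mul_add]
  rw [h3, h1, add_sub_cancel_right]

/-- a quaternion commuting with everything is real -/
theorem central_real (x : ℍ[ℝ]) (h : ∀ c : ℍ[ℝ], x * c = c * x) : x = (x.re : ℍ[ℝ]) := by
  obtain ⟨c, c0, c1, c2, c3⟩ : ∃ c : ℍ[ℝ], c.re = 0 ∧ c.imI = 1 ∧ c.imJ = 0 ∧ c.imK = 0 :=
    ⟨⟨0, 1, 0, 0⟩, rfl, rfl, rfl, rfl⟩
  obtain ⟨d, d0, d1, d2, d3⟩ : ∃ c : ℍ[ℝ], c.re = 0 ∧ c.imI = 0 ∧ c.imJ = 1 ∧ c.imK = 0 :=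
    ⟨⟨0, 0, 1, 0⟩, rfl, rfl, rfl, rfl⟩
  have a1 : (x * c).imJ = (c * x).imJ := by rw [h]
  have a2 : (x * c).imK = (c * x).imK := by rw [h]
  have a3 : (x * d).imK = (d * x).imK := by rw [h]
  rw [Quaternion.imJ_mul, Quaternion.imJ_mul, c0, c1, c2, c3] at a1
  rw [Quaternion.imK_mul, Quaternion.imK_mul, c0, c1, c2, c3] at a2
  rw [Quaternion.imK_mul, Quaternion.imK_mul, d0, d1, d2, d3] at a3
  apply Quaternion.ext
  · rw [Quaternion.re_coe]
  · rw [Quaternion.imI_coe]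
    linarith
  · rw [Quaternion.imJ_coe]
    linarith
  · rw [Quaternion.imK_coe]
    linarith

/-- quaternions with the same real part and the same norm are similar -/
theorem similar_of_eq (x y : ℍ[ℝ]) (h1 : y.re = x.re) (h2 : normSq y = normSq x) :
    ∃ q : ℍ[ℝ], q ≠ 0 ∧ y * q = q * x := by
  have key : ∀ c : ℍ[ℝ], y * (y * c - c * star x) = (y * c - c * star x) * x := by
    intro c
    have e1 : star x = ((2 * x.re : ℝ) : ℍ[ℝ]) - x := by
      have := Quaternion.self_add_star' x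
      rw [← this]
      abel
    have e2 : star x * x = ((normSq x : ℝ) : ℍ[ℝ]) := Quaternion.star_mul_self x
    rw [mul_sub, sub_mul, ← mul_assoc, q_sq_eq y, h1, h2, mul_assoc c, e2, sub_mul, e1]
    rw [mul_sub, mul_sub, ← Quaternion.coe_commutes, ← mul_assoc, ← Quaternion.coe_commutes]
    rw [← Quaternion.coe_commutes (normSq x) c]
    simp only [mul_assoc]
    abel
  by_cases hc : ∃ c : ℍ[ℝ], y * c - c * star x ≠ 0
  · obtain ⟨c, hc⟩ := hc
    exact ⟨_, hc, key c⟩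
  · push Not at hc
    have h3 := hc 1
    rw [mul_one, one_mul, sub_eq_zero] at h3
    have h4 : y = (y.re : ℍ[ℝ]) := by
      apply central_real
      intro c
      have := hc c
      rw [sub_eq_zero] at this
      rw [this, h3]
    refine ⟨1, one_ne_zero, ?_⟩
    rw [mul_one, one_mul]
    have h5 : x = star y := by rw [h3, star_star]
    rw [h5, h4, Quaternion.star_coe]

/-- the real quadratic polynomial of a quaternion -/
noncomputable def qp (l : ℍ[ℝ]) : ℝ[X] := X ^ 2 - C (2 * l.re) * X + C (normSq l)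

theorem qp_monic (l : ℍ[ℝ]) : (qp l).Monic := by
  unfold qp
  monicity!

theorem qp_ne_zero (l : ℍ[ℝ]) : qp l ≠ 0 := (qp_monic l).ne_zero

theorem aeval_qp (l m : ℍ[ℝ]) :
    aeval m (qp l) = m * m - ((2 * l.re : ℝ) : ℍ[ℝ]) * m + ((normSq l : ℝ) : ℍ[ℝ]) := by
  unfold qp
  rw [map_add, map_sub, map_mul, map_pow, aeval_X, aeval_C, aeval_C, pow_two]
  rfl

theorem aeval_qp_self (l : ℍ[ℝ]) : aeval l (qp l) = 0 := by
  rw [aeval_qp, q_sq_eq]
  abel

/-- the roots of `qp l` are similar to `l` -/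
theorem similar_of_root (l m : ℍ[ℝ]) (h : aeval m (qp l) = 0) :
    ∃ q : ℍ[ℝ], q ≠ 0 ∧ m * q = q * l := by
  rw [aeval_qp, q_sq_eq m] at h
  have hre : m.re = l.re := by
    by_contra hne
    have e1 : ((2 * m.re - 2 * l.re : ℝ) : ℍ[ℝ]) * m = ((normSq m - normSq l : ℝ) : ℍ[ℝ]) := by
      rw [Quaternion.coe_sub, Quaternion.coe_sub, sub_mul]
      have h' := h
      rw [← sub_eq_zero]
      rw [← h']
      abel
    have hc : (2 * m.re - 2 * l.re : ℝ) ≠ 0 := fun h0 => hne (by linarith)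
    have e2 : m = (((2 * m.re - 2 * l.re)⁻¹ * (normSq m - normSq l) : ℝ) : ℍ[ℝ]) := by
      rw [Quaternion.coe_mul, ← e1, ← mul_assoc, ← Quaternion.coe_mul, inv_mul_cancel₀ hc]
      simp
    set r : ℝ := (2 * m.re - 2 * l.re)⁻¹ * (normSq m - normSq l) with hr
    have hmr : m.re = r := by rw [e2]; simp
    have hmn : normSq m = r ^ 2 := by
      rw [e2, Quaternion.normSq_coe]
    have e3 := congrArg (fun q : ℍ[ℝ] => q.re) e1
    simp only [Quaternion.re_coe] at e3
    have e4 : (((2 * m.re - 2 * l.re : ℝ) : ℍ[ℝ]) * m).re = (2 * m.re - 2 * l.re) * m.re := by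
      rw [Quaternion.coe_mul_eq_smul]
      simp
    rw [e4, hmr, hmn] at e3
    have hn : normSq l = l.re ^ 2 + l.imI ^ 2 + l.imJ ^ 2 + l.imK ^ 2 := Quaternion.normSq_def' l
    have h5 : (r - l.re) ^ 2 + l.imI ^ 2 + l.imJ ^ 2 + l.imK ^ 2 = 0 := by
      nlinarith
    have h6 : (r - l.re) ^ 2 = 0 := by
      nlinarith [sq_nonneg (r - l.re), sq_nonneg l.imI, sq_nonneg l.imJ, sq_nonneg l.imK]
    have h7 : r - l.re = 0 := by
      rwa [sq_eq_zero_iff] at h6
    apply hne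
    rw [hmr]
    linarith
  apply similar_of_eq l m hre
  rw [hre] at h
  have : ((normSq l : ℝ) : ℍ[ℝ]) = ((normSq m : ℝ) : ℍ[ℝ]) := by
    rw [← sub_eq_zero, ← h]
    abel
  exact (Quaternion.coe_injective this).symm

/-- sets of quaternions closed under similarity -/
def SimClosed (S : Set ℍ[ℝ]) : Prop := ∀ l ∈ S, ∀ q : ℍ[ℝ], q ≠ 0 → q⁻¹ * l * q ∈ S

theorem SimClosed.mem_of {S : Set ℍ[ℝ]} (h : SimClosed S) {l m q : ℍ[ℝ]} (hl : l ∈ S)
    (hq : q ≠ 0) (he : m * q = q * l) : m ∈ S := by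
  have h1 := h l hl q⁻¹ (inv_ne_zero hq)
  rw [inv_inv, ← he, mul_assoc, mul_inv_cancel₀ hq, mul_one] at h1
  exact h1

theorem SimClosed.compl {S : Set ℍ[ℝ]} (h : SimClosed S) : SimClosed Sᶜ := by
  intro l hl q hq hS
  apply hl
  have h1 := h _ hS q⁻¹ (inv_ne_zero hq)
  rw [inv_inv] at h1
  have : q * (q⁻¹ * l * q) * q⁻¹ = l := by
    rw [← mul_assoc, ← mul_assoc, mul_inv_cancel₀ hq, one_mul, mul_assoc, mul_inv_cancel₀ hq,
      mul_one]
  rwa [this] at h1

/-- all quaternionic roots of `p` are in `S` -/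
def RootsIn (S : Set ℍ[ℝ]) (p : ℝ[X]) : Prop := ∀ l : ℍ[ℝ], aeval l p = 0 → l ∈ S

theorem rootsIn_qp {S : Set ℍ[ℝ]} (h : SimClosed S) {l : ℍ[ℝ]} (hl : l ∈ S) :
    RootsIn S (qp l) := by
  intro m hm
  obtain ⟨q, hq, he⟩ := similar_of_root l m hm
  exact h.mem_of hl hq he

theorem RootsIn.mul {S : Set ℍ[ℝ]} {p q : ℝ[X]} (hp : RootsIn S p) (hq : RootsIn S q) :
    RootsIn S (p * q) := by
  intro l hl
  rw [map_mul] at hl
  rcases mul_eq_zero.1 hl with h | h
  · exact hp l h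
  · exact hq l h

theorem isIntegral_q (l : ℍ[ℝ]) : IsIntegral ℝ l := ⟨qp l, qp_monic l, aeval_qp_self l⟩

theorem minpoly_dvd_qp (l : ℍ[ℝ]) : minpoly ℝ l ∣ qp l := minpoly.dvd ℝ l (aeval_qp_self l)

theorem minpoly_irreducible (l : ℍ[ℝ]) : Irreducible (minpoly ℝ l) :=
  minpoly.irreducible (isIntegral_q l)

/-- a nonconstant real polynomial has a quaternionic root -/
theorem exists_root (p : ℝ[X]) (hp : Irreducible p) : ∃ l : ℍ[ℝ], aeval l p = 0 := by
  obtain ⟨w, hw⟩ := IsAlgClosed.exists_aeval_eq_zero ℂ p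
    (by
      intro h0
      apply hp.not_isUnit
      rw [Polynomial.isUnit_iff_degree_eq_zero]
      exact h0)
  refine ⟨Quaternion.ofComplex w, ?_⟩
  rw [Polynomial.aeval_algHom_apply, hw, map_zero]

/-- real polynomials without common quaternionic roots are coprime -/
theorem coprime_of_roots {p q : ℝ[X]} (hp : p ≠ 0)
    (h : ∀ l : ℍ[ℝ], aeval l p = 0 → aeval l q = 0 → False) : IsCoprime p q := by
  apply isCoprime_of_irreducible_dvd (fun h0 => hp h0.1)
  intro z hz h1 h2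
  obtain ⟨l, hl⟩ := exists_root z hz
  obtain ⟨a, rfl⟩ := h1
  obtain ⟨b, rfl⟩ := h2
  apply h l
  · rw [map_mul, hl, zero_mul]
  · rw [map_mul, hl, zero_mul]

/-- an irreducible real polynomial with a root in a similarity closed set has all roots there -/
theorem rootsIn_of_irreducible {S : Set ℍ[ℝ]} (h : SimClosed S) {p : ℝ[X]} (hp : Irreducible p)
    {l : ℍ[ℝ]} (hl : l ∈ S) (hlp : aeval l p = 0) : RootsIn S p := by
  intro m hm
  have h1 : minpoly ℝ l ∣ p := minpoly.dvd ℝ l hlp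
  have h2 : p ∣ minpoly ℝ l := by
    obtain ⟨c, hc⟩ := h1
    have h3 : IsUnit c := by
      rcases hp.isUnit_or_isUnit hc with h4 | h4
      · exact absurd h4 (minpoly_irreducible l).not_isUnit
      · exact h4
    obtain ⟨u, rfl⟩ := h3
    rw [hc]
    exact ⟨↑u⁻¹, by rw [mul_assoc, Units.mul_inv, mul_one]⟩
  obtain ⟨c, hc⟩ := h2.trans (minpoly_dvd_qp l)
  apply rootsIn_qp h hl
  rw [hc, map_mul, hm, zero_mul]

/-- splitting of a polynomial along a similarity closed set -/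
theorem split_poly {S : Set ℍ[ℝ]} (h : SimClosed S) (p : ℝ[X]) (hp : p ≠ 0) :
    ∃ a b : ℝ[X], p = a * b ∧ RootsIn S a ∧ RootsIn Sᶜ b := by
  classical
  induction p using WfDvdMonoid.induction_on_irreducible with
  | zero => exact absurd rfl hp
  | unit u hu =>
    obtain ⟨r, hr, rfl⟩ := Polynomial.isUnit_iff.1 hu
    refine ⟨1, C r, by rw [one_mul], ?_, ?_⟩
    · intro l hl
      rw [map_one] at hl
      exact absurd hl one_ne_zero
    · intro l hl
      rw [aeval_C] at hl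
      have : (algebraMap ℝ ℍ[ℝ]) r ≠ 0 := by
        rw [Ne, map_eq_zero_iff _ (algebraMap ℝ ℍ[ℝ]).injective]
        exact hr.ne_zero
      exact absurd hl this
  | mul p i hp0 hi ih =>
    obtain ⟨a, b, hab, ha, hb⟩ := ih hp0
    obtain ⟨l, hl⟩ := exists_root i hi
    by_cases hlS : l ∈ S
    · refine ⟨i * a, b, by rw [hab, mul_assoc], ?_, hb⟩
      exact (rootsIn_of_irreducible h hi hlS hl).mul ha
    · refine ⟨a, i * b, by rw [hab]; ring, ha, ?_⟩
      exact (rootsIn_of_irreducible h.compl hi hlS hl).mul hb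

/-! ### polynomials of a map -/

section

variable {V : Type*} [AddCommGroup V] [Module ℍ[ℝ]ᵐᵒᵖ V] [Module ℝ V] [IsScalarTower ℝ ℍ[ℝ]ᵐᵒᵖ V]

theorem smul_real_comm (r : ℝ) (c : ℍ[ℝ]ᵐᵒᵖ) (v : V) : r • c • v = c • r • v := by
  rw [← op_real_smul, ← op_real_smul, smul_smul, smul_smul]
  congr 1
  have : c = op (unop c) := by rw [op_unop]
  rw [this, ← op_mul, ← op_mul, Quaternion.coe_commutes]

theorem aeval_smul (A : V →ₗ[ℍ[ℝ]ᵐᵒᵖ] V) (p : ℝ[X]) (c : ℍ[ℝ]ᵐᵒᵖ) (x : V) :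
    aeval (toR A) p (c • x) = c • aeval (toR A) p x := by
  induction p using Polynomial.induction_on' with
  | add p q hp hq =>
    rw [map_add, LinearMap.add_apply, LinearMap.add_apply, hp, hq, smul_add]
  | monomial n a =>
    rw [aeval_monomial, Module.algebraMap_end_eq_smul_id]
    have h1 : ∀ n : ℕ, ((toR A) ^ n) (c • x) = c • ((toR A) ^ n) x := by
      intro n
      induction n with
      | zero => simp
      | succ n ih =>
        rw [pow_succ', Module.End.mul_apply, Module.End.mul_apply, ih, toR_apply, toR_apply,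
          map_smul]
    change a • ((toR A) ^ n) (c • x) = c • (a • ((toR A) ^ n) x)
    rw [h1, smul_real_comm]

/-- `x` is an eigenvector for `l` -/
theorem aeval_qp_eigen (A : V →ₗ[ℍ[ℝ]ᵐᵒᵖ] V) {x : V} {l : ℍ[ℝ]} (h : A x = op l • x) :
    aeval (toR A) (qp l) x = 0 := by
  have h1 : aeval (toR A) (qp l) x = A (A x) - (2 * l.re) • A x + normSq l • x := by
    unfold qp
    rw [map_add, map_sub, map_mul, map_pow, aeval_X, aeval_C, aeval_C, pow_two,
      LinearMap.add_apply, LinearMap.sub_apply, Module.End.mul_apply, Module.End.mul_apply,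
      Module.algebraMap_end_apply, Module.algebraMap_end_apply]
    rfl
  rw [h1, h, map_smul, h, smul_smul, ← op_mul, ← op_real_smul, ← op_real_smul, smul_smul,
    ← op_mul, ← sub_smul, ← add_smul, ← op_sub, ← op_add, q_sq_eq]
  rw [← Quaternion.coe_commutes]
  have : ((2 * l.re : ℝ) : ℍ[ℝ]) * l - ((normSq l : ℝ) : ℍ[ℝ]) - ((2 * l.re : ℝ) : ℍ[ℝ]) * l
      + ((normSq l : ℝ) : ℍ[ℝ]) = 0 := by abel
  rw [this, op_zero, zero_smul]

/-- a vector killed by `qp l` gives an eigenvector for a quaternion similar to `l` -/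
theorem eigen_of_qp (A : V →ₗ[ℍ[ℝ]ᵐᵒᵖ] V) (R : Submodule ℍ[ℝ]ᵐᵒᵖ V) (hR : ∀ x ∈ R, A x ∈ R)
    {x : V} (hx : x ∈ R) (hx0 : x ≠ 0) {l : ℍ[ℝ]} (h : aeval (toR A) (qp l) x = 0) :
    ∃ y ∈ R, y ≠ 0 ∧ A y = op l • y := by
  have h1 : aeval (toR A) (qp l) x = A (A x) - (2 * l.re) • A x + normSq l • x := by
    unfold qp
    rw [map_add, map_sub, map_mul, map_pow, aeval_X, aeval_C, aeval_C, pow_two,
      LinearMap.add_apply, LinearMap.sub_apply, Module.End.mul_apply, Module.End.mul_apply,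
      Module.algebraMap_end_apply, Module.algebraMap_end_apply]
    rfl
  rw [h1] at h
  by_cases h0 : A x - op (star l) • x = 0
  · -- `x` is an eigenvector for `star l`
    obtain ⟨q, hq, he⟩ := similar_of_eq l (star l) (Quaternion.re_star l)
      (Quaternion.normSq_star l)
    have hAx : A x = op (star l) • x := sub_eq_zero.1 h0
    refine ⟨op q • x, R.smul_mem _ hx, ?_, ?_⟩
    · intro h2
      apply hx0
      have h3 : op q⁻¹ • op q • x = 0 := by rw [h2, smul_zero]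
      rw [smul_smul, ← op_mul, mul_inv_cancel₀ hq, op_one, one_smul] at h3
      exact h3
    · rw [map_smul, hAx, smul_smul, smul_smul, ← op_mul, ← op_mul, he]
  · refine ⟨A x - op (star l) • x, R.sub_mem (hR x hx) (R.smul_mem _ hx), h0, ?_⟩
    rw [map_sub, map_smul, smul_sub, smul_smul, ← op_mul, Quaternion.star_mul_self, op_real_smul]
    have e1 : star l = ((2 * l.re : ℝ) : ℍ[ℝ]) - l := by
      have := Quaternion.self_add_star' l
      rw [← this]
      abel
    rw [e1, op_sub, sub_smul, op_real_smul]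
    rw [← sub_eq_zero]
    rw [← h]
    abel

/-- every vector is killed by a polynomial whose roots are eigenvalues -/
theorem exists_annihilator [FiniteDimensional ℝ V] (A : V →ₗ[ℍ[ℝ]ᵐᵒᵖ] V)
    (R : Submodule ℍ[ℝ]ᵐᵒᵖ V) (hR : ∀ x ∈ R, A x ∈ R) {x : V} (hx : x ∈ R) :
    ∃ p : ℝ[X], p ≠ 0 ∧ aeval (toR A) p x = 0 ∧
      RootsIn {l | ∃ y ∈ R, y ≠ 0 ∧ A y = op l • y} p := by
  classical
  have hex : ∃ k : ℕ, ∃ p : ℝ[X], p ≠ 0 ∧ p.natDegree = k ∧ aeval (toR A) p x = 0 := by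
    refine ⟨_, (toR A).charpoly, (LinearMap.charpoly_monic _).ne_zero, rfl, ?_⟩
    rw [LinearMap.aeval_self_charpoly, LinearMap.zero_apply]
  obtain ⟨p, hp0, hpk, hpx⟩ := Nat.find_spec hex
  have hmin : ∀ q : ℝ[X], q ≠ 0 → aeval (toR A) q x = 0 → p.natDegree ≤ q.natDegree := by
    intro q hq hqx
    rw [hpk]
    exact Nat.find_min' hex ⟨q, hq, rfl, hqx⟩
  refine ⟨p, hp0, hpx, fun l hl => ?_⟩
  obtain ⟨s, hs⟩ : minpoly ℝ l ∣ p := minpoly.dvd ℝ l hl
  have hm0 : minpoly ℝ l ≠ 0 := (minpoly_irreducible l).ne_zero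
  have hs0 : s ≠ 0 := fun h => hp0 (by rw [hs, h, mul_zero])
  have hdeg : p.natDegree = (minpoly ℝ l).natDegree + s.natDegree := by
    rw [hs, natDegree_mul hm0 hs0]
  have hpos : 0 < (minpoly ℝ l).natDegree := minpoly.natDegree_pos (isIntegral_q l)
  have hsx : aeval (toR A) s x ≠ 0 := by
    intro h
    have := hmin s hs0 h
    omega
  have hmx : aeval (toR A) (minpoly ℝ l) (aeval (toR A) s x) = 0 := by
    rw [← Module.End.mul_apply, ← map_mul, ← hs]
    exact hpx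
  obtain ⟨c, hc⟩ := minpoly_dvd_qp l
  have hqx : aeval (toR A) (qp l) (aeval (toR A) s x) = 0 := by
    rw [hc, mul_comm, map_mul, Module.End.mul_apply, hmx, map_zero]
  exact eigen_of_qp A R hR (aeval_mem A R hR s x hx) hsx hqx

/-- the sum of the root subspaces for a set of quaternions -/
noncomputable def rootSub (A : V →ₗ[ℍ[ℝ]ᵐᵒᵖ] V) (S : Set ℍ[ℝ]) : Submodule ℍ[ℝ]ᵐᵒᵖ V where
  carrier := {x | ∃ p : ℝ[X], p ≠ 0 ∧ RootsIn S p ∧ aeval (toR A) p x = 0}
  add_mem' := by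
    rintro a b ⟨p, hp0, hp, hpa⟩ ⟨q, hq0, hq, hqb⟩
    refine ⟨p * q, mul_ne_zero hp0 hq0, hp.mul hq, ?_⟩
    rw [map_add, map_mul, Module.End.mul_apply, Module.End.mul_apply, hqb, map_zero, add_zero,
      ← Module.End.mul_apply, ← map_mul, mul_comm, map_mul, Module.End.mul_apply, hpa, map_zero]
  zero_mem' := ⟨1, one_ne_zero, fun l hl => absurd (by rwa [map_one] at hl) one_ne_zero,
    map_zero _⟩
  smul_mem' := by
    rintro c a ⟨p, hp0, hp, hpa⟩
    exact ⟨p, hp0, hp, by rw [aeval_smul, hpa, smul_zero]⟩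

theorem mem_rootSub (A : V →ₗ[ℍ[ℝ]ᵐᵒᵖ] V) (S : Set ℍ[ℝ]) (x : V) :
    x ∈ rootSub A S ↔ ∃ p : ℝ[X], p ≠ 0 ∧ RootsIn S p ∧ aeval (toR A) p x = 0 := Iff.rfl

theorem rootSub_invariant (A : V →ₗ[ℍ[ℝ]ᵐᵒᵖ] V) (S : Set ℍ[ℝ]) :
    ∀ x ∈ rootSub A S, A x ∈ rootSub A S := by
  rintro x ⟨p, hp0, hp, hpx⟩
  refine ⟨p, hp0, hp, ?_⟩
  have h1 : A x = aeval (toR A) (X : ℝ[X]) x := by rw [aeval_X]; rfl
  rw [h1, ← Module.End.mul_apply, ← map_mul, mul_comm, map_mul, Module.End.mul_apply, hpx,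
    map_zero]

end

/-! ### orthogonality -/

section

variable {V : Type*} [AddCommGroup V] [Module ℍ[ℝ]ᵐᵒᵖ V] [Module ℝ V] [IsScalarTower ℝ ℍ[ℝ]ᵐᵒᵖ V]
variable {G : V → V → ℍ[ℝ]}

theorem aeval_left (h : QHerm G) (A : V →ₗ[ℍ[ℝ]ᵐᵒᵖ] V) (hA : ∀ x y, G (A x) y = -G x (A y))
    (p : ℝ[X]) (x y : V) :
    G (aeval (toR A) p x) y = G x (aeval (toR A) (p.comp (-X)) y) := by
  induction p using Polynomial.induction_on' with
  | add p q hp hq =>
    rw [map_add, LinearMap.add_apply, h.add_left, hp, hq, add_comp, map_add, LinearMap.add_apply,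
      h.add_right]
  | monomial n a =>
    have h1 : ∀ (n : ℕ) (x y : V), G (((toR A) ^ n) x) y = G x (((-(toR A)) ^ n) y) := by
      intro n
      induction n with
      | zero => intro x y; simp
      | succ n ih =>
        intro x y
        rw [pow_succ, Module.End.mul_apply, ih, toR_apply, hA, ← h.neg_right, pow_succ',
          Module.End.mul_apply, LinearMap.neg_apply, toR_apply]
    rw [monomial_comp, map_mul, aeval_C, map_pow, map_neg, aeval_X, aeval_monomial,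
      Module.End.mul_apply, Module.End.mul_apply, Module.algebraMap_end_apply,
      Module.algebraMap_end_apply, ← op_real_smul, ← op_real_smul, h.smul_left, h.smul_right,
      Quaternion.star_coe, h1, Quaternion.coe_commutes]

theorem orth (h : QHerm G) (A : V →ₗ[ℍ[ℝ]ᵐᵒᵖ] V) (hA : ∀ x y, G (A x) y = -G x (A y))
    {p q : ℝ[X]} (hq : q ≠ 0) {x y : V} (hx : aeval (toR A) p x = 0)
    (hy : aeval (toR A) q y = 0)
    (hpq : ∀ l : ℍ[ℝ], aeval l p = 0 → aeval (-l) q = 0 → False) : G x y = 0 := by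
  have hc : IsCoprime q (p.comp (-X)) := by
    apply coprime_of_roots hq
    intro l h1 h2
    apply hpq (-l)
    · rw [aeval_comp, map_neg, aeval_X] at h2
      exact h2
    · rw [neg_neg]
      exact h1
  obtain ⟨a, b, hab⟩ := hc
  have hy' : y = aeval (toR A) (p.comp (-X)) (aeval (toR A) b y) := by
    have h1 := congrArg (fun r => aeval (toR A) r y) hab
    simp only [map_add, map_one, LinearMap.add_apply, map_mul, Module.End.mul_apply, hy, map_zero,
      zero_add, Module.End.one_apply] at h1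
    conv_lhs => rw [← h1]
    rw [← Module.End.mul_apply, ← map_mul, mul_comm, map_mul, Module.End.mul_apply]
  rw [hy', ← aeval_left h A hA, hx, h.zero_left]

variable [FiniteDimensional ℝ V] [Module.Finite ℍ[ℝ]ᵐᵒᵖ V]

/-- an invariant neutral subspace extends to an invariant maximal nonnegative subspace with a
prescribed set of eigenvalues off the imaginary axis -/
theorem extend_cset (h : QHerm G) (A : V →ₗ[ℍ[ℝ]ᵐᵒᵖ] V)
    (hA : ∀ x y, G (A x) y = -G x (A y)) (hrad : ∀ x, (∀ y, G x y = 0) → A x = 0)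
    (N : Submodule ℍ[ℝ]ᵐᵒᵖ V) (hN : ∀ x ∈ N, A x ∈ N)
    (hneu : ∀ x ∈ N, ∀ y ∈ N, G x y = 0) (S : Set ℍ[ℝ]) (hSim : SimClosed S)
    (hre : ∀ l ∈ S, l.re ≠ 0) (hneg : ∀ l ∈ S, -l ∉ S)
    (heig : ∀ l ∈ S, ∃ x : V, x ≠ 0 ∧ A x = op l • x)
    (hmax : ∀ l : ℍ[ℝ], l.re ≠ 0 → (∃ x : V, x ≠ 0 ∧ A x = op l • x) → l ∈ S ∨ -l ∈ S)
    (hNS : ∀ l : ℍ[ℝ], l.re ≠ 0 → (∃ x ∈ N, x ≠ 0 ∧ A x = op l • x) → l ∈ S) :
    ∃ L : Submodule ℍ[ℝ]ᵐᵒᵖ V, N ≤ L ∧ (∀ x ∈ L, A x ∈ L) ∧ QNonneg G L ∧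
      (∀ M : Submodule ℍ[ℝ]ᵐᵒᵖ V, L ≤ M → QNonneg G M → M = L) ∧
      {l : ℍ[ℝ] | l.re ≠ 0 ∧ ∃ x ∈ L, x ≠ 0 ∧ A x = op l • x} = S := by
  let W := rootSub A S
  -- neutrality
  have hWW : ∀ x ∈ W, ∀ y ∈ W, G x y = 0 := by
    rintro x ⟨p, hp0, hp, hpx⟩ y ⟨q, hq0, hq, hqy⟩
    exact orth h A hA hq0 hpx hqy fun l h1 h2 => hneg l (hp l h1) (hq _ h2)
  have hWN : ∀ x ∈ W, ∀ y ∈ N, G x y = 0 := by
    rintro x ⟨p, hp0, hp, hpx⟩ y hy
    obtain ⟨q, hq0, hqy, hq⟩ := exists_annihilator A N hN hy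
    refine orth h A hA hq0 hpx hqy fun l h1 h2 => ?_
    have h3 := hp l h1
    refine hneg l h3 (hNS (-l) ?_ (hq _ h2))
    rw [Quaternion.re_neg, neg_ne_zero]
    exact hre l h3
  have hNW : ∀ x ∈ N, ∀ y ∈ W, G x y = 0 := fun x hx y hy => by
    rw [h.symm y x, hWN y hy x hx, star_zero]
  obtain ⟨L, h1, h2, h3, h4⟩ := extend_nonneg h A hA (N ⊔ W)
    (by
      intro z hz
      obtain ⟨n, hn, w, hw, rfl⟩ := Submodule.mem_sup.1 hz
      rw [map_add]
      exact Submodule.add_mem_sup (hN n hn) (rootSub_invariant A S w hw))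
    (by
      intro z hz z' hz'
      obtain ⟨n, hn, w, hw, rfl⟩ := Submodule.mem_sup.1 hz
      obtain ⟨n', hn', w', hw', rfl⟩ := Submodule.mem_sup.1 hz'
      rw [h.add_left, h.add_right, h.add_right, hneu n hn n' hn', hNW n hn w' hw',
        hWN w hw n' hn', hWW w hw w' hw']
      simp)
  refine ⟨L, le_sup_left.trans h1, h2, h3, h4, ?_⟩
  ext l
  constructor
  · rintro ⟨hl, x, hxL, hx0, hx⟩
    rcases hmax l hl ⟨x, hx0, hx⟩ with hS | hS
    · exact hS
    · exfalso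
      -- `x` is neutral
      have hg : (G x x).re = 0 := by
        have e1 := hA x x
        rw [hx, h.smul_left, h.smul_right, h.real x] at e1
        have e2 := congrArg (fun q : ℍ[ℝ] => q.re) e1
        have e3 : (star l * (((G x x).re : ℝ) : ℍ[ℝ])).re = l.re * (G x x).re := by
          simp
        have e4 : (-((((G x x).re : ℝ) : ℍ[ℝ]) * l)).re = -((G x x).re * l.re) := by
          simp
        simp only [e3, e4] at e2
        have e5 : l.re * (G x x).re = 0 := by linarith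
        exact (mul_eq_zero.1 e5).resolve_left hl
      -- `x` is in the radical
      have hA0 : A x = 0 := by
        apply hrad
        intro y
        obtain ⟨p, hp0, hpy, -⟩ := exists_annihilator A ⊤ (fun _ _ => Submodule.mem_top)
          (Submodule.mem_top (x := y))
        obtain ⟨a, b, hab, ha, hb⟩ := split_poly hSim p hp0
        have ha0 : a ≠ 0 := fun h => hp0 (by rw [hab, h, zero_mul])
        have hb0 : b ≠ 0 := fun h => hp0 (by rw [hab, h, mul_zero])
        obtain ⟨u, v, huv⟩ := coprime_of_roots ha0 fun l h1 h2 => hb l h2 (ha l h1)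
        have hy' : y = aeval (toR A) (u * a) y + aeval (toR A) (v * b) y := by
          rw [← LinearMap.add_apply, ← map_add, huv, map_one, Module.End.one_apply]
        have k1 : aeval (toR A) b (aeval (toR A) (u * a) y) = 0 := by
          rw [← Module.End.mul_apply, ← map_mul,
            show b * (u * a) = u * (a * b) by ring, ← hab, map_mul, Module.End.mul_apply, hpy,
            map_zero]
        have k2 : aeval (toR A) a (aeval (toR A) (v * b) y) = 0 := by
          rw [← Module.End.mul_apply, ← map_mul,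
            show a * (v * b) = v * (a * b) by ring, ← hab, map_mul, Module.End.mul_apply, hpy,
            map_zero]
        rw [hy', h.add_right]
        have m1 : G x (aeval (toR A) (u * a) y) = 0 := by
          refine orth h A hA hb0 (aeval_qp_eigen A hx) k1 fun m h5 h6 => ?_
          obtain ⟨q, hq, he⟩ := similar_of_root l m h5
          refine hb _ h6 (hSim.mem_of hS hq ?_)
          rw [neg_mul, he, mul_neg]
        have m2 : G x (aeval (toR A) (v * b) y) = 0 :=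
          h.cs h3 hxL (h1 ((le_sup_right : W ≤ N ⊔ W) ⟨a, ha0, ha, k2⟩)) hg
        rw [m1, m2, add_zero]
      have hlx : op l • x = 0 := by rw [← hx, hA0]
      have hl0 : l ≠ 0 := fun h0 => hl (by rw [h0]; simp)
      apply hx0
      have h5 : op l⁻¹ • op l • x = 0 := by rw [hlx, smul_zero]
      rw [smul_smul, ← op_mul, mul_inv_cancel₀ hl0, op_one, one_smul] at h5
      exact h5
  · intro hl
    obtain ⟨x, hx0, hx⟩ := heig l hl
    exact ⟨hre l hl, x, h1 ((le_sup_right : W ≤ N ⊔ W)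
      ⟨qp l, qp_ne_zero l, rootsIn_qp hSim hl, aeval_qp_eigen A hx⟩), hx0, hx⟩

end

end Pool.Agent.V8H72
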