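import Mathlib

set_option autoImplicit false

namespace Pool.Agent.V8H72.RStar

open HNNExtension

/-- The free product of `A` with an infinite cyclic group (generated by `t`). -/
abbrev HN (A : Type*) [Group A] := HNNExtension A (⊥ : Subgroup A) (⊥ : Subgroup A) (MulEquiv.refl _)

/-- A letter `b t^{±1} b'`. -/
abbrev Tok (A : Type*) := A × ℤˣ × A

variable {A : Type*} [Group A]

/-- The value of a letter. -/
def val (z : Tok A) : HN A := of z.1 * t ^ (z.2.1 : ℤ) * of z.2.2

/-- The value of a list of letters. -/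
def vl (w : List (Tok A)) : HN A := (w.map val).prod

/-- The inverse letter. -/
def tinv (z : Tok A) : Tok A := (z.2.2⁻¹, -z.2.1, z.1⁻¹)

/-- Two letters which cancel up to elements of `A`. -/
def Cancel (z z' : Tok A) : Prop := z.2.2 * z'.1 = 1 ∧ z'.2.1 = -z.2.1

@[simp] theorem vl_nil : vl ([] : List (Tok A)) = 1 := rfl

@[simp] theorem vl_cons (z : Tok A) (w : List (Tok A)) : vl (z :: w) = val z * vl w := by
  simp [vl]

@[simp] theorem vl_append (v w : List (Tok A)) : vl (v ++ w) = vl v * vl w := by
  simp [vl]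

theorem val_tinv (z : Tok A) : val (tinv z) = (val z)⁻¹ := by
  simp [val, tinv, mul_assoc]

theorem tinv_tinv (z : Tok A) : tinv (tinv z) = z := by
  simp [tinv]

theorem val_mul_of_cancel {z z' : Tok A} (h : Cancel z z') :
    val z * val z' = of (z.1 * z'.2.2) := by
  obtain ⟨h1, h2⟩ := h
  have h3 : (of z.2.2 : HN A) * of z'.1 = 1 := by rw [← map_mul, h1, map_one]
  simp only [val, h2, Units.val_neg, zpow_neg, map_mul]
  calc of z.1 * t ^ (z.2.1 : ℤ) * of z.2.2 * (of z'.1 * (t ^ (z.2.1 : ℤ))⁻¹ * of z'.2.2)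
      = of z.1 * t ^ (z.2.1 : ℤ) * (of z.2.2 * of z'.1) * (t ^ (z.2.1 : ℤ))⁻¹ * of z'.2.2 := by
        simp only [mul_assoc]
    _ = of z.1 * of z'.2.2 := by rw [h3]; simp [mul_assoc]

/-- The list of exponents and of labels. -/
def lab : List (Tok A) → List (ℤˣ × A)
  | [] => []
  | [z] => [(z.2.1, z.2.2)]
  | z :: z' :: w => (z.2.1, z.2.2 * z'.1) :: lab (z' :: w)

theorem lab_prod (z : Tok A) (w : List (Tok A)) :
    vl (z :: w) = of z.1 * ((lab (z :: w)).map
      (fun x => (t ^ (x.1 : ℤ) * of x.2 : HN A))).prod := by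
  induction w generalizing z with
  | nil => simp [vl, lab, val, mul_assoc]
  | cons y w ih =>
    rw [vl_cons, ih y]
    simp [lab, val, mul_assoc]

theorem toSubgroup_bot (u : ℤˣ) :
    toSubgroup (⊥ : Subgroup A) (⊥ : Subgroup A) u = ⊥ := by
  simp [toSubgroup]

theorem lab_chain (z : Tok A) (w : List (Tok A))
    (h : (z :: w).IsChain (fun x y => ¬ Cancel x y)) :
    (lab (z :: w)).IsChain
      (fun a b => a.2 ∈ toSubgroup (⊥ : Subgroup A) (⊥ : Subgroup A) a.1 → a.1 = b.1) := by
  induction w generalizing z with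
  | nil => simp [lab]
  | cons y w ih =>
    rw [List.isChain_cons_cons] at h
    have h2 := ih y h.2
    have key : ∀ q : Tok A, y.2.1 = q.2.1 →
        (z.2.2 * y.1 ∈ toSubgroup (⊥ : Subgroup A) (⊥ : Subgroup A) z.2.1 → z.2.1 = q.2.1) := by
      intro q hq hm
      rw [toSubgroup_bot, Subgroup.mem_bot] at hm
      by_contra hne
      apply h.1
      refine ⟨hm, ?_⟩
      rcases Int.units_eq_one_or z.2.1 with h1 | h1 <;>
        rcases Int.units_eq_one_or y.2.1 with h3 | h3 <;> simp_all
    cases w with
    | nil =>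
      simp only [lab, List.isChain_cons_cons, List.isChain_singleton, and_true]
      exact key y rfl
    | cons x w =>
      simp only [lab, List.isChain_cons_cons] at h2 ⊢
      exact ⟨key y rfl, h2⟩

theorem exists_cancel (w : List (Tok A)) (hw : w ≠ []) (h : vl w = 1) :
    ∃ u x y v, w = u ++ x :: y :: v ∧ Cancel x y := by
  by_contra hcon
  have hch : w.IsChain (fun x y => ¬ Cancel x y) := by
    rw [List.isChain_iff_forall_rel_of_append_cons_cons]
    intro x y u v h1 h2
    exact hcon ⟨u, x, y, v, h1, h2⟩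
  cases w with
  | nil => exact hw rfl
  | cons z w =>
    have h1 := lab_chain z w hch
    let W : NormalWord.ReducedWord A (⊥ : Subgroup A) (⊥ : Subgroup A) :=
      { head := z.1, toList := lab (z :: w), chain := h1 }
    have h2 : W.prod (MulEquiv.refl _) = 1 := by
      have := lab_prod z w
      rw [h] at this
      exact this.symm
    have h3 := ReducedWord.toList_eq_nil_of_mem_of_range (MulEquiv.refl _) W
      (by rw [h2]; exact one_mem _)
    have h4 : lab (z :: w) = [] := h3
    cases w <;> simp [lab] at h4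

end Pool.Agent.V8H72.RStar
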