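import Pool.Agent.V8H72.RStar1

set_option autoImplicit false
set_option linter.unusedSectionVars false
set_option linter.unnecessarySimpa false

namespace Pool.Agent.V8H72.RStar

open HNNExtension

variable {A : Type*} [Group A]

/-- The data of a cyclically reduced word `∏ t^(e k) a(k)`, `k = 0, …, l - 1`, extended
periodically. -/
structure Dat (A : Type*) [Group A] where
  /-- the labels -/
  a : ℤ → A
  /-- the exponents -/
  e : ℤ → ℤˣ
  /-- the length -/
  l : ℤ
  lpos : 0 < l
  aper : ∀ x, a (x + l) = a x
  eper : ∀ x, e (x + l) = e x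
  red : ∀ x, a x = 1 → e (x + 1) = e x
  tf : ∀ x (n : ℕ), 0 < n → a x ^ n = 1 → a x = 1

theorem Dat.aper' (D : Dat A) (k : ℤ) (x : ℤ) : D.a (x + k * D.l) = D.a x := by
  have h := Function.Periodic.int_mul (f := D.a) (c := D.l) D.aper k
  exact h x

theorem Dat.eper' (D : Dat A) (k : ℤ) (x : ℤ) : D.e (x + k * D.l) = D.e x := by
  have h := Function.Periodic.int_mul (f := D.e) (c := D.l) D.eper k
  exact h x

/-- A letter with a starting time. -/
abbrev Item (A : Type*) := Tok A × ℤ

/-- The admissibility condition at a vertex after the item `c`, before a letter with left label `b`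
and starting time `τ`. -/
def Adm (D : Dat A) (c : Item A) (b : A) (τ : ℤ) : Prop :=
  τ ≤ c.2 + 1 ∧ (τ = c.2 + 1 → ∃ n : ℕ, 0 < n ∧ c.1.2.2 * b = D.a c.2 ^ n)

/-- The admissibility condition at all vertices of a list of items, the last one being before a
letter with left label `b` and starting time `τ`. -/
def Ch (D : Dat A) : List (Item A) → A → ℤ → Prop
  | [], _, _ => True
  | [c], b, τ => Adm D c b τ
  | c :: d :: cs, b, τ => Adm D c d.1.1 d.2 ∧ Ch D (d :: cs) b τ

/-- Clusters. -/
def Clus (D : Dat A) : List (Item A) → Prop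
  | [] => False
  | c :: cs => (∀ x ∈ c :: cs, x.1.2.1 = D.e x.2) ∧
      ∃ m : ℕ, 0 < m ∧ Ch D (c :: cs) c.1.1 (c.2 + m * D.l)

/-- The underlying list of letters of a list of items with gaps. -/
def flat (C : List (Item A × List (Tok A))) : List (Tok A) :=
  C.flatMap (fun c => c.1.1 :: c.2)

@[simp] theorem flat_nil : flat ([] : List (Item A × List (Tok A))) = [] := rfl

@[simp] theorem flat_cons (c : Item A × List (Tok A)) (C : List (Item A × List (Tok A))) :
    flat (c :: C) = c.1.1 :: (c.2 ++ flat C) := by
  simp [flat]

@[simp] theorem flat_append (C C' : List (Item A × List (Tok A))) :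
    flat (C ++ C') = flat C ++ flat C' := by
  simp [flat]

/-- Structured words. The flag `true` guarantees that there is a cluster. -/
inductive Str (D : Dat A) : Bool → List (Tok A) → Prop
  | nil : Str D false []
  | tail (z : Tok A) (f₁ f₂ : Bool) (s₁ s₂ : List (Tok A)) (h₁ : Str D f₁ s₁) (h₂ : Str D f₂ s₂) :
      Str D (f₁ || f₂) (z :: (s₁ ++ tinv z :: s₂))
  | clus (f : Bool) (C : List (Item A × List (Tok A))) (hC : Clus D (C.map Prod.fst))
      (hs : ∀ c ∈ C, Str D false c.2) : Str D f (flat C)

theorem Str.weaken {D : Dat A} {f : Bool} {w : List (Tok A)} (h : Str D f w) : Str D false w := by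
  induction h with
  | nil => exact Str.nil
  | tail z f₁ f₂ s₁ s₂ h₁ h₂ ih₁ ih₂ => exact Str.tail z false false s₁ s₂ ih₁ ih₂
  | clus f C hC hs ih => exact Str.clus false C hC hs

theorem Clus.ne_nil {D : Dat A} {I : List (Item A)} (h : Clus D I) : I ≠ [] := by
  rintro rfl
  exact h

theorem Str.append {D : Dat A} {f : Bool} {w : List (Tok A)} (h : Str D f w) :
    ∀ {g : Bool} {v : List (Tok A)}, Str D g v → Str D (f || g) (w ++ v) := by
  induction h with
  | nil => intro g v hv; simpa using hv
  | tail z f₁ f₂ s₁ s₂ h₁ h₂ ih₁ ih₂ =>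
    intro g v hv
    have := Str.tail z f₁ (f₂ || g) s₁ (s₂ ++ v) h₁ (ih₂ hv)
    simpa [Bool.or_assoc] using this
  | clus f C hC hs ih =>
    intro g v hv
    have hne : C ≠ [] := by
      have := hC.ne_nil
      simpa using this
    obtain ⟨C₀, c, rfl⟩ : ∃ C₀ c, C = C₀ ++ [c] := by
      exact ⟨C.dropLast, C.getLast hne, (List.dropLast_append_getLast hne).symm⟩
    have h1 : flat (C₀ ++ [c]) ++ v = flat (C₀ ++ [(c.1, c.2 ++ v)]) := by simp
    rw [h1]
    apply Str.clus
    · simpa using hC
    · intro d hd
      rw [List.mem_append, List.mem_singleton] at hd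
      rcases hd with hd | rfl
      · exact hs d (by simp [hd])
      · have := ih c (by simp) hv.weaken
        simpa using this

/-- Multiply the label after the last letter by `r⁻¹`. -/
def rmulLast (r : A) : List (Item A) → List (Item A)
  | [] => []
  | [c] => [((c.1.1, c.1.2.1, c.1.2.2 * r⁻¹), c.2)]
  | c :: d :: cs => c :: rmulLast r (d :: cs)

theorem rmulLast_cons (r : A) (c : Item A) (cs : List (Item A)) :
    ∃ c' cs', rmulLast r (c :: cs) = c' :: cs' ∧ c'.1.1 = c.1.1 ∧ c'.2 = c.2 := by
  cases cs with
  | nil => exact ⟨_, _, rfl, rfl, rfl⟩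
  | cons d cs => exact ⟨_, _, rfl, rfl, rfl⟩

theorem adm_rmul {D : Dat A} {r : A} {c : Item A} {b : A} {τ : ℤ} (h : Adm D c b τ) :
    Adm D ((c.1.1, c.1.2.1, c.1.2.2 * r⁻¹), c.2) (r * b) τ := by
  refine ⟨h.1, fun h1 => ?_⟩
  obtain ⟨n, hn, h2⟩ := h.2 h1
  exact ⟨n, hn, by simpa [mul_assoc] using h2⟩

theorem ch_rmulLast {D : Dat A} {r : A} {I : List (Item A)} {b : A} {τ : ℤ} (h : Ch D I b τ) :
    Ch D (rmulLast r I) (r * b) τ := by
  induction I with
  | nil => trivial
  | cons c cs ih =>
    cases cs with
    | nil => exact adm_rmul h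
    | cons d cs =>
      have h2 := ih h.2
      obtain ⟨c', cs', h3, h4, h5⟩ := rmulLast_cons r d cs
      show Ch D (c :: rmulLast r (d :: cs)) (r * b) τ
      rw [h3] at h2 ⊢
      refine ⟨?_, h2⟩
      rw [h4, h5]
      exact h.1

theorem mem_rmulLast {D : Dat A} {r : A} {I : List (Item A)}
    (h : ∀ x ∈ I, x.1.2.1 = D.e x.2) : ∀ x ∈ rmulLast r I, x.1.2.1 = D.e x.2 := by
  induction I with
  | nil => simpa [rmulLast] using h
  | cons c cs ih =>
    cases cs with
    | nil => simpa [rmulLast] using h
    | cons d cs =>
      intro x hx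
      rw [rmulLast, List.mem_cons] at hx
      rcases hx with rfl | hx
      · exact h _ (by simp)
      · exact ih (fun y hy => h y (by simp [hy])) x hx

theorem conj_last {D : Dat A} (r : A) (C : List (Item A × List (Tok A))) (hne : C ≠ [])
    (hs : ∀ c ∈ C, Str D false c.2)
    (hg : ∀ c ∈ C, ∃ w', Str D false w' ∧ w'.length = c.2.length ∧
      vl w' = of r * vl c.2 * (of r)⁻¹) :
    ∃ C' : List (Item A × List (Tok A)), (∀ c ∈ C', Str D false c.2) ∧
      (flat C').length = (flat C).length ∧ vl (flat C') = vl (flat C) * (of r)⁻¹ ∧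
      C'.map Prod.fst = rmulLast r (C.map Prod.fst) := by
  induction C with
  | nil => exact absurd rfl hne
  | cons c cs ih =>
    cases cs with
    | nil =>
      obtain ⟨w', h1, h2, h3⟩ := hg c (by simp)
      refine ⟨[(((c.1.1.1, c.1.1.2.1, c.1.1.2.2 * r⁻¹), c.1.2), w')], ?_, ?_, ?_, ?_⟩
      · simpa using h1
      · simpa using h2
      · simp [h3, val, mul_assoc]
      · simp [rmulLast]
    | cons d cs =>
      obtain ⟨C', h1, h2, h3, h4⟩ := ih (by simp) (fun x hx => hs x (by simp [hx]))
        (fun x hx => hg x (by simp [hx]))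
      refine ⟨c :: C', ?_, ?_, ?_, ?_⟩
      · intro x hx
        rw [List.mem_cons] at hx
        rcases hx with rfl | hx
        · exact hs _ (by simp)
        · exact h1 x hx
      · rw [flat_cons, flat_cons (C := d :: cs)]
        simp only [List.length_cons, List.length_append, h2]
      · rw [flat_cons, flat_cons (C := d :: cs)]
        simp only [vl_cons, vl_append, h3, mul_assoc]
      · simp only [List.map_cons, h4, rmulLast]

/-- Multiply the first label by `r`. -/
def lmulHead (r : A) : List (Item A × List (Tok A)) → List (Item A × List (Tok A))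
  | [] => []
  | c :: cs => (((r * c.1.1.1, c.1.1.2), c.1.2), c.2) :: cs

theorem vl_lmulHead {r : A} {C : List (Item A × List (Tok A))} (hne : C ≠ []) :
    vl (flat (lmulHead r C)) = of r * vl (flat C) := by
  cases C with
  | nil => exact absurd rfl hne
  | cons c cs => simp [lmulHead, val, mul_assoc]

theorem length_lmulHead {r : A} {C : List (Item A × List (Tok A))} :
    (flat (lmulHead r C)).length = (flat C).length := by
  cases C with
  | nil => rfl
  | cons c cs => simp [lmulHead]

theorem ch_head {D : Dat A} {c c' : Item A} {cs : List (Item A)} {b : A} {τ : ℤ}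
    (h : Ch D (c :: cs) b τ) (h1 : c'.2 = c.2) (h2 : c'.1.2.2 = c.1.2.2) :
    Ch D (c' :: cs) b τ := by
  have key : ∀ b' τ', Adm D c b' τ' → Adm D c' b' τ' := by
    intro b' τ' h
    unfold Adm at *
    rw [h1, h2]
    exact h
  cases cs with
  | nil => exact key _ _ h
  | cons d cs => exact ⟨key _ _ h.1, h.2⟩

/-- Conjugation of a structured word by an element of `A`. -/
theorem Str.conj {D : Dat A} {f : Bool} {w : List (Tok A)} (h : Str D f w) (r : A) :
    ∃ w', Str D f w' ∧ w'.length = w.length ∧ vl w' = of r * vl w * (of r)⁻¹ := by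
  induction h with
  | nil => exact ⟨[], Str.nil, rfl, by simp⟩
  | tail z f₁ f₂ s₁ s₂ h₁ h₂ ih₁ ih₂ =>
    obtain ⟨s', h3, h4, h5⟩ := ih₂
    refine ⟨_, Str.tail ((r * z.1, z.2) : Tok A) f₁ f₂ s₁ s' h₁ h3, by simp [h4], ?_⟩
    simp only [vl_cons, vl_append, val_tinv, h5]
    simp [val, mul_assoc]
  | clus f C hC hs ih =>
    have hne : C ≠ [] := by
      have := hC.ne_nil
      simpa using this
    obtain ⟨C', h1, h2, h3, h4⟩ := conj_last (D := D) r C hne hs ih
    cases C with
    | nil => exact absurd rfl hne
    | cons c cs =>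
      obtain ⟨c', cs', h5, h6, h7⟩ := rmulLast_cons r c.1 (cs.map Prod.fst)
      have h8 : C' ≠ [] := by
        rintro rfl
        rw [List.map_cons, h5] at h4
        simp at h4
      refine ⟨flat (lmulHead r C'), ?_, ?_, ?_⟩
      · apply Str.clus
        · cases C' with
          | nil => exact absurd rfl h8
          | cons x xs =>
            rw [List.map_cons, List.map_cons, h5, List.cons.injEq] at h4
            obtain ⟨h9, h10⟩ := h4
            obtain ⟨hC1, m, hm, hC2⟩ := hC
            have h11 := mem_rmulLast (D := D) (r := r) hC1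
            have h12 := ch_rmulLast (r := r) hC2
            rw [h5] at h11 h12
            refine ⟨?_, m, hm, ?_⟩
            · intro y hy
              rw [List.mem_cons] at hy
              rcases hy with rfl | hy
              · have := h11 c' (by simp)
                rw [← h9] at this
                exact this
              · exact h11 y (by rw [← h10]; simp [hy])
            · have h13 : x.1.1.1 = c.1.1.1 := by rw [h9, h6]
              have h14 : x.1.2 = c.1.2 := by rw [h9, h7]
              show Ch D (((r * x.1.1.1, x.1.1.2), x.1.2) :: xs.map Prod.fst) (r * x.1.1.1)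
                (x.1.2 + m * D.l)
              rw [h13, h14, h10]
              apply ch_head h12
              · exact h7.symm
              · rw [h9]
        · intro y hy
          cases C' with
          | nil => exact absurd rfl h8
          | cons x xs =>
            simp only [lmulHead, List.mem_cons] at hy
            rcases hy with rfl | hy
            · exact h1 x (by simp)
            · exact h1 y (by simp [hy])
      · rw [length_lmulHead, h2]
      · rw [vl_lmulHead h8, h3, mul_assoc]

theorem ch_append {D : Dat A} {I J : List (Item A)} {c : Item A} {b : A} {τ : ℤ} :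
    Ch D (I ++ c :: J) b τ ↔ Ch D I c.1.1 c.2 ∧ Ch D (c :: J) b τ := by
  induction I with
  | nil => simp [Ch]
  | cons d I ih =>
    cases I with
    | nil => simp [Ch]
    | cons x I =>
      simp only [List.cons_append, Ch] at ih ⊢
      rw [ih, and_assoc]

theorem ch_retarget {D : Dat A} {I : List (Item A)} {b b' : A} {τ τ' : ℤ} (h : Ch D I b τ)
    (h1 : ∀ c, Adm D c b τ → Adm D c b' τ') : Ch D I b' τ' := by
  induction I with
  | nil => trivial
  | cons c I ih =>
    cases I with
    | nil => exact h1 c h
    | cons d I => exact ⟨h.1, ih h.2⟩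

/-- Shift of the starting time. -/
def sh (S : ℤ) (c : Item A) : Item A := (c.1, c.2 + S)

theorem adm_shift {D : Dat A} (k : ℤ) {c : Item A} {b : A} {τ : ℤ} (h : Adm D c b τ) :
    Adm D (sh (k * D.l) c) b (τ + k * D.l) := by
  refine ⟨by have := h.1; simp only [sh]; omega, fun h1 => ?_⟩
  obtain ⟨n, hn, h2⟩ := h.2 (by simp only [sh] at h1; omega)
  exact ⟨n, hn, by simpa only [sh, D.aper'] using h2⟩

theorem ch_shift {D : Dat A} (k : ℤ) {I : List (Item A)} {b : A} {τ : ℤ} (h : Ch D I b τ) :
    Ch D (I.map (sh (k * D.l))) b (τ + k * D.l) := by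
  induction I with
  | nil => trivial
  | cons c I ih =>
    cases I with
    | nil => exact adm_shift k h
    | cons d I => exact ⟨adm_shift k h.1, ih h.2⟩

theorem mem_shift {D : Dat A} (k : ℤ) {I : List (Item A)}
    (h : ∀ x ∈ I, x.1.2.1 = D.e x.2) : ∀ x ∈ I.map (sh (k * D.l)), x.1.2.1 = D.e x.2 := by
  intro x hx
  rw [List.mem_map] at hx
  obtain ⟨y, hy, rfl⟩ := hx
  simp only [sh, D.eper']
  exact h y hy

theorem flat_map_shift (S : ℤ) (C : List (Item A × List (Tok A))) :
    flat (C.map (fun c => (sh S c.1, c.2))) = flat C := by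
  induction C with
  | nil => rfl
  | cons c C ih => simp only [List.map_cons, flat_cons, ih]; rfl

/-- Rotation of structured words. -/
theorem Str.rotate {D : Dat A} {f : Bool} {W : List (Tok A)} (h : Str D f W) :
    ∀ {x : Tok A} {w : List (Tok A)}, W = x :: w → Str D f (w ++ [x]) := by
  cases h with
  | nil => intro x w h; simp at h
  | tail z f₁ f₂ s₁ s₂ h₁ h₂ =>
    intro x w h
    rw [List.cons.injEq] at h
    obtain ⟨rfl, rfl⟩ := h
    have h3 := Str.tail (D := D) (tinv z) f₂ false s₂ [] h₂ Str.nil
    rw [tinv_tinv] at h3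
    have h4 := h₁.append h3
    simpa using h4
  | clus f C hC hs =>
    intro x w h
    cases C with
    | nil => simp at h
    | cons c C =>
      rw [flat_cons, List.cons.injEq] at h
      obtain ⟨rfl, rfl⟩ := h
      obtain ⟨hC1, m, hm, hC2⟩ := hC
      have h3 : Str D f (flat (C ++ [(sh (m * D.l) c.1, [])])) := by
        apply Str.clus
        · have h5 : ∀ {b : A} {τ : ℤ}, Adm D c.1 b τ →
              Adm D (sh (m * D.l) c.1) b (τ + m * D.l) := fun h => adm_shift (m : ℤ) h
          cases C with
          | nil =>
            simp only [List.nil_append, List.map_cons, List.map_nil]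
            refine ⟨?_, m, hm, ?_⟩
            · intro y hy
              rw [List.mem_singleton] at hy
              subst hy
              have := hC1 c.1 (by simp)
              simp only [sh, D.eper']
              exact this
            · have h6 := h5 hC2
              exact h6
          | cons d C =>
            simp only [List.cons_append, List.map_cons, List.map_append, List.map_nil] at hC2 ⊢
            refine ⟨?_, m, hm, ?_⟩
            · intro y hy
              simp only [List.mem_cons, List.mem_append, List.not_mem_nil, or_false] at hy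
              rcases hy with rfl | hy | rfl
              · exact hC1 _ (by simp)
              · exact hC1 _ (by simp only [List.map_cons, List.mem_cons]; tauto)
              · have := hC1 c.1 (by simp)
                simp only [sh, D.eper']
                exact this
            · rw [show d.1 :: (C.map Prod.fst ++ [sh (m * D.l) c.1])
                = (d.1 :: C.map Prod.fst) ++ [sh (m * D.l) c.1] from rfl, ch_append]
              exact ⟨hC2.2, h5 hC2.1⟩
        · intro y hy
          rw [List.mem_append, List.mem_singleton] at hy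
          rcases hy with hy | rfl
          · exact hs y (by simp [hy])
          · exact Str.nil
      have h4 := (hs c (by simp)).append h3
      simpa [sh] using h4

end Pool.Agent.V8H72.RStar
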