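import Pool.Agent.V8H72.RStar2

set_option autoImplicit false
set_option linter.unusedSectionVars false
set_option linter.unnecessarySimpa false

namespace Pool.Agent.V8H72.RStar

open HNNExtension

variable {A : Type*} [Group A]

theorem Str.nil_flag {D : Dat A} {f : Bool} {W : List (Tok A)} (h : Str D f W) :
    W = [] → f = false := by
  cases h with
  | nil => intro _; rfl
  | tail z f₁ f₂ s₁ s₂ h₁ h₂ => intro h; simp at h
  | clus f C hC hs =>
    intro h
    cases C with
    | nil => exact absurd rfl hC.ne_nil
    | cons c C => simp at h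

theorem sign_ne {D : Dat A} {x y : ℤ} {u v : ℤˣ} (h1 : u = D.e x) (h2 : v = D.e y) (h3 : v = -u) :
    D.e y ≠ D.e x := by
  intro h
  rw [← h1, ← h2, h3] at h
  rcases Int.units_eq_one_or u with rfl | rfl <;> simp at h

theorem cancel_lt {D : Dat A} {c d : Item A} (hc : c.1.2.1 = D.e c.2) (hd : d.1.2.1 = D.e d.2)
    (h : Cancel c.1 d.1) (ha : Adm D c d.1.1 d.2) : d.2 < c.2 := by
  have hs := sign_ne hc hd h.2
  by_contra hlt
  push Not at hlt
  have h1 := ha.1
  rcases eq_or_lt_of_le hlt with h2 | h2
  · exact hs (by rw [h2])
  · have h3 : d.2 = c.2 + 1 := by omega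
    obtain ⟨n, hn, h4⟩ := ha.2 h3
    rw [h.1] at h4
    have h5 := D.tf c.2 n hn h4.symm
    have h6 := D.red c.2 h5
    exact hs (by rw [h3, h6])

theorem fst_lmulHead {r : A} {c : Item A × List (Tok A)} {C : List (Item A × List (Tok A))} :
    (lmulHead r (c :: C)).map Prod.fst = ((r * c.1.1.1, c.1.1.2), c.1.2) :: C.map Prod.fst := rfl

theorem clus_lmulHead {D : Dat A} {r : A} {c : Item A × List (Tok A)}
    {C : List (Item A × List (Tok A))} (h1 : ∀ x ∈ (c :: C).map Prod.fst, x.1.2.1 = D.e x.2)
    {m : ℕ} (hm : 0 < m) (h2 : Ch D ((c :: C).map Prod.fst) (r * c.1.1.1) (c.1.2 + m * D.l)) :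
    Clus D ((lmulHead r (c :: C)).map Prod.fst) := by
  rw [fst_lmulHead]
  refine ⟨?_, m, hm, ch_head h2 rfl rfl⟩
  intro y hy
  rw [List.mem_cons] at hy
  rcases hy with rfl | hy
  · exact h1 c.1 (by simp)
  · exact h1 y (by simp only [List.map_cons, List.mem_cons]; right; exact hy)

theorem str_lmulHead {D : Dat A} {r : A} {C : List (Item A × List (Tok A))}
    (h : ∀ c ∈ C, Str D false c.2) : ∀ c ∈ lmulHead r C, Str D false c.2 := by
  cases C with
  | nil => simpa [lmulHead] using h
  | cons c C =>
    intro y hy
    simp only [lmulHead, List.mem_cons] at hy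
    rcases hy with rfl | hy
    · exact h c (by simp)
    · exact h y (by simp [hy])

/-- Folding two consecutive letters of a cluster. -/
theorem fold_case {D : Dat A} {f : Bool} {c d : Item A × List (Tok A)}
    {E : List (Item A × List (Tok A))} (hC : Clus D ((c :: d :: E).map Prod.fst))
    (hs : ∀ x ∈ c :: d :: E, Str D false x.2) (hcan : Cancel c.1.1 d.1.1) :
    ∃ w', Str D f w' ∧ vl w' = val c.1.1 * (val d.1.1 * (vl d.2 * vl (flat E))) ∧
      w'.length ≤ d.2.length + (flat E).length := by
  obtain ⟨hC1, m, hm, hC2⟩ := hC
  have hc := hC1 c.1 (by simp)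
  have hd := hC1 d.1 (by simp)
  have hml : 0 < (m : ℤ) * D.l := mul_pos (by exact_mod_cast hm) D.lpos
  have hlt := cancel_lt hc hd hcan hC2.1
  cases E with
  | nil =>
    exfalso
    have h1 : Adm D d.1 c.1.1.1 (c.1.2 + m * D.l) := hC2.2
    have := h1.1
    omega
  | cons d₃ E =>
    set r : A := c.1.1.1 * d.1.1.2.2 with hr
    obtain ⟨h3, h4⟩ : Adm D d.1 d₃.1.1.1 d₃.1.2 ∧
      Ch D ((d₃ :: E).map Prod.fst) c.1.1.1 (c.1.2 + m * D.l) := hC2.2
    obtain ⟨w₁, hw1, hw2, hw3⟩ := (hs d (by simp)).conj r
    have hcl : Clus D ((lmulHead r (d₃ :: E)).map Prod.fst) := by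
      apply clus_lmulHead (m := m) _ hm
      · apply ch_retarget h4
        intro x hx
        refine ⟨?_, ?_⟩
        · have := h3.1
          have := hx.1
          omega
        · intro heq
          have e1 := h3.1
          have e2 := hx.1
          obtain ⟨n1, hn1, h5⟩ := hx.2 (by omega)
          obtain ⟨n2, hn2, h6⟩ := h3.2 (by omega)
          refine ⟨n1 + n2, by omega, ?_⟩
          have h7 : D.a x.2 = D.a d.1.2 := by
            rw [show x.2 = d.1.2 + m * D.l by omega, D.aper']
          rw [pow_add, ← h5, h7, ← h6, hr]
          simp only [mul_assoc]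
      · intro x hx
        exact hC1 x (by
          simp only [List.map_cons, List.mem_cons] at hx ⊢
          right; right; exact hx)
    refine ⟨w₁ ++ flat (lmulHead r (d₃ :: E)), ?_, ?_, ?_⟩
    · have h5 : Str D f (flat (lmulHead r (d₃ :: E))) := by
        apply Str.clus f _ hcl
        apply str_lmulHead
        intro x hx
        exact hs x (by simp only [List.mem_cons] at hx ⊢; tauto)
      have := hw1.append h5
      simpa using this
    · rw [vl_append, hw3, vl_lmulHead (by simp), ← mul_assoc (val c.1.1), val_mul_of_cancel hcan,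
        ← hr]
      group
    · rw [List.length_append, hw2, length_lmulHead]

/-- Merging two clusters. -/
theorem merge_case {D : Dat A} {f : Bool} {c y : Item A × List (Tok A)}
    {C Y : List (Item A × List (Tok A))} (hC : Clus D ((c :: C).map Prod.fst))
    (hY : Clus D ((y :: Y).map Prod.fst))
    (hs : ∀ x ∈ C, Str D false x.2) (hsY : ∀ x ∈ y :: Y, Str D false x.2)
    (hcan : Cancel c.1.1 y.1.1) :
    ∃ w', Str D f w' ∧
      vl w' = val c.1.1 * (val y.1.1 * (vl y.2 * (vl (flat Y) * vl (flat C)))) ∧
      w'.length ≤ y.2.length + (flat Y).length + (flat C).length := by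
  obtain ⟨hC1, m, hm, hC2⟩ := hC
  obtain ⟨hY1, m', hm', hY2⟩ := hY
  have hc := hC1 c.1 (by simp)
  have hy := hY1 y.1 (by simp)
  have hl := D.lpos
  have hne := sign_ne hc hy hcan.2
  -- align the times
  obtain ⟨k, hk1, hk2⟩ : ∃ k : ℤ, c.1.2 + 1 ≤ y.1.2 + k * D.l ∧
      y.1.2 + k * D.l + 1 ≤ c.1.2 + D.l := by
    refine ⟨-((y.1.2 - c.1.2) / D.l), ?_, ?_⟩
    · have h1 := Int.emod_add_mul_ediv (y.1.2 - c.1.2) D.l
      have h2 := Int.emod_nonneg (y.1.2 - c.1.2) (ne_of_gt hl)
      have h3 : (y.1.2 - c.1.2) % D.l ≠ 0 := by
        intro h4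
        apply hne
        rw [h4, zero_add] at h1
        have h5 : y.1.2 = c.1.2 + ((y.1.2 - c.1.2) / D.l) * D.l := by
          rw [mul_comm]; omega
        rw [h5, D.eper']
      have h6 : -((y.1.2 - c.1.2) / D.l) * D.l = -(D.l * ((y.1.2 - c.1.2) / D.l)) := by ring
      rw [h6]
      omega
    · have h1 := Int.emod_add_mul_ediv (y.1.2 - c.1.2) D.l
      have h2 := Int.emod_lt_of_pos (y.1.2 - c.1.2) hl
      have h6 : -((y.1.2 - c.1.2) / D.l) * D.l = -(D.l * ((y.1.2 - c.1.2) / D.l)) := by ring
      rw [h6]
      omega
  have hl2 : 2 ≤ D.l := by omega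
  have hml : D.l ≤ (m : ℤ) * D.l := by
    have : (1 : ℤ) ≤ m := by exact_mod_cast hm
    nlinarith
  have hml' : D.l ≤ (m' : ℤ) * D.l := by
    have : (1 : ℤ) ≤ m' := by exact_mod_cast hm'
    nlinarith
  cases C with
  | nil =>
    exfalso
    have h1 : Adm D c.1 c.1.1.1 (c.1.2 + m * D.l) := hC2
    have := h1.1
    omega
  | cons d E =>
  cases Y with
  | nil =>
    exfalso
    have h1 : Adm D y.1 y.1.1.1 (y.1.2 + m' * D.l) := hY2
    have := h1.1
    omega
  | cons z Z =>
    set r : A := c.1.1.1 * y.1.1.2.2 with hr
    obtain ⟨ha1, ha2⟩ : Adm D c.1 d.1.1.1 d.1.2 ∧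
      Ch D ((d :: E).map Prod.fst) c.1.1.1 (c.1.2 + m * D.l) := hC2
    obtain ⟨hb1, hb2⟩ : Adm D y.1 z.1.1.1 z.1.2 ∧
      Ch D ((z :: Z).map Prod.fst) y.1.1.1 (y.1.2 + m' * D.l) := hY2
    obtain ⟨w₁, hw1, hw2, hw3⟩ := (hsY y (by simp)).conj r
    let g₁ : Item A × List (Tok A) → Item A × List (Tok A) := fun x => (sh (k * D.l) x.1, x.2)
    let g₂ : Item A × List (Tok A) → Item A × List (Tok A) := fun x => (sh (m' * D.l) x.1, x.2)
    have hg₁ : ∀ L : List (Item A × List (Tok A)),
        (L.map g₁).map Prod.fst = (L.map Prod.fst).map (sh (k * D.l)) := by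
      intro L; rw [List.map_map, List.map_map]; rfl
    have hg₂ : ∀ L : List (Item A × List (Tok A)),
        (L.map g₂).map Prod.fst = (L.map Prod.fst).map (sh (m' * D.l)) := by
      intro L; rw [List.map_map, List.map_map]; rfl
    have hcl : Clus D ((lmulHead r (g₁ z :: (Z.map g₁ ++ (d :: E).map g₂))).map Prod.fst) := by
      have hmm : 0 < m + m' - 1 := by omega
      apply clus_lmulHead (m := m + m' - 1) _ hmm
      · have hcast : ((m + m' - 1 : ℕ) : ℤ) = m + m' - 1 := by omega
        rw [hcast]
        have hlist : (g₁ z :: (Z.map g₁ ++ (d :: E).map g₂)).map Prod.fst =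
            ((z :: Z).map Prod.fst).map (sh (k * D.l)) ++
              (sh (m' * D.l) d.1 :: (E.map Prod.fst).map (sh (m' * D.l))) := by
          rw [← List.cons_append, ← List.map_cons, List.map_append, hg₁, hg₂]
          rfl
        rw [hlist, ch_append]
        constructor
        · apply ch_retarget (ch_shift k hb2)
          intro x hx
          simp only [sh]
          refine ⟨?_, ?_⟩
          · have := ha1.1
            have := hx.1
            omega
          · intro heq
            have e1 := ha1.1
            have e2 := hx.1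
            obtain ⟨n1, hn1, h5⟩ := hx.2 (by omega)
            obtain ⟨n2, hn2, h6⟩ := ha1.2 (by omega)
            refine ⟨n1 + n2, by omega, ?_⟩
            have h7 : D.a x.2 = D.a c.1.2 := by
              rw [show x.2 = c.1.2 + m' * D.l by omega, D.aper']
            have h8 : y.1.1.1 * c.1.1.2.2 = 1 := by
              rw [mul_eq_one_iff_eq_inv, ← inv_eq_iff_eq_inv]
              exact (eq_inv_of_mul_eq_one_left hcan.1).symm
            rw [pow_add, ← h5, h7, ← h6]
            calc x.1.2.2 * d.1.1.1 = x.1.2.2 * (y.1.1.1 * c.1.1.2.2) * d.1.1.1 := by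
                  rw [h8, mul_one]
              _ = _ := by simp only [mul_assoc]
        · have h9 := ch_shift (m' : ℤ) ha2
          apply ch_retarget h9
          intro x hx
          simp only [g₁, sh]
          have hexp : ((m : ℤ) + m' - 1) * D.l = m * D.l + m' * D.l - D.l := by ring
          rw [hexp]
          refine ⟨?_, ?_⟩
          · have := hb1.1
            have := hx.1
            omega
          · intro heq
            have e1 := hb1.1
            have e2 := hx.1
            obtain ⟨n1, hn1, h5⟩ := hx.2 (by omega)
            obtain ⟨n2, hn2, h6⟩ := hb1.2 (by omega)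
            refine ⟨n1 + n2, by omega, ?_⟩
            have h7 : D.a x.2 = D.a y.1.2 := by
              have : x.2 = y.1.2 + (k + m + m' - 1) * D.l := by
                have : (k + m + m' - 1) * D.l = k * D.l + m * D.l + m' * D.l - D.l := by ring
                rw [this]
                omega
              rw [this, D.aper']
            rw [pow_add, ← h5, h7, ← h6, hr]
            simp only [mul_assoc]
      · intro x hx
        rw [← List.cons_append, ← List.map_cons, List.map_append, hg₁, hg₂,
          List.mem_append] at hx
        rcases hx with hx | hx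
        · apply mem_shift k _ x hx
          intro y hy
          exact hY1 y (List.mem_cons_of_mem _ hy)
        · apply mem_shift (m' : ℤ) _ x hx
          intro y hy
          exact hC1 y (List.mem_cons_of_mem _ hy)
    have hfl : flat (g₁ z :: (Z.map g₁ ++ (d :: E).map g₂)) = flat (z :: Z) ++ flat (d :: E) := by
      rw [← List.cons_append, ← List.map_cons, flat_append]
      congr 1
      · exact flat_map_shift _ _
      · exact flat_map_shift _ _
    refine ⟨w₁ ++ flat (lmulHead r (g₁ z :: (Z.map g₁ ++ (d :: E).map g₂))), ?_, ?_, ?_⟩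
    · have h5 : Str D f (flat (lmulHead r (g₁ z :: (Z.map g₁ ++ (d :: E).map g₂)))) := by
        apply Str.clus f _ hcl
        apply str_lmulHead
        intro x hx
        rw [← List.cons_append, ← List.map_cons, List.mem_append, List.mem_map, List.mem_map] at hx
        rcases hx with ⟨q, hq, rfl⟩ | ⟨q, hq, rfl⟩
        · exact hsY q (List.mem_cons_of_mem _ hq)
        · exact hs q hq
      have := hw1.append h5
      simpa using this
    · rw [vl_append, hw3, vl_lmulHead (by simp), hfl, vl_append, ← mul_assoc (val c.1.1),
        val_mul_of_cancel hcan, ← hr]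
      group
    · rw [List.length_append, hw2, length_lmulHead, hfl, List.length_append]
      omega

/-- The reduction step. -/
theorem Str.reduce {D : Dat A} {f : Bool} {W : List (Tok A)} (h : Str D f W) :
    ∀ {x y : Tok A} {w : List (Tok A)}, W = x :: y :: w → Cancel x y →
      ∃ w', Str D f w' ∧ vl w' = vl W ∧ w'.length < W.length := by
  cases h with
  | nil => intro x y w h; simp at h
  | tail z f₁ f₂ s₁ s₂ h₁ h₂ =>
    intro x y w h hcan
    rw [List.cons.injEq] at h
    obtain ⟨rfl, h⟩ := h
    cases s₁ with
    | nil =>
      have hf := h₁.nil_flag rfl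
      subst hf
      refine ⟨s₂, by simpa using h₂, ?_, ?_⟩
      · simp [val_tinv]
      · simp
    | cons y' s =>
      rw [List.cons_append, List.cons.injEq] at h
      obtain ⟨rfl, rfl⟩ := h
      have h3 := h₁.rotate rfl
      obtain ⟨w₁, hw1, hw2, hw3⟩ := h3.conj (z.1 * y'.2.2)
      refine ⟨w₁ ++ s₂, hw1.append h₂, ?_, ?_⟩
      · rw [vl_append, hw3, ← val_mul_of_cancel hcan]
        simp only [vl_cons, vl_append, vl_nil, val_tinv, List.cons_append]
        group
      · simp only [List.length_append, hw2, List.length_cons, List.length_nil]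
        omega
  | clus f C hC hs =>
    intro x y w h hcan
    cases C with
    | nil => simp at h
    | cons c C =>
      rw [flat_cons, List.cons.injEq] at h
      obtain ⟨rfl, h⟩ := h
      obtain ⟨ci, cs⟩ := c
      have hcs : Str D false cs := hs _ (List.mem_cons_self)
      simp only at h hcan
      cases hcs' : cs with
      | nil =>
        subst hcs'
        cases C with
        | nil => simp at h
        | cons d E =>
          rw [List.nil_append, flat_cons, List.cons.injEq] at h
          obtain ⟨rfl, rfl⟩ := h
          obtain ⟨w', h1, h2, h3⟩ := fold_case (f := f) hC hs hcan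
          refine ⟨w', h1, ?_, ?_⟩
          · rw [h2]; simp
          · simp only [flat_cons, List.length_cons, List.length_append, List.nil_append]
            omega
      | cons y' s =>
        rw [hcs', List.cons_append, List.cons.injEq] at h
        obtain ⟨rfl, rfl⟩ := h
        rw [hcs'] at hcs
        have key : ∀ (g : Bool) (V : List (Tok A)), Str D g V → V = y' :: s → g = false →
            ∃ w', Str D f w' ∧ vl w' = vl (ci.1 :: (y' :: s ++ flat C)) ∧
              w'.length < (ci.1 :: (y' :: s ++ flat C)).length := by
          intro g V hV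
          cases hV with
          | nil => intro h; simp at h
          | tail z f₁ f₂ u₁ u₂ h₁ h₂ =>
            intro h hg
            rw [List.cons.injEq] at h
            obtain ⟨rfl, rfl⟩ := h
            rw [Bool.or_eq_false_iff] at hg
            obtain ⟨rfl, rfl⟩ := hg
            obtain ⟨w₁, hw1, hw2, hw3⟩ := h₁.conj (ci.1.1 * z.2.2)
            refine ⟨w₁ ++ flat ((ci, u₂) :: C), ?_, ?_, ?_⟩
            · have h3 : Str D f (flat ((ci, u₂) :: C)) := by
                apply Str.clus f ((ci, u₂) :: C) hC
                intro q hq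
                rw [List.mem_cons] at hq
                rcases hq with rfl | hq
                · exact h₂
                · exact hs q (List.mem_cons_of_mem _ hq)
              have := hw1.append h3
              simpa using this
            · rw [vl_append, hw3, ← val_mul_of_cancel hcan]
              simp only [vl_cons, vl_append, flat_cons, val_tinv, List.cons_append]
              group
            · simp only [List.length_append, hw2, List.length_cons, flat_cons]
              omega
          | clus g Y hY hsY =>
            intro h hg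
            cases Y with
            | nil => simp at h
            | cons y Y =>
              rw [flat_cons, List.cons.injEq] at h
              obtain ⟨rfl, rfl⟩ := h
              obtain ⟨w', h1, h2, h3⟩ := merge_case (f := f) hC hY
                (fun x hx => hs x (List.mem_cons_of_mem _ hx)) hsY hcan
              refine ⟨w', h1, ?_, ?_⟩
              · rw [h2]; simp
              · simp only [List.length_append, List.length_cons]
                omega
        obtain ⟨w', h1, h2, h3⟩ := key false _ hcs rfl rfl
        refine ⟨w', h1, ?_, ?_⟩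
        · rw [h2, flat_cons]
        · rw [flat_cons]; exact h3

theorem Str.rotate_append {D : Dat A} {f : Bool} (u v : List (Tok A)) (h : Str D f (u ++ v)) :
    Str D f (v ++ u) := by
  induction u generalizing v with
  | nil => simpa using h
  | cons x u ih =>
    have h1 := h.rotate (x := x) (w := u ++ v) rfl
    have h2 := ih (v ++ [x]) (by simpa using h1)
    simpa using h2

/-- A structured word with a cluster does not represent the identity. -/
theorem Str.ne_one {D : Dat A} (n : ℕ) : ∀ {W : List (Tok A)}, W.length ≤ n → Str D true W →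
    vl W ≠ 1 := by
  induction n with
  | zero =>
    intro W hW h
    have h1 : W = [] := List.eq_nil_of_length_eq_zero (by omega)
    have h2 := h.nil_flag h1
    simp at h2
  | succ n ih =>
    intro W hW h h1
    have hne : W ≠ [] := by
      intro h3
      have h2 := h.nil_flag h3
      simp at h2
    obtain ⟨u, x, y, v, rfl, hcan⟩ := exists_cancel W hne h1
    have h2 := h.rotate_append u (x :: y :: v)
    obtain ⟨w', h3, h4, h5⟩ := h2.reduce (x := x) (y := y) (w := v ++ u) (by simp) hcan
    have h6 : w'.length ≤ n := by
      simp only [List.length_append, List.length_cons] at h5 hW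
      omega
    apply ih h6 h3
    rw [h4, vl_append]
    rw [vl_append] at h1
    exact mul_eq_one_comm.mp h1

end Pool.Agent.V8H72.RStar
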