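import Pool.Agent.V8H72.RStar3

set_option autoImplicit false
set_option linter.unusedSectionVars false
set_option linter.unnecessarySimpa false

namespace Pool.Agent.V8H72.RStar

open HNNExtension

variable {A : Type*} [Group A]

/-- No nonempty product of conjugates of `g` is trivial. -/
def NT {H : Type*} [Group H] (g : H) : Prop :=
  ∀ xs : List H, xs ≠ [] → (xs.map (fun x => x * g * x⁻¹)).prod ≠ 1

theorem NT.conj {H : Type*} [Group H] {g : H} (h : NT g) (y : H) : NT (y * g * y⁻¹) := by
  intro xs hxs h1
  apply h (xs.map (· * y)) (by simpa using hxs)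
  rw [List.map_map, ← h1]
  congr 1
  apply List.map_congr_left
  intro x _
  simp [mul_assoc]

theorem NT.of_conj {H : Type*} [Group H] {g : H} (y : H) (h : NT (y * g * y⁻¹)) : NT g := by
  have := h.conj y⁻¹
  simpa [mul_assoc] using this

theorem NT.of_hom {H H' : Type*} [Group H] [Group H'] {g : H} (f : H →* H') (h : NT (f g)) :
    NT g := by
  intro xs hxs h1
  apply h (xs.map f) (by simpa using hxs)
  have h2 := congrArg f h1
  rw [map_one, map_list_prod, List.map_map] at h2
  rw [List.map_map, ← h2]
  congr 1
  apply List.map_congr_left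
  intro x _
  simp

/-! ### Products of conjugates of the base element are structured -/

theorem Str.conjH {D : Dat A} (x : HN A) :
    (∀ w, Str D true w → ∃ w', Str D true w' ∧ vl w' = x * vl w * x⁻¹) ∧
    (∀ w, Str D true w → ∃ w', Str D true w' ∧ vl w' = x⁻¹ * vl w * x) := by
  induction x using HNNExtension.induction_on with
  | of g =>
    constructor
    · intro w hw
      obtain ⟨w', h1, _, h3⟩ := hw.conj g
      exact ⟨w', h1, h3⟩
    · intro w hw
      obtain ⟨w', h1, _, h3⟩ := hw.conj g⁻¹
      exact ⟨w', h1, by rw [h3]; simp⟩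
  | t =>
    constructor
    · intro w hw
      refine ⟨_, Str.tail ((1, 1, 1) : Tok A) true false w [] hw Str.nil, ?_⟩
      simp [val, tinv, mul_assoc]
    · intro w hw
      refine ⟨_, Str.tail ((1, -1, 1) : Tok A) true false w [] hw Str.nil, ?_⟩
      simp [val, tinv, mul_assoc]
  | mul x y hx hy =>
    constructor
    · intro w hw
      obtain ⟨w₁, h1, h2⟩ := hy.1 w hw
      obtain ⟨w₂, h3, h4⟩ := hx.1 w₁ h1
      exact ⟨w₂, h3, by rw [h4, h2]; simp [mul_assoc]⟩
    · intro w hw
      obtain ⟨w₁, h1, h2⟩ := hx.2 w hw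
      obtain ⟨w₂, h3, h4⟩ := hy.2 w₁ h1
      exact ⟨w₂, h3, by rw [h4, h2]; simp [mul_assoc]⟩
  | inv x hx =>
    rw [inv_inv]
    exact ⟨hx.2, hx.1⟩

theorem NT_of_str {D : Dat A} {w : List (Tok A)} (hw : Str D true w) : NT (vl w) := by
  have key : ∀ xs : List (HN A), xs ≠ [] →
      ∃ v, Str D true v ∧ vl v = (xs.map (fun x => x * vl w * x⁻¹)).prod := by
    intro xs
    induction xs with
    | nil => intro h; exact absurd rfl h
    | cons x xs ih =>
      intro _
      obtain ⟨w₁, h1, h2⟩ := (Str.conjH x).1 w hw
      cases xs with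
      | nil => exact ⟨w₁, h1, by simpa using h2⟩
      | cons y ys =>
        obtain ⟨v, h3, h4⟩ := ih (by simp)
        refine ⟨w₁ ++ v, by simpa using h1.append h3, ?_⟩
        rw [vl_append, h2, h4]
        simp
  intro xs hxs h
  obtain ⟨v, h1, h2⟩ := key xs hxs
  exact Str.ne_one v.length le_rfl h1 (h2.trans h)

/-- The items of the basic cluster. -/
def base (D : Dat A) (s : ℤ) : ℕ → List (Item A)
  | 0 => []
  | n + 1 => ((1, D.e s, D.a s), s) :: base D (s + 1) n

theorem ch_base (D : Dat A) (n : ℕ) (s : ℤ) : Ch D (base D s n) 1 (s + n) := by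
  induction n generalizing s with
  | zero => trivial
  | succ n ih =>
    cases n with
    | zero =>
      refine ⟨?_, ?_⟩
      · simp
      · intro _
        exact ⟨1, one_pos, by simp⟩
    | succ n =>
      have h := ih (s + 1)
      refine ⟨⟨?_, ?_⟩, ?_⟩
      · simp
      · intro _
        exact ⟨1, one_pos, by simp⟩
      · have h2 : s + 1 + ((n + 1 : ℕ) : ℤ) = s + ((n + 1 + 1 : ℕ) : ℤ) := by push_cast; ring
        rw [h2] at h
        exact h

theorem mem_base (D : Dat A) (n : ℕ) (s : ℤ) : ∀ x ∈ base D s n, x.1.2.1 = D.e x.2 := by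
  induction n generalizing s with
  | zero => simp [base]
  | succ n ih =>
    intro x hx
    rw [base, List.mem_cons] at hx
    rcases hx with rfl | hx
    · rfl
    · exact ih (s + 1) x hx

theorem str_base (D : Dat A) (n : ℕ) (hn : (n : ℤ) = D.l) :
    Str D true ((base D 0 n).map Prod.fst) := by
  have hpos := D.lpos
  have h1 : (base D 0 n).map Prod.fst = flat ((base D 0 n).map (fun i => (i, []))) := by
    generalize base D 0 n = I
    induction I with
    | nil => rfl
    | cons c I ih => simp [ih]
  rw [h1]
  apply Str.clus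
  · rw [List.map_map]
    have h2 : (Prod.fst ∘ fun i : Item A => (i, ([] : List (Tok A)))) = id := rfl
    rw [h2, List.map_id]
    obtain ⟨m, rfl⟩ : ∃ m, n = m + 1 := ⟨n - 1, by omega⟩
    refine ⟨mem_base D (m + 1) 0, 1, one_pos, ?_⟩
    have h3 := ch_base D (m + 1) 0
    rw [hn] at h3
    simpa [base] using h3
  · intro c hc
    rw [List.mem_map] at hc
    obtain ⟨i, _, rfl⟩ := hc
    exact Str.nil

/-! ### Cyclically reduced words -/

/-- The value of a list of pairs (exponent, label). -/
def valB (L : List (ℤˣ × A)) : HN A := (L.map (fun x => (t ^ (x.1 : ℤ) * of x.2 : HN A))).prod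

theorem valB_append (L L' : List (ℤˣ × A)) : valB (L ++ L') = valB L * valB L' := by
  simp [valB]

/-- The periodic data of a cyclically reduced word. -/
def mkDat (L : List (ℤˣ × A)) (hL : L ≠ []) (tf : ∀ (a : A) (n : ℕ), 0 < n → a ^ n = 1 → a = 1)
    (hch : L.IsChain (fun x y => x.2 = 1 → x.1 = y.1)) (hlast : (L.getLast hL).2 ≠ 1) :
    Dat A where
  a x := (L.getD (x % L.length).toNat (1, 1)).2
  e x := (L.getD (x % L.length).toNat (1, 1)).1
  l := L.length
  lpos := by
    have := List.length_pos_of_ne_nil hL
    exact_mod_cast this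
  aper x := by simp
  eper x := by simp
  red x h := by
    have hlen : 0 < L.length := List.length_pos_of_ne_nil hL
    obtain ⟨i, hi⟩ : ∃ i : ℕ, (i : ℤ) = x % L.length :=
      ⟨(x % L.length).toNat, Int.toNat_of_nonneg (Int.emod_nonneg _ (by omega))⟩
    have hlt : i < L.length := by
      have := Int.emod_lt_of_pos x (b := (L.length : ℤ)) (by omega)
      omega
    rw [← hi, Int.toNat_natCast, List.getD_eq_getElem _ _ hlt] at h ⊢
    rcases Nat.lt_or_ge (i + 1) L.length with h1 | h1
    · have h2 : (x + 1) % (L.length : ℤ) = ((i + 1 : ℕ) : ℤ) := by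
        rw [Int.add_emod, ← hi]
        have h3 : (1 : ℤ) % (L.length : ℤ) = 1 := Int.emod_eq_of_lt (by omega) (by omega)
        rw [h3, Int.emod_eq_of_lt (by omega) (by omega)]
        push_cast
        ring
      rw [h2, Int.toNat_natCast, List.getD_eq_getElem _ _ h1]
      exact ((List.isChain_iff_getElem.1 hch) i h1 h).symm
    · exfalso
      apply hlast
      rw [List.getLast_eq_getElem]
      have h4 : L.length - 1 = i := by omega
      simp only [h4]
      exact h
  tf x n hn h := tf _ n hn h

theorem vl_base (L : List (ℤˣ × A)) (hL : L ≠ [])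
    (tf : ∀ (a : A) (n : ℕ), 0 < n → a ^ n = 1 → a = 1)
    (hch : L.IsChain (fun x y => x.2 = 1 → x.1 = y.1)) (hlast : (L.getLast hL).2 ≠ 1) :
    vl ((base (mkDat L hL tf hch hlast) 0 L.length).map Prod.fst) = valB L := by
  have key : ∀ (n s : ℕ), s + n ≤ L.length →
      vl ((base (mkDat L hL tf hch hlast) s n).map Prod.fst) = valB ((L.drop s).take n) := by
    intro n
    induction n with
    | zero => intro s _; simp [base, valB]
    | succ n ih =>
      intro s hs
      have h1 := ih (s + 1) (by omega)
      have hlt : s < L.length := by omega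
      rw [List.drop_eq_getElem_cons hlt, List.take_succ_cons]
      have h2 : ((s : ℤ) % (L.length : ℤ)).toNat = s := by
        rw [Int.emod_eq_of_lt (by omega) (by omega), Int.toNat_natCast]
      have h3 : (mkDat L hL tf hch hlast).a s = L[s].2 := by
        simp only [mkDat, h2, List.getD_eq_getElem _ _ hlt]
      have h4 : (mkDat L hL tf hch hlast).e s = L[s].1 := by
        simp only [mkDat, h2, List.getD_eq_getElem _ _ hlt]
      rw [base, List.map_cons, vl_cons, h3, h4]
      push_cast at h1
      rw [h1]
      simp [valB, val]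
  have h := key L.length 0 (by omega)
  simpa using h

/-- **Main theorem on the free product of a torsion-free group with an infinite cyclic group.** -/
theorem NT_valB (L : List (ℤˣ × A)) (hL : L ≠ [])
    (tf : ∀ (a : A) (n : ℕ), 0 < n → a ^ n = 1 → a = 1)
    (hch : L.IsChain (fun x y => x.2 = 1 → x.1 = y.1)) (hlast : (L.getLast hL).2 ≠ 1) :
    NT (valB L) := by
  have h := NT_of_str (str_base (mkDat L hL tf hch hlast) L.length rfl)
  rwa [vl_base] at h

end Pool.Agent.V8H72.RStar
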